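import Pool.Agent.TH421.Cat.Pair

/-! Adjointness for the pairing. -/

set_option autoImplicit false

namespace Pool.Agent.TH421.Cat

open MvPolynomial

variable {k : Type*} [Field k]

/-- the geometric series `1 / (1 - a z)` -/
def gs (a : k) : PowerSeries k := PowerSeries.mk (fun n => a ^ n)

lemma gs_mul (a : k) : gs a * (1 - PowerSeries.C a * PowerSeries.X) = 1 := by
  have h : gs a * (1 - PowerSeries.C a * PowerSeries.X) =
      gs a - PowerSeries.C a * (gs a * PowerSeries.X) := by ring
  rw [h]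
  ext n
  rcases n with _ | n
  · simp [gs]
  · rw [map_sub, PowerSeries.coeff_C_mul, PowerSeries.coeff_succ_mul_X]
    simp only [gs, PowerSeries.coeff_mk, PowerSeries.coeff_one]
    rw [if_neg (by omega)]
    ring

/-- `(1 - z) / (1 - t z)` -/
noncomputable def dl (t : k) : PowerSeries k := (1 - PowerSeries.X) * gs t

/-- `(1 - t z) / (1 - z)` -/
noncomputable def dr (t : k) : PowerSeries k := (1 - PowerSeries.C t * PowerSeries.X) * geo

variable (t : k)

lemma dl_mul_dr : dl t * dr t = 1 := by
  have h1 := gs_mul t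
  have h2 := geo_mul (k := k)
  calc dl t * dr t = (gs t * (1 - PowerSeries.C t * PowerSeries.X)) *
        (geo * (1 - PowerSeries.X)) := by rw [dl, dr]; ring
    _ = 1 := by rw [h1, h2, one_mul]

lemma coeff_dl_zero : PowerSeries.coeff 0 (dl t) = 1 := by
  simp [dl, gs]

lemma coeff_dr_zero : PowerSeries.coeff 0 (dr t) = 1 := by
  simp [dr, geo]

lemma coeff_dl_succ (j : ℕ) : PowerSeries.coeff (j + 1) (dl t) - t * PowerSeries.coeff j (dl t) =
    if j = 0 then -1 else 0 := by
  have h : (1 - PowerSeries.C t * PowerSeries.X) * dl t = 1 - PowerSeries.X := by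
    have h1 := gs_mul t
    calc _ = (gs t * (1 - PowerSeries.C t * PowerSeries.X)) * (1 - PowerSeries.X) := by
          rw [dl]; ring
      _ = _ := by rw [h1, one_mul]
  have h2 := congrArg (PowerSeries.coeff (j + 1)) h
  rw [sub_mul, one_mul, map_sub, mul_assoc, PowerSeries.coeff_C_mul,
    PowerSeries.coeff_succ_X_mul, map_sub, PowerSeries.coeff_one, PowerSeries.coeff_X,
    if_neg (by omega)] at h2
  rw [h2]
  split_ifs with h3 h4 h4
  · ring
  · omega
  · omega
  · ring

/-- the pairing -/
noncomputable def pair : ℕ → MvPolynomial ℕ k →ₗ[k] MvPolynomial ℕ k →ₗ[k] k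
  | 0 => LinearMap.mk₂ k (fun f g => constantCoeff f * constantCoeff g)
      (by intros; simp [add_mul]) (by intros; simp [smul_eq_C_mul, mul_assoc])
      (by intros; simp [mul_add]) (by intros; simp [smul_eq_C_mul, mul_left_comm])
  | l + 1 => aux (pair l) (rc (dl t) l)

lemma pair_zero (f g : MvPolynomial ℕ k) :
    pair t 0 f g = constantCoeff f * constantCoeff g := rfl

lemma pair_succ (l : ℕ) : pair t (l + 1) = aux (pair t l) (rc (dl t) l) := rfl

lemma pair_mono (l a b : ℕ) (f g : MvPolynomial ℕ k) :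
    pair t (l + 1) (X 0 ^ a * sh f) (X 0 ^ b * sh g) =
      if a ≤ b then pair t l f (rc (dl t) l (b - a) * g) else 0 := aux_mono _ _ _ _ _ _

lemma aux_X0 (B : MvPolynomial ℕ k →ₗ[k] MvPolynomial ℕ k →ₗ[k] k)
    (ρ : ℕ → MvPolynomial ℕ k) (f g : MvPolynomial ℕ k) :
    aux B ρ (X 0 * f) (X 0 * g) = aux B ρ f g := by
  induction f using P_induction with
  | add f f' h1 h2 => rw [mul_add, map_add, map_add, LinearMap.add_apply, LinearMap.add_apply, h1, h2]
  | mono a f =>
    induction g using P_induction with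
    | add g g' h1 h2 => rw [mul_add, map_add, map_add, h1, h2]
    | mono b g =>
      rw [← mul_assoc, ← mul_assoc, ← pow_succ', ← pow_succ', aux_mono, aux_mono,
        Nat.add_sub_add_right]
      simp only [Nat.add_le_add_iff_right]

lemma aux_shp {B : MvPolynomial ℕ k →ₗ[k] MvPolynomial ℕ k →ₗ[k] k}
    (ρ : ℕ → MvPolynomial ℕ k) {p : MvPolynomial ℕ k} (hp : ∀ f g, B (p * f) (p * g) = B f g)
    (f g : MvPolynomial ℕ k) :
    aux B ρ (sh p * f) (sh p * g) = aux B ρ f g := by
  induction f using P_induction with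
  | add f f' h1 h2 => rw [mul_add, map_add, map_add, LinearMap.add_apply, LinearMap.add_apply, h1, h2]
  | mono a f =>
    induction g using P_induction with
    | add g g' h1 h2 => rw [mul_add, map_add, map_add, h1, h2]
    | mono b g =>
      rw [mul_left_comm (sh p), mul_left_comm (sh p), ← map_mul, ← map_mul, aux_mono, aux_mono,
        mul_left_comm, hp]

lemma pair_prodX (l : ℕ) (f g : MvPolynomial ℕ k) :
    pair t l (prodX l * f) (prodX l * g) = pair t l f g := by
  induction l generalizing f g with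
  | zero => simp
  | succ l ih =>
    rw [prodX_succ', mul_assoc, mul_assoc, pair_succ, aux_X0, aux_shp _ ih]

/-! the case `i = 0` -/

/-- auxiliary pairing -/
noncomputable def Qp (l : ℕ) : MvPolynomial ℕ k →ₗ[k] MvPolynomial ℕ k →ₗ[k] k :=
  aux (aux (pair t l) (rc (dl t) l)) (fun e => sh (rc (dl t) l e))

lemma Qp_mono (l a a' b b' : ℕ) (f g : MvPolynomial ℕ k) :
    Qp t l (X 0 ^ a * sh (X 0 ^ a' * sh f)) (X 0 ^ b * sh (X 0 ^ b' * sh g)) =
      if a ≤ b then (if a' ≤ b' then
        pair t l f (rc (dl t) l (b' - a') * (rc (dl t) l (b - a) * g)) else 0) else 0 := by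
  rw [Qp, aux_mono, mul_left_comm, ← map_mul, aux_mono]

lemma pair2_mono (l a a' b b' : ℕ) (f g : MvPolynomial ℕ k) :
    pair t (l + 2) (X 0 ^ a * sh (X 0 ^ a' * sh f)) (X 0 ^ b * sh (X 0 ^ b' * sh g)) =
      if a ≤ b then ∑ p ∈ Finset.HasAntidiagonal.antidiagonal (b - a),
        (if a' ≤ b' + p.1 then PowerSeries.coeff p.1 (dl t) *
          pair t l f (rc (dl t) l (b' + p.1 - a') * (rc (dl t) l p.2 * g)) else 0) else 0 := by
  rw [pair_mono, rc_succ, Finset.sum_mul, map_sum]
  split_ifs with h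
  · apply Finset.sum_congr rfl
    intro p _
    have e : (X 0 ^ p.1 * C (PowerSeries.coeff p.1 (dl t)) * sh (rc (dl t) l p.2) *
        (X 0 ^ b' * sh g) : MvPolynomial ℕ k) =
        PowerSeries.coeff p.1 (dl t) • (X 0 ^ (b' + p.1) * sh (rc (dl t) l p.2 * g)) := by
      rw [smul_eq_C_mul, map_mul, pow_add]
      ring
    rw [e, map_smul, pair_mono, smul_eq_mul, mul_ite, mul_zero]
  · rfl

lemma claimA (l : ℕ) (f g : MvPolynomial ℕ k) :
    pair t (l + 2) f ((X 0 - C t * X 1) * g) = Qp t l f ((X 0 - X 1) * g) := by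
  induction f using P_induction with
  | add f f' h1 h2 => rw [map_add, map_add, LinearMap.add_apply, LinearMap.add_apply, h1, h2]
  | mono a f =>
  induction f using P_induction with
  | add f f' h1 h2 =>
    rw [map_add, mul_add, map_add, map_add, LinearMap.add_apply, LinearMap.add_apply, h1, h2]
  | mono a' f =>
  induction g using P_induction with
  | add g g' h1 h2 => rw [mul_add, mul_add, map_add, map_add, h1, h2]
  | mono b g =>
  induction g using P_induction with
  | add g g' h1 h2 =>
    rw [map_add, mul_add, mul_add, mul_add, map_add, map_add, h1, h2]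
  | mono b' g =>
    have e1 : (X 0 - C t * X 1) * (X 0 ^ b * sh (X 0 ^ b' * sh g)) =
        X 0 ^ (b + 1) * sh (X 0 ^ b' * sh g) - t • (X 0 ^ b * sh (X 0 ^ (b' + 1) * sh g)) := by
      rw [smul_eq_C_mul]
      simp only [map_mul, map_pow, sh_X]
      ring
    have e2 : (X 0 - X 1) * (X 0 ^ b * sh (X 0 ^ b' * sh g)) =
        X 0 ^ (b + 1) * sh (X 0 ^ b' * sh g) - (X 0 ^ b * sh (X 0 ^ (b' + 1) * sh g)) := by
      simp only [map_mul, map_pow, sh_X]
      ring
    rw [e1, e2, map_sub, map_sub, map_smul, pair2_mono, pair2_mono, Qp_mono, Qp_mono]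
    rcases lt_trichotomy a (b + 1) with h | h | h
    · have h1 : a ≤ b := by omega
      rw [if_pos h1, if_pos h1, if_pos h.le, if_pos h.le]
      have h2 : b + 1 - a = (b - a) + 1 := by omega
      rw [h2, sum_antidiag_zero, add_zero, coeff_dl_zero, one_mul, add_sub_assoc, smul_eq_mul,
        Finset.mul_sum, ← Finset.sum_sub_distrib, sub_eq_add_neg]
      congr 1
      have h3 : ∀ p ∈ Finset.HasAntidiagonal.antidiagonal (b - a),
          ((if a' ≤ b' + (p.1 + 1) then PowerSeries.coeff (p.1 + 1) (dl t) *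
            pair t l f (rc (dl t) l (b' + (p.1 + 1) - a') * (rc (dl t) l p.2 * g)) else 0) -
          t * (if a' ≤ b' + 1 + p.1 then PowerSeries.coeff p.1 (dl t) *
            pair t l f (rc (dl t) l (b' + 1 + p.1 - a') * (rc (dl t) l p.2 * g)) else 0)) =
          if p = (0, b - a) then - (if a' ≤ b' + 1 then
            pair t l f (rc (dl t) l (b' + 1 - a') * (rc (dl t) l (b - a) * g)) else 0) else 0 := by
        intro p hp
        rw [Finset.HasAntidiagonal.mem_antidiagonal] at hp
        have h4 : b' + (p.1 + 1) = b' + 1 + p.1 := by ring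
        rw [h4, mul_ite, mul_zero]
        by_cases h5 : a' ≤ b' + 1 + p.1
        · rw [if_pos h5, if_pos h5, ← mul_assoc t, ← sub_mul, coeff_dl_succ]
          by_cases h6 : p.1 = 0
          · have h7 : p = (0, b - a) := by ext <;> simp <;> omega
            rw [if_pos h6, if_pos h7, h6, add_zero]
            have h8 : p.2 = b - a := by omega
            rw [h8, if_pos (by omega)]
            ring
          · rw [if_neg h6, if_neg (by rintro rfl; exact h6 rfl), zero_mul]
        · rw [if_neg h5, if_neg h5, sub_zero, if_neg (c := a' ≤ b' + 1) (by omega)]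
          simp
      rw [Finset.sum_congr rfl h3, Finset.sum_ite_eq_of_mem']
      simp
    · subst h
      have h1 : ¬ (b + 1 ≤ b) := by omega
      simp only [le_refl, if_true, h1, if_false, Nat.sub_self, smul_zero, sub_zero,
        Finset.HasAntidiagonal.antidiagonal_zero, Finset.sum_singleton, add_zero,
        coeff_dl_zero, one_mul]
    · have h1 : ¬ (a ≤ b + 1) := by omega
      have h2 : ¬ (a ≤ b) := by omega
      simp only [h1, h2, if_false, smul_zero, sub_zero]

lemma pair_X0 (l : ℕ) (f g : MvPolynomial ℕ k) :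
    pair t (l + 1) (X 0 * f) (X 0 * g) = pair t (l + 1) f g := aux_X0 _ _ _ _

lemma pair_X1 (l : ℕ) (f g : MvPolynomial ℕ k) :
    pair t (l + 2) (X 1 * f) (X 1 * g) = pair t (l + 2) f g := by
  have : (X 1 : MvPolynomial ℕ k) = sh (X 0) := by simp
  rw [this]
  exact aux_shp _ (pair_X0 t l) f g

lemma Qp_X0 (l : ℕ) (f g : MvPolynomial ℕ k) :
    Qp t l (X 0 * f) (X 0 * g) = Qp t l f g := aux_X0 _ _ _ _

lemma Qp_X1 (l : ℕ) (f g : MvPolynomial ℕ k) :
    Qp t l (X 1 * f) (X 1 * g) = Qp t l f g := by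
  have : (X 1 : MvPolynomial ℕ k) = sh (X 0) := by simp
  rw [this]
  exact aux_shp _ (fun f g => aux_X0 _ _ f g) f g

lemma claimB (l : ℕ) (f g : MvPolynomial ℕ k) :
    pair t (l + 2) ((X 1 - C t * X 0) * f) g = Qp t l ((X 1 - X 0) * f) g := by
  have h := claimA t l (X 0 * (X 1 * f)) g
  have e1 : (X 0 - C t * X 1) * g = X 0 * g - t • (X 1 * g) := by rw [smul_eq_C_mul]; ring
  have e2 : (X 0 - X 1 : MvPolynomial ℕ k) * g = X 0 * g - (X 1 * g) := by ring
  have e3 : (X 1 - C t * X 0) * f = X 1 * f - t • (X 0 * f) := by rw [smul_eq_C_mul]; ring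
  have e4 : (X 1 - X 0 : MvPolynomial ℕ k) * f = X 1 * f - (X 0 * f) := by ring
  rw [e1, e2, map_sub, map_sub, map_smul, pair_X0, Qp_X0, mul_left_comm (X 0) (X 1), pair_X1,
    Qp_X1] at h
  rw [e3, e4, map_sub, map_sub, map_smul]
  exact h

lemma Qp_sw (l : ℕ) (f g : MvPolynomial ℕ k) : Qp t l (sw 0 f) (sw 0 g) = Qp t l f g := by
  induction f using P_induction with
  | add f f' h1 h2 =>
    rw [map_add, map_add, map_add, LinearMap.add_apply, LinearMap.add_apply, h1, h2]
  | mono a f =>
  induction f using P_induction with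
  | add f f' h1 h2 =>
    rw [map_add, mul_add, map_add, map_add, map_add, LinearMap.add_apply, LinearMap.add_apply,
      h1, h2]
  | mono a' f =>
  induction g using P_induction with
  | add g g' h1 h2 => rw [map_add, map_add, map_add, h1, h2]
  | mono b g =>
  induction g using P_induction with
  | add g g' h1 h2 =>
    rw [map_add, mul_add, map_add, map_add, map_add, h1, h2]
  | mono b' g =>
    have e : ∀ (a a' : ℕ) (f : MvPolynomial ℕ k), sw 0 (X 0 ^ a * sh (X 0 ^ a' * sh f)) =
        X 0 ^ a' * sh (X 0 ^ a * sh f) := by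
      intro a a' f
      simp only [map_mul, map_pow, sh_X]
      rw [sw_X_left, sw_X_right, sw_zero_sh_sh]
      ring
    rw [e, e, Qp_mono, Qp_mono]
    by_cases h1 : a ≤ b
    · by_cases h2 : a' ≤ b'
      · simp only [h1, h2, if_true]
        rw [mul_left_comm]
      · simp only [h2, if_false, ite_self]
    · simp only [h1, if_false, ite_self]

lemma Qp_sw' (l : ℕ) (f g : MvPolynomial ℕ k) : Qp t l (sw 0 f) g = Qp t l f (sw 0 g) := by
  rw [← Qp_sw, sw_sw]

/-! the adjoint operator -/

lemma dd_add (i : ℕ) (f g : MvPolynomial ℕ k) : dd i (f + g) = dd i f + dd i g := by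
  apply dd_eq
  rw [map_add]
  linear_combination dd_spec i f + dd_spec i g

lemma dd_mul_symm {i : ℕ} {p : MvPolynomial ℕ k} (hp : sw i p = p) (f : MvPolynomial ℕ k) :
    dd i (p * f) = p * dd i f := by
  apply dd_eq
  rw [map_mul, hp]
  linear_combination p * dd_spec i f

lemma dd_sh (i : ℕ) (f : MvPolynomial ℕ k) : dd (i + 1) (sh f) = sh (dd i f) := by
  apply dd_eq
  have h := congrArg sh (dd_spec i f)
  simp only [map_mul, map_sub, sh_X] at h
  rw [sw_sh]
  linear_combination h

/-- adjoint of `T̄_i` -/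
noncomputable def Tx (i : ℕ) (f : MvPolynomial ℕ k) : MvPolynomial ℕ k :=
  f + (X (i + 1) - C t * X i) * dd i f

lemma Tx_add (i : ℕ) (f g : MvPolynomial ℕ k) : Tx t i (f + g) = Tx t i f + Tx t i g := by
  rw [Tx, dd_add, Tx, Tx]; ring

lemma Tx_mul_symm {i : ℕ} {p : MvPolynomial ℕ k} (hp : sw i p = p) (f : MvPolynomial ℕ k) :
    Tx t i (p * f) = p * Tx t i f := by
  rw [Tx, dd_mul_symm hp, Tx]; ring

lemma Tx_sh (i : ℕ) (f : MvPolynomial ℕ k) : Tx t (i + 1) (sh f) = sh (Tx t i f) := by
  rw [Tx, dd_sh, Tx]; simp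

lemma adjoint {l i : ℕ} (h : i + 1 < l) (f g : MvPolynomial ℕ k) :
    pair t l (Tx t i f) g = pair t l f (Tb t i g) := by
  induction l generalizing i f g with
  | zero => omega
  | succ l ih =>
    rcases i with _ | i
    · obtain ⟨l, rfl⟩ : ∃ l', l = l' + 1 := ⟨l - 1, by omega⟩
      have h1 := claimA t l f (dd 0 g)
      have h2 := claimB t l (dd 0 f) g
      have h3 : (X 0 - X 1) * dd 0 g = g - sw 0 g := (dd_spec 0 g).symm
      have h4 : (X 1 - X 0) * dd 0 f = sw 0 f - f := by
        have := dd_spec 0 f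
        rw [zero_add] at this
        linear_combination this
      rw [h3] at h1
      rw [h4] at h2
      rw [Tx, Tb_def, zero_add, map_add, LinearMap.add_apply, map_sub, h1, h2, map_sub, map_sub,
        LinearMap.sub_apply, Qp_sw']
      ring
    · induction f using P_induction with
      | add f f' h1 h2 =>
        rw [Tx_add, map_add, map_add, LinearMap.add_apply, LinearMap.add_apply, h1, h2]
      | mono a f =>
      induction g using P_induction with
      | add g g' h1 h2 => rw [map_add, map_add, map_add, h1, h2]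
      | mono b g =>
        have e : ∀ a : ℕ, sw (k := k) (i + 1) (X 0 ^ a) = X 0 ^ a :=
          fun a => sw_Xpow (by omega) (by omega)
        rw [Tx_mul_symm t (e a), Tb_mul_symm t (e b), Tx_sh, Tb_sh, pair_mono, pair_mono,
          ih (by omega), Tb_mul_symm t (sw_rc _ (by omega) _)]

lemma pair_prodX_Tup {l p : ℕ} (hp : p < l) (f : MvPolynomial ℕ k) :
    ∃ f', ∀ g, pair t l (prodX l * f) (Tup t p g) = pair t l (prodX l * f') g := by
  induction p generalizing f with
  | zero => exact ⟨f, fun g => rfl⟩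
  | succ p ih =>
    obtain ⟨f', hf'⟩ := ih (by omega) (Tx t p f)
    refine ⟨f', fun g => ?_⟩
    rw [Tup_succ, ← adjoint t hp, Tx_mul_symm t (sw_prodX hp), hf']

lemma pair_X0_sh (l : ℕ) (f g : MvPolynomial ℕ k) : pair t (l + 1) (X 0 * f) (sh g) = 0 := by
  induction f using P_induction with
  | add f f' h1 h2 => rw [mul_add, map_add, LinearMap.add_apply, h1, h2, add_zero]
  | mono a f =>
    have := pair_mono t l (a + 1) 0 f g
    rw [pow_zero, one_mul] at this
    rw [← mul_assoc, ← pow_succ', this, if_neg (by omega)]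

/-- the pairing of a multiple of `prodX` with `G ν` vanishes when `ν` has a zero -/
lemma pair_prodX_G_zero {l : ℕ} {ν : List ℕ} (hl : ν.length = l) (h0 : 0 ∈ ν)
    (f : MvPolynomial ℕ k) : pair t l (prodX l * f) (G t ν) = 0 := by
  obtain ⟨α, β, hα, rfl⟩ := exists_split h0
  have h1 : α.length < l := by
    rw [← hl]; simp
  obtain ⟨f', hf'⟩ := pair_prodX_Tup t h1 f
  rw [G_split t _ _ hα, hf']
  obtain ⟨l, rfl⟩ : ∃ l', l = l' + 1 := ⟨l - 1, by omega⟩
  rw [prodX_succ', mul_assoc, pair_X0_sh]

end Pool.Agent.TH421.Cat
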