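import Pool.Agent.TH421.Cat.Sums

/-! Pieri coefficients. -/

set_option autoImplicit false

namespace Pool.Agent.TH421.Cat

variable {k : Type*} [Field k]

/-- `MM w z` is the sum of the numbers `min x z`, `x` in `w` -/
def MM : List ℕ → ℕ → ℤ
  | [], _ => 0
  | x :: w, z => (min x z : ℕ) + MM w z

@[simp] lemma MM_nil (z : ℕ) : MM [] z = 0 := rfl
lemma MM_cons (x : ℕ) (w : List ℕ) (z : ℕ) : MM (x :: w) z = (min x z : ℕ) + MM w z := rfl

lemma MM_append (a b : List ℕ) (z : ℕ) : MM (a ++ b) z = MM a z + MM b z := by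
  induction a with
  | nil => simp
  | cons x a ih => rw [List.cons_append, MM_cons, MM_cons, ih]; ring

lemma MM_perm {a b : List ℕ} (h : a.Perm b) (z : ℕ) : MM a z = MM b z := by
  induction h with
  | nil => rfl
  | cons x _ ih => rw [MM_cons, MM_cons, ih]
  | swap x y l => rw [MM_cons, MM_cons, MM_cons, MM_cons]; ring
  | trans _ _ h1 h2 => rw [h1, h2]

@[simp] lemma MM_z (w : List ℕ) : MM w 0 = 0 := by
  induction w with
  | nil => rfl
  | cons x w ih => rw [MM_cons, ih]; simp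

lemma MM_succL (w : List ℕ) (z : ℕ) : MM (succL w) (z + 1) = MM w z + w.length := by
  induction w with
  | nil => rfl
  | cons x w ih =>
    rw [succL_cons, MM_cons, MM_cons, ih, List.length_cons]
    push_cast
    omega

/-- Pieri coefficient -/
def Cf (t : k) : List ℕ → List ℕ → k
  | [], [] => 1
  | v :: ν, u :: μ =>
    (if u ≤ v then t ^ ((MM ν (v + 1) - MM ν u) - (MM μ (v + 1) - MM μ u)) else 0) * Cf t ν μ
  | _, _ => 0

/-- the exponent in the Pieri coefficient -/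
def ex : List ℕ → List ℕ → ℤ
  | v :: ν, u :: μ => (MM ν (v + 1) - MM ν u) - (MM μ (v + 1) - MM μ u) + ex ν μ
  | _, _ => 0

variable (t : k)

lemma Cf_cons (v : ℕ) (ν : List ℕ) (u : ℕ) (μ : List ℕ) : Cf t (v :: ν) (u :: μ) =
    (if u ≤ v then t ^ ((MM ν (v + 1) - MM ν u) - (MM μ (v + 1) - MM μ u)) else 0) *
      Cf t ν μ := rfl

@[simp] lemma Cf_nil : Cf t [] [] = 1 := rfl

lemma ex_cons (v : ℕ) (ν : List ℕ) (u : ℕ) (μ : List ℕ) : ex (v :: ν) (u :: μ) =
    (MM ν (v + 1) - MM ν u) - (MM μ (v + 1) - MM μ u) + ex ν μ := rfl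

@[simp] lemma ex_nil : ex [] [] = 0 := rfl

variable {t}

lemma Cf_pos (ht : t ≠ 0) {ν μ : List ℕ} (h : List.Forall₂ (· ≤ ·) μ ν) :
    Cf t ν μ = t ^ ex ν μ := by
  induction h with
  | nil => simp
  | cons h1 _ ih => rw [Cf_cons, ex_cons, if_pos h1, ih, zpow_add₀ ht]

lemma Cf_neg {ν μ : List ℕ} (h : ¬ List.Forall₂ (· ≤ ·) μ ν) : Cf t ν μ = 0 := by
  induction ν generalizing μ with
  | nil =>
    rcases μ with _ | ⟨u, μ⟩
    · exact absurd List.Forall₂.nil h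
    · rfl
  | cons v ν ih =>
    rcases μ with _ | ⟨u, μ⟩
    · rfl
    · rw [Cf_cons]
      by_cases huv : u ≤ v
      · rw [ih (fun h' => h (List.Forall₂.cons huv h')), mul_zero]
      · rw [if_neg huv, zero_mul]

/-- local exponent -/
def loc (v1 v2 u1 u2 : ℕ) : ℤ :=
  ((min v2 (v1 + 1) : ℕ) : ℤ) - (min v2 u1 : ℕ) - (min u2 (v1 + 1) : ℕ) + (min u2 u1 : ℕ)

variable (t) in
/-- local coefficient -/
def BB (v1 v2 u1 u2 : ℕ) : k := if u1 ≤ v1 ∧ u2 ≤ v2 then t ^ loc v1 v2 u1 u2 else 0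

/-- local part independent of the order -/
def KK (ν μ : List ℕ) (v1 v2 u1 u2 : ℕ) : ℤ :=
  (MM ν (v1 + 1) - MM μ (v1 + 1)) + (MM ν (v2 + 1) - MM μ (v2 + 1)) -
    (MM ν u1 - MM μ u1) - (MM ν u2 - MM μ u2)

lemma Cf2 (ht : t ≠ 0) (ν μ : List ℕ) (v1 v2 u1 u2 : ℕ) :
    Cf t (v1 :: v2 :: ν) (u1 :: u2 :: μ) =
      BB t v1 v2 u1 u2 * (t ^ KK ν μ v1 v2 u1 u2 * Cf t ν μ) := by
  rw [Cf_cons, Cf_cons, BB]
  by_cases h1 : u1 ≤ v1
  · by_cases h2 : u2 ≤ v2
    · rw [if_pos h1, if_pos h2, if_pos ⟨h1, h2⟩, ← mul_assoc, ← mul_assoc, ← zpow_add₀ ht,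
        ← zpow_add₀ ht]
      congr 2
      rw [loc, KK, MM_cons, MM_cons, MM_cons, MM_cons]
      ring
    · rw [if_neg h2, if_neg (fun h : u1 ≤ v1 ∧ u2 ≤ v2 => h2 h.2)]
      ring
  · rw [if_neg h1, if_neg (fun h : u1 ≤ v1 ∧ u2 ≤ v2 => h1 h.1)]
    ring

lemma BB_local (ht : t ≠ 0) (v1 v2 u1 u2 : ℕ) (hu : u1 ≤ u2) :
    (if v1 < v2 then t else 1) * BB t v2 v1 u1 u2 +
      (if v2 < v1 then 1 - t else 0) * BB t v1 v2 u1 u2 = BB t v1 v2 u2 u1 := by
  rcases lt_trichotomy v1 v2 with h | h | h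
  · rw [if_pos h, if_neg (by omega), zero_mul, add_zero, BB, BB]
    by_cases h1 : u2 ≤ v1
    · have e : loc v1 v2 u2 u1 = loc v2 v1 u1 u2 + 1 := by
        simp only [loc]; omega
      rw [if_pos ⟨by omega, h1⟩, if_pos ⟨h1, by omega⟩, e, zpow_add_one₀ ht, mul_comm]
    · rw [if_neg (fun h => h1 h.2), if_neg (fun h => h1 h.1), mul_zero]
  · subst h
    rw [if_neg (by omega), if_neg (by omega), one_mul, zero_mul, add_zero, BB, BB]
    by_cases h1 : u2 ≤ v1
    · have e : loc v1 v1 u2 u1 = loc v1 v1 u1 u2 := by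
        simp only [loc]; omega
      rw [if_pos ⟨by omega, h1⟩, if_pos ⟨h1, by omega⟩, e]
    · rw [if_neg (fun h => h1 h.2), if_neg (fun h => h1 h.1)]
  · rw [if_neg (by omega), if_pos h, one_mul, BB, BB, BB]
    by_cases h1 : u2 ≤ v2
    · have e1 : loc v2 v1 u1 u2 = loc v1 v2 u1 u2 + 1 := by
        simp only [loc]; omega
      have e2 : loc v1 v2 u2 u1 = loc v1 v2 u1 u2 := by
        simp only [loc]; omega
      rw [if_pos ⟨by omega, by omega⟩, if_pos ⟨by omega, by omega⟩, if_pos ⟨by omega, by omega⟩,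
        e1, e2, zpow_add_one₀ ht]
      ring
    · rw [if_neg (c := u1 ≤ v1 ∧ u2 ≤ v2) (fun h => h1 h.2), mul_zero, add_zero]
      by_cases h2 : u1 ≤ v2 ∧ u2 ≤ v1
      · have e1 : loc v2 v1 u1 u2 = 0 := by simp only [loc]; omega
        have e2 : loc v1 v2 u2 u1 = 0 := by simp only [loc]; omega
        rw [if_pos h2, if_pos ⟨h2.2, h2.1⟩, e1, e2]
      · rw [if_neg h2, if_neg (fun h => h2 ⟨h.2, h.1⟩)]

lemma TT_C (ht : t ≠ 0) {i : ℕ} {ν μ : List ℕ} (hl : ν.length = μ.length)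
    (hi : i + 1 < μ.length) (h : gt i μ = false) :
    TT t i (fun ν => Cf t ν μ) ν = Cf t ν (swl i μ) := by
  induction i generalizing ν μ with
  | zero =>
    rcases ν with _ | ⟨v1, _ | ⟨v2, ν⟩⟩
    · simp at hl; omega
    · simp at hl; omega
    rcases μ with _ | ⟨u1, _ | ⟨u2, μ⟩⟩
    · simp at hi
    · simp at hi
    simp only [gt_zero, decide_eq_false_iff_not, not_lt] at h
    rw [TT, swl_zero, swl_zero]
    simp only [gt_zero, decide_eq_true_eq]
    rw [Cf2 ht, Cf2 ht, Cf2 ht, ← BB_local ht v1 v2 u1 u2 h]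
    have e1 : KK ν μ v2 v1 u1 u2 = KK ν μ v1 v2 u1 u2 := by simp only [KK]; ring
    have e2 : KK ν μ v1 v2 u2 u1 = KK ν μ v1 v2 u1 u2 := by simp only [KK]; ring
    rw [e1, e2]
    ring
  | succ i ih =>
    rcases ν with _ | ⟨v, ν⟩
    · simp at hl; omega
    rcases μ with _ | ⟨u, μ⟩
    · simp at hi
    simp only [List.length_cons, Nat.add_right_cancel_iff, gt_succ] at hl hi h
    rw [swl_succ, Cf_cons, ← ih hl (by omega) h, TT, TT, swl_succ]
    simp only [gt_succ]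
    rw [Cf_cons, Cf_cons, MM_perm (swl_perm i ν), MM_perm (swl_perm i ν),
      MM_perm (swl_perm i μ), MM_perm (swl_perm i μ)]
    ring

open MvPolynomial in
lemma Tb_sum_C (ht : t ≠ 0) {i l n : ℕ} {μ : List ℕ} (hl : μ.length = l)
    (hi : i + 1 < l) (h : gt i μ = false) :
    Tb t i (∑ ν ∈ S l n, Cf t ν μ • G t ν) = ∑ ν ∈ S l n, Cf t ν (swl i μ) • G t ν := by
  rw [TT_sum t hi]
  apply Finset.sum_congr rfl
  intro ν hν
  rw [mem_S] at hν
  rw [TT_C ht (by omega) (by omega) h]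

open MvPolynomial in
lemma Tup_sum_C (ht : t ≠ 0) (n c : ℕ) (α β : List ℕ) (h : ∀ x ∈ α, c ≤ x) :
    Tup t α.length (∑ ν ∈ S (α ++ c :: β).length n, Cf t ν (c :: α ++ β) • G t ν) =
      ∑ ν ∈ S (α ++ c :: β).length n, Cf t ν (α ++ c :: β) • G t ν := by
  induction α using List.reverseRecOn generalizing β with
  | nil => rfl
  | append_singleton α x ih =>
    have h1 : ∀ y ∈ α, c ≤ y := fun y hy => h y (by simp [hy])
    have e1 : c :: (α ++ [x]) ++ β = c :: α ++ (x :: β) := by simp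
    have e2 : α ++ [x] ++ c :: β = α ++ x :: c :: β := by simp
    have e3 : (α ++ x :: c :: β).length = (α ++ c :: x :: β).length := by simp
    rw [e1, e2, List.length_append (as := α) (bs := [x]), List.length_singleton, Tup_succ, e3,
      ih (x :: β) h1, Tb_sum_C ht rfl (by simp) (by
        rw [gt_append]
        have := h x (by simp)
        simp; omega), swl_append]

end Pool.Agent.TH421.Cat
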