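import Mathlib

/-! From a polynomial identity to a bijection. -/

set_option autoImplicit false

namespace Pool.Agent.TH421.Cat

open MvPolynomial

/-- exponent vector -/
noncomputable def EE (i j : ℕ) : Fin 2 →₀ ℕ := Finsupp.single 0 i + Finsupp.single 1 j

lemma EE_inj {i j i' j' : ℕ} : EE i j = EE i' j' ↔ i = i' ∧ j = j' := by
  constructor
  · intro h
    have h0 := DFunLike.congr_fun h 0
    have h1 := DFunLike.congr_fun h 1
    simp [EE] at h0 h1
    exact ⟨h0, h1⟩
  · rintro ⟨rfl, rfl⟩; rfl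

lemma X_pow_mul (i j : ℕ) :
    (X 0 ^ i * X 1 ^ j : MvPolynomial (Fin 2) ℤ) = monomial (EE i j) 1 := by
  rw [X_pow_eq_monomial, X_pow_eq_monomial, monomial_mul, one_mul, EE]

lemma coeff_sum_pow {α : Type*} (s : Finset α) (f g : α → ℕ) (i j : ℕ) :
    coeff (EE i j) (∑ w ∈ s, (X 0 ^ f w * X 1 ^ g w : MvPolynomial (Fin 2) ℤ)) =
      ((s.filter (fun w => f w = i ∧ g w = j)).card : ℤ) := by
  rw [coeff_sum, Finset.card_filter, Nat.cast_sum]
  apply Finset.sum_congr rfl
  intro w _
  rw [X_pow_mul, coeff_monomial]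
  simp only [EE_inj]
  split_ifs <;> simp

/-- fibrewise injection -/
lemma exists_fibre_inj {α γ : Type*} [DecidableEq γ] (U V : Finset α)
    (φ g : α → γ)
    (h : ∀ x, (U.filter (fun w => φ w = x)).card ≤ (V.filter (fun w => g w = x)).card) :
    ∃ f : α → α, Set.InjOn f U ∧ ∀ w ∈ U, f w ∈ V ∧ g (f w) = φ w := by
  classical
  have h1 : ∀ x, Nonempty ({w // w ∈ U.filter (fun w => φ w = x)} ↪
      {w // w ∈ V.filter (fun w => g w = x)}) := by
    intro x
    apply Function.Embedding.nonempty_of_card_le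
    simpa using h x
  let e := fun x => (h1 x).some
  let f : α → α := fun w => if hw : w ∈ U then
    (e (φ w) ⟨w, Finset.mem_filter.2 ⟨hw, rfl⟩⟩).1 else w
  have hf : ∀ w ∈ U, f w ∈ V ∧ g (f w) = φ w := by
    intro w hw
    simp only [f, dif_pos hw]
    exact Finset.mem_filter.1 (e (φ w) ⟨w, Finset.mem_filter.2 ⟨hw, rfl⟩⟩).2
  refine ⟨f, ?_, hf⟩
  intro w hw w' hw' heq
  rw [Finset.mem_coe] at hw hw'
  have h2 : φ w' = φ w := by rw [← (hf w hw).2, ← (hf w' hw').2, heq]
  simp only [f, dif_pos hw, dif_pos hw'] at heq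
  have h3 : ∀ x (hx : φ w' = x), (e (φ w') ⟨w', Finset.mem_filter.2 ⟨hw', rfl⟩⟩).1 =
      (e x ⟨w', Finset.mem_filter.2 ⟨hw', hx⟩⟩).1 := by
    rintro x rfl; rfl
  rw [h3 _ h2] at heq
  have h4 := (e (φ w)).injective (Subtype.ext heq)
  exact congrArg Subtype.val h4

/-- generating polynomial -/
noncomputable def PS {α : Type*} (s : Finset α) (a d : α → ℕ) (x y : MvPolynomial (Fin 2) ℤ) :
    MvPolynomial (Fin 2) ℤ := ∑ w ∈ s, x ^ a w * y ^ d w

/-- the counting argument -/
theorem exists_of_identity {α : Type*} [DecidableEq α] (W T : Finset α) (hT : T ⊆ W)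
    (a d : α → ℕ)
    (hid : (X 1 - X 0) * PS W a d (X 0) (X 1) =
      X 1 * PS T a d (X 0) (X 1) - X 0 * PS T a d (X 1) (X 0)) :
    ∃ (I : Finset α) (f : α → α), I ⊆ W ∧ Set.BijOn f (W \ T : Finset α) (W \ I : Finset α) ∧
      (∀ w ∈ W \ T, a (f w) + 1 = a w ∧ d (f w) = d w + 1) ∧
      PS T a d (X 0) (X 1) = PS I a d (X 1) (X 0) := by
  have e1 : X 1 * PS W a d (X 0) (X 1) = ∑ w ∈ W, (X 0 ^ a w * X 1 ^ (d w + 1) :
      MvPolynomial (Fin 2) ℤ) := by
    rw [PS, Finset.mul_sum]
    exact Finset.sum_congr rfl (fun w _ => by ring)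
  have e2 : X 0 * PS W a d (X 0) (X 1) = ∑ w ∈ W, (X 0 ^ (a w + 1) * X 1 ^ (d w) :
      MvPolynomial (Fin 2) ℤ) := by
    rw [PS, Finset.mul_sum]
    exact Finset.sum_congr rfl (fun w _ => by ring)
  have e3 : X 1 * PS T a d (X 0) (X 1) = ∑ w ∈ T, (X 0 ^ a w * X 1 ^ (d w + 1) :
      MvPolynomial (Fin 2) ℤ) := by
    rw [PS, Finset.mul_sum]
    exact Finset.sum_congr rfl (fun w _ => by ring)
  have e4 : X 0 * PS T a d (X 1) (X 0) = ∑ w ∈ T, (X 0 ^ (d w + 1) * X 1 ^ (a w) :
      MvPolynomial (Fin 2) ℤ) := by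
    rw [PS, Finset.mul_sum]
    exact Finset.sum_congr rfl (fun w _ => by ring)
  have hid2 := hid
  rw [sub_mul, e1, e2, e3, e4] at hid2
  have hcoef : ∀ i j, ((W.filter (fun w => a w = i ∧ d w + 1 = j)).card : ℤ) -
      (W.filter (fun w => a w + 1 = i ∧ d w = j)).card =
      (T.filter (fun w => a w = i ∧ d w + 1 = j)).card -
      (T.filter (fun w => d w + 1 = i ∧ a w = j)).card := by
    intro i j
    have h := congrArg (coeff (EE i j)) hid2
    rw [coeff_sub, coeff_sub, coeff_sum_pow, coeff_sum_pow, coeff_sum_pow, coeff_sum_pow] at h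
    exact h
  have hcard : ∀ x : ℕ × ℕ, ((W \ T).filter (fun w => (a w, d w + 1) = x)).card ≤
      (W.filter (fun w => (a w + 1, d w) = x)).card := by
    rintro ⟨i, j⟩
    have h := hcoef i j
    have h1 : (W \ T).filter (fun w => (a w, d w + 1) = (i, j)) =
        W.filter (fun w => a w = i ∧ d w + 1 = j) \ T.filter (fun w => a w = i ∧ d w + 1 = j) := by
      ext w
      simp only [Finset.mem_filter, Finset.mem_sdiff, Prod.mk.injEq]
      tauto
    have h2 : T.filter (fun w => a w = i ∧ d w + 1 = j) ⊆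
        W.filter (fun w => a w = i ∧ d w + 1 = j) := Finset.filter_subset_filter _ hT
    rw [h1, Finset.card_sdiff_of_subset h2]
    simp only [Prod.mk.injEq]
    have h3 := Finset.card_le_card h2
    omega
  obtain ⟨f, hinj, hf⟩ := exists_fibre_inj (W \ T) W (fun w => (a w, d w + 1))
    (fun w => (a w + 1, d w)) hcard
  refine ⟨W \ (W \ T).image f, f, Finset.sdiff_subset, ?_, ?_, ?_⟩
  · have hsub : (W \ T).image f ⊆ W := by
      intro x hx
      obtain ⟨w, hw, rfl⟩ := Finset.mem_image.1 hx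
      exact (hf w hw).1
    rw [Finset.sdiff_sdiff_eq_self hsub, Finset.coe_image]
    exact hinj.bijOn_image
  · intro w hw
    have := (hf w hw).2
    simp only [Prod.mk.injEq] at this
    exact this
  · have hsub : (W \ T).image f ⊆ W := by
      intro x hx
      obtain ⟨w, hw, rfl⟩ := Finset.mem_image.1 hx
      exact (hf w hw).1
    -- swapped identity
    have hsw := congrArg (rename (Equiv.swap (0 : Fin 2) 1)) hid
    have hPS : ∀ (s : Finset α) (x y : MvPolynomial (Fin 2) ℤ),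
        rename (Equiv.swap (0 : Fin 2) 1) (PS s a d x y) =
        PS s a d (rename (Equiv.swap (0 : Fin 2) 1) x) (rename (Equiv.swap (0 : Fin 2) 1) y) := by
      intro s x y
      rw [PS, PS, map_sum]
      exact Finset.sum_congr rfl (fun w _ => by simp)
    simp only [map_mul, map_sub, hPS, rename_X, Equiv.swap_apply_left, Equiv.swap_apply_right]
      at hsw
    have h1 : PS (W \ (W \ T).image f) a d (X 1) (X 0) =
        PS W a d (X 1) (X 0) - PS ((W \ T).image f) a d (X 1) (X 0) := by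
      rw [eq_sub_iff_add_eq, PS, PS, PS, Finset.sum_sdiff hsub]
    have h2 : X 1 * PS ((W \ T).image f) a d (X 1) (X 0) = X 0 * PS (W \ T) a d (X 1) (X 0) := by
      rw [PS, PS, Finset.sum_image hinj, Finset.mul_sum, Finset.mul_sum]
      apply Finset.sum_congr rfl
      intro w hw
      have := (hf w hw).2
      simp only [Prod.mk.injEq] at this
      rw [this.2, ← this.1]
      ring
    have h3 : PS (W \ T) a d (X 1) (X 0) = PS W a d (X 1) (X 0) - PS T a d (X 1) (X 0) := by
      rw [eq_sub_iff_add_eq, PS, PS, PS, Finset.sum_sdiff hT]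
    apply mul_left_cancel₀ (X_ne_zero (1 : Fin 2))
    rw [h1, mul_sub, h2, h3]
    linear_combination hsw

end Pool.Agent.TH421.Cat
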