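import Pool.Agent.TH421.Cat.Adj

/-! The monomials and the dual basis. -/

set_option autoImplicit false

namespace Pool.Agent.TH421.Cat

open MvPolynomial

variable {k : Type*} [Field k]

/-- the monomial with exponents given by a list -/
noncomputable def mon : List ℕ → MvPolynomial ℕ k
  | [] => 1
  | a :: l => X 0 ^ a * sh (mon l)

@[simp] lemma mon_nil : mon (k := k) [] = 1 := rfl
lemma mon_cons (a : ℕ) (l : List ℕ) : mon (k := k) (a :: l) = X 0 ^ a * sh (mon l) := rfl

lemma ev_fac_of_ne (c : PowerSeries k) {j l : ℕ} (h : j ≠ l) :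
    PowerSeries.map (ev (k := k) l).toRingHom (fac c j) = fac c j := by
  ext1 n
  rw [PowerSeries.coeff_map, coeff_fac]
  simp only [AlgHom.toRingHom_eq_coe, RingHom.coe_coe, map_mul, map_pow, ev_C]
  rw [ev_X_of_ne h]

lemma ev_fac_self (c : PowerSeries k) (hc : PowerSeries.coeff 0 c = 1) (l : ℕ) :
    PowerSeries.map (ev (k := k) l).toRingHom (fac c l) = 1 := by
  ext1 n
  rw [PowerSeries.coeff_map, coeff_fac, PowerSeries.coeff_one]
  simp only [AlgHom.toRingHom_eq_coe, RingHom.coe_coe, map_mul, map_pow, ev_C, ev_X_self]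
  rcases n with _ | n
  · simp [hc]
  · simp

lemma ev_rc (c : PowerSeries k) (hc : PowerSeries.coeff 0 c = 1) (l e : ℕ) :
    ev l (rc c (l + 1) e) = rc c l e := by
  have h : PowerSeries.map (ev (k := k) l).toRingHom (Phi c (l + 1)) = Phi c l := by
    rw [Phi, Finset.prod_range_succ, map_mul, map_prod, ev_fac_self c hc, mul_one, Phi]
    apply Finset.prod_congr rfl
    intro j hj
    exact ev_fac_of_ne c (Finset.mem_range.1 hj).ne
  rw [rc, rc, ← h, PowerSeries.coeff_map]
  rfl

lemma ev_zero_sh (f : MvPolynomial ℕ k) : ev 0 (sh f) = sh f := by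
  have : (ev (k := k) 0).comp sh = sh := by
    apply MvPolynomial.algHom_ext
    intro j
    simp only [AlgHom.comp_apply, sh_X, ev, aeval_X]
    rw [if_neg (by omega)]
  exact DFunLike.congr_fun this f

lemma constantCoeff_sh (f : MvPolynomial ℕ k) : constantCoeff (sh f) = constantCoeff f := by
  rw [sh, constantCoeff_rename]

variable (t : k)

/-- the last variable can be set to zero -/
lemma pair_mon_last (l : ℕ) (a : List ℕ) (hl : a.length = l) (g : MvPolynomial ℕ k) :
    pair t (l + 1) (mon a) g = pair t l (mon a) (ev l g) := by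
  induction l generalizing a g with
  | zero =>
    rw [List.length_eq_zero_iff] at hl
    subst hl
    induction g using P_induction with
    | add g g' h1 h2 => rw [map_add, map_add, map_add, h1, h2]
    | mono b g =>
      have e : (mon [] : MvPolynomial ℕ k) = X 0 ^ 0 * sh 1 := by simp
      have e2 : ev 0 (X 0 ^ b * sh g) = (0 ^ b : MvPolynomial ℕ k) * sh g := by
        rw [map_mul, map_pow, ev_X_self, ev_zero_sh]
      rw [e, pair_mono, if_pos (Nat.zero_le _), pair_zero, pair_zero, Nat.sub_zero, rc_zero, e2]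
      rcases b with _ | b
      · simp [constantCoeff_sh]
      · simp
  | succ l ih =>
    rcases a with _ | ⟨a, a'⟩
    · simp at hl
    · simp only [List.length_cons, Nat.add_right_cancel_iff] at hl
      induction g using P_induction with
      | add g g' h1 h2 => rw [map_add, map_add, map_add, h1, h2]
      | mono b g =>
        have e2 : ev (l + 1) (X 0 ^ b * sh g) = (X 0 ^ b : MvPolynomial ℕ k) * sh (ev l g) := by
          rw [map_mul, map_pow, ev_X_of_ne (by omega), ev_sh]
        rw [mon_cons, e2, pair_mono, pair_mono, ih a' hl, map_mul, ev_rc _ (coeff_dl_zero t)]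

/-- the dual basis -/
noncomputable def vv : List ℕ → MvPolynomial ℕ k
  | [] => 1
  | a :: l => (∑ p ∈ Finset.HasAntidiagonal.antidiagonal a,
      X 0 ^ p.1 * sh (rc (dr t) l.length p.2)) * sh (vv l)

@[simp] lemma vv_nil : vv t [] = 1 := rfl
lemma vv_cons (a : ℕ) (l : List ℕ) : vv t (a :: l) =
    (∑ p ∈ Finset.HasAntidiagonal.antidiagonal a,
      X 0 ^ p.1 * sh (rc (dr t) l.length p.2)) * sh (vv t l) := rfl

lemma sum_antidiag_shift {M : Type*} [AddCommMonoid M] (a b : ℕ) (F : ℕ → ℕ → M) :
    ∑ p ∈ Finset.HasAntidiagonal.antidiagonal a, (if b ≤ p.1 then F (p.1 - b) p.2 else 0) =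
      if b ≤ a then ∑ q ∈ Finset.HasAntidiagonal.antidiagonal (a - b), F q.1 q.2 else 0 := by
  induction b generalizing a with
  | zero => simp
  | succ b ih =>
    rcases a with _ | a
    · simp
    · rw [sum_antidiag_zero, if_neg (by omega), zero_add]
      simp only [Nat.add_le_add_iff_right, Nat.add_sub_add_right]
      exact ih a

lemma pair_vv (n : ℕ) (a b : List ℕ) (ha : a.length = n) (hb : b.length = n) :
    pair t n (mon b) (vv t a) = if a = b then 1 else 0 := by
  induction n generalizing a b with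
  | zero =>
    rw [List.length_eq_zero_iff] at ha hb
    subst ha hb
    simp [pair_zero]
  | succ n ih =>
    rcases a with _ | ⟨a, a'⟩
    · simp at ha
    rcases b with _ | ⟨b, b'⟩
    · simp at hb
    simp only [List.length_cons, Nat.add_right_cancel_iff] at ha hb
    have e : ∀ p ∈ Finset.HasAntidiagonal.antidiagonal a,
        pair t (n + 1) (mon (b :: b')) (X 0 ^ p.1 * sh (rc (dr t) n p.2) * sh (vv t a')) =
        if b ≤ p.1 then pair t n (mon b') (rc (dl t) n (p.1 - b) * rc (dr t) n p.2 * vv t a')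
          else 0 := by
      intro p _
      rw [mul_assoc, ← map_mul, mon_cons, pair_mono, mul_assoc]
    rw [vv_cons, Finset.sum_mul, map_sum, ha, Finset.sum_congr rfl e,
      sum_antidiag_shift a b
        (fun i j => pair t n (mon b') (rc (dl t) n i * rc (dr t) n j * vv t a')),
      ← map_sum, ← Finset.sum_mul, ← rc_mul, dl_mul_dr, rc_one]
    by_cases h : a = b
    · subst h
      rw [if_pos le_rfl, if_pos (Nat.sub_self a), one_mul, ih a' b' ha hb]
      simp
    · rw [if_neg (c := a :: a' = b :: b') (by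
        intro h'
        simp only [List.cons.injEq] at h'
        exact h h'.1)]
      by_cases h2 : b ≤ a
      · rw [if_pos h2, if_neg (by omega), zero_mul, map_zero]
      · rw [if_neg h2]

/-! the span of the `G b` -/

/-- the span of the `G b`, `b` of length `n` and sum `A` -/
noncomputable def VV (n A : ℕ) : Submodule k (MvPolynomial ℕ k) :=
  Submodule.span k (G t '' (S n A : Set (List ℕ)))

variable {t}

lemma G_mem_VV {n A : ℕ} {b : List ℕ} (h1 : b.length = n) (h2 : b.sum = A) :
    G t b ∈ VV t n A :=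
  Submodule.subset_span ⟨b, by simpa using mem_S.2 ⟨h1, h2⟩, rfl⟩

lemma VV_le {n A : ℕ} {N : Submodule k (MvPolynomial ℕ k)}
    (h : ∀ b : List ℕ, b.length = n → b.sum = A → G t b ∈ N) : VV t n A ≤ N := by
  rw [VV, Submodule.span_le]
  rintro _ ⟨b, hb, rfl⟩
  have := mem_S.1 (Finset.mem_coe.1 hb)
  exact h b this.1 this.2

lemma Tb_mem_VV {n A i : ℕ} (hi : i + 1 < n) {f : MvPolynomial ℕ k} (hf : f ∈ VV t n A) :
    Tb t i f ∈ VV t n A := by
  have : VV t n A ≤ (VV t n A).comap (Tb t i) := by
    apply VV_le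
    intro b h1 h2
    rw [Submodule.mem_comap, Tb_G' t (by omega)]
    apply Submodule.add_mem
    · apply Submodule.smul_mem
      apply G_mem_VV
      · rw [(swl_perm i b).length_eq, h1]
      · rw [(swl_perm i b).sum_eq, h2]
    · exact Submodule.smul_mem _ _ (G_mem_VV h1 h2)
  exact this hf

lemma Tb_mem_VV' (ht : t ≠ 0) {n A i : ℕ} (hi : i + 1 < n) {f : MvPolynomial ℕ k}
    (hf : Tb t i f ∈ VV t n A) : f ∈ VV t n A := by
  have h1 := Tb_mem_VV hi hf
  rw [Tb_quad] at h1
  have h2 : t • f ∈ VV t n A := by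
    have := Submodule.sub_mem _ h1 (Submodule.smul_mem _ (1 - t) hf)
    rwa [add_sub_cancel_left] at this
  have := Submodule.smul_mem _ t⁻¹ h2
  rwa [smul_smul, inv_mul_cancel₀ ht, one_smul] at this

lemma Tup_mem_VV' (ht : t ≠ 0) {n A p : ℕ} (hp : p < n) {f : MvPolynomial ℕ k}
    (hf : Tup t p f ∈ VV t n A) : f ∈ VV t n A := by
  induction p with
  | zero => exact hf
  | succ p ih =>
    rw [Tup_succ] at hf
    exact ih (by omega) (Tb_mem_VV' ht hp hf)

lemma X0_mem_VV (ht : t ≠ 0) {n A : ℕ} (hn : 0 < n) {f : MvPolynomial ℕ k}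
    (hf : f ∈ VV t n A) : X 0 * f ∈ VV t n (A + 1) := by
  have : VV t n A ≤ (VV t n (A + 1)).comap (LinearMap.mulLeft k (X 0)) := by
    apply VV_le
    intro b h1 h2
    rw [Submodule.mem_comap, LinearMap.mulLeft_apply]
    rcases b with _ | ⟨b, ν⟩
    · simp at h1; omega
    · simp only [List.length_cons, List.sum_cons] at h1 h2
      apply Tup_mem_VV' ht (show ν.length < n by omega)
      rw [rot_G]
      apply Submodule.smul_mem
      apply G_mem_VV
      · simp; omega
      · simp; omega
  exact this hf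

/-- multiplication by `X (i+1)` in terms of multiplication by `X i` -/
lemma X_succ_mul (i : ℕ) (f : MvPolynomial ℕ k) :
    t • (X (i + 1) * f) = Tb t i (X i * Tb t i f) := by
  rw [Tb_X_mul, Tb_quad]
  rw [← mul_smul_comm]
  congr 1
  rw [add_right_comm, ← add_smul]
  simp

lemma X_mem_VV (ht : t ≠ 0) {n A j : ℕ} (hj : j < n) {f : MvPolynomial ℕ k}
    (hf : f ∈ VV t n A) : X j * f ∈ VV t n (A + 1) := by
  induction j generalizing f with
  | zero => exact X0_mem_VV ht hj hf
  | succ j ih =>
    have h1 := Tb_mem_VV hj (ih (by omega) (Tb_mem_VV hj hf))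
    rw [← X_succ_mul] at h1
    have := Submodule.smul_mem _ t⁻¹ h1
    rwa [smul_smul, inv_mul_cancel₀ ht, one_smul] at this

lemma Xpow_mem_VV (ht : t ≠ 0) {n A j : ℕ} (hj : j < n) (e : ℕ) {f : MvPolynomial ℕ k}
    (hf : f ∈ VV t n A) : X j ^ e * f ∈ VV t n (A + e) := by
  induction e with
  | zero => simpa using hf
  | succ e ih =>
    rw [pow_succ', mul_assoc, ← add_assoc]
    exact X_mem_VV ht hj ih

/-- multiplication by coefficients of products of `fac` -/
lemma prodfac_mem_VV (ht : t ≠ 0) (c : PowerSeries k) (s : Finset ℕ) {n : ℕ}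
    (hs : ∀ j ∈ s, j < n) (e : ℕ) {A : ℕ} {f : MvPolynomial ℕ k} (hf : f ∈ VV t n A) :
    PowerSeries.coeff e (∏ j ∈ s, fac c j) * f ∈ VV t n (A + e) := by
  induction s using Finset.induction_on generalizing e A f with
  | empty =>
    rw [Finset.prod_empty, PowerSeries.coeff_one]
    split_ifs with h
    · subst h; simpa using hf
    · simp
  | insert j s hj ih =>
    rw [Finset.prod_insert hj, PowerSeries.coeff_mul, Finset.sum_mul]
    apply Submodule.sum_mem
    intro p hp
    rw [Finset.HasAntidiagonal.mem_antidiagonal] at hp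
    have h1 := ih (fun j hj => hs j (Finset.mem_insert_of_mem hj)) p.2 hf
    have h2 := Xpow_mem_VV ht (hs j (Finset.mem_insert_self _ _)) p.1 h1
    have h3 := Submodule.smul_mem _ (PowerSeries.coeff p.1 c) h2
    rw [coeff_fac]
    rw [smul_eq_C_mul] at h3
    have e1 : A + e = A + p.2 + p.1 := by omega
    rw [e1]
    convert h3 using 1
    ring

lemma sh_mem_VV {n A : ℕ} {f : MvPolynomial ℕ k} (hf : f ∈ VV t n A) :
    sh f ∈ VV t (n + 1) A := by
  have : VV t n A ≤ (VV t (n + 1) A).comap (sh (k := k)).toLinearMap := by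
    apply VV_le
    intro b h1 h2
    rw [Submodule.mem_comap, AlgHom.toLinearMap_apply, ← G_zero_cons]
    apply G_mem_VV
    · simp [h1]
    · simp [h2]
  exact this hf

lemma vv_mem_VV (ht : t ≠ 0) (a : List ℕ) : vv t a ∈ VV t a.length a.sum := by
  induction a with
  | nil =>
    rw [vv_nil, ← G_nil t]
    exact G_mem_VV rfl rfl
  | cons a l ih =>
    rw [vv_cons, Finset.sum_mul]
    apply Submodule.sum_mem
    intro p hp
    rw [Finset.HasAntidiagonal.mem_antidiagonal] at hp
    rw [mul_assoc, List.length_cons, List.sum_cons]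
    have h1 := sh_mem_VV ih
    have h2 : sh (rc (dr t) l.length p.2) * sh (vv t l) ∈ VV t (l.length + 1) (l.sum + p.2) := by
      have h3 := prodfac_mem_VV ht (dr t) ((Finset.range l.length).map (addRightEmbedding 1))
        (n := l.length + 1) (by
          intro j hj
          simp only [Finset.mem_map, Finset.mem_range, addRightEmbedding_apply] at hj
          obtain ⟨i, hi, rfl⟩ := hj
          omega) p.2 h1
      convert h3 using 2
      rw [Finset.prod_map, rc, Phi]
      simp only [addRightEmbedding_apply]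
      have : (∏ x ∈ Finset.range l.length, fac (dr t) (x + 1)) =
        PowerSeries.map (sh (k := k)).toRingHom (∏ x ∈ Finset.range l.length, fac (dr t) x) := by
        rw [map_prod]
        exact Finset.prod_congr rfl (fun j _ => (map_sh_fac _ j).symm)
      rw [this, PowerSeries.coeff_map]
      rfl
    have h3 := Xpow_mem_VV ht (show 0 < l.length + 1 by omega) p.1 h2
    have e : a + l.sum = l.sum + p.2 + p.1 := by omega
    rw [e]
    exact h3

lemma mem_VV_iff {n A : ℕ} {f : MvPolynomial ℕ k} :
    f ∈ VV t n A ↔ ∃ r : List ℕ → k, f = ∑ b ∈ S n A, r b • G t b := by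
  constructor
  · intro hf
    rw [VV] at hf
    rw [Submodule.mem_span_image_finset_iff_exists_fun'] at hf
    obtain ⟨c, hc⟩ := hf
    exact ⟨c, hc.symm⟩
  · rintro ⟨r, rfl⟩
    apply Submodule.sum_mem
    intro b hb
    rw [mem_S] at hb
    exact Submodule.smul_mem _ _ (G_mem_VV hb.1 hb.2)

end Pool.Agent.TH421.Cat
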