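import Pool.Agent.TH421.Cat.Lists

/-! Transport to words as functions. -/

set_option autoImplicit false

namespace Pool.Agent.TH421.Cat

open MvPolynomial

/-- words -/
def WF (m n : ℕ) : Set (Fin n → ℤ) :=
  {γ | (∀ i : Fin n, (i : ℕ) = 0 → γ i = 0) ∧ (∀ i : Fin n, 0 ≤ γ i) ∧
    ∀ i j : Fin n, (j : ℕ) = (i : ℕ) + 1 → γ j ≤ γ i + m}

/-- words whose entry number one vanishes -/
def TF (m n : ℕ) : Set (Fin n → ℤ) :=
  {γ | γ ∈ WF m n ∧ ∀ i : Fin n, (i : ℕ) = 1 → γ i = 0}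

/-- area -/
def areaF {n : ℕ} (γ : Fin n → ℤ) : ℤ := ∑ i, γ i

/-- dinv -/
def dinvF (m : ℕ) {n : ℕ} (γ : Fin n → ℤ) : ℤ :=
  ∑ i, ∑ j, if i < j then sc m (γ i - γ j) else 0

/-- generating polynomial -/
noncomputable def genF (m : ℕ) {n : ℕ} (s : Set (Fin n → ℤ)) (x y : MvPolynomial (Fin 2) ℤ) :
    MvPolynomial (Fin 2) ℤ :=
  ∑ᶠ w ∈ s, x ^ (areaF w).toNat * y ^ (dinvF m w).toNat

/-- the word of a list -/
def ef (n : ℕ) (b : List ℕ) : Fin n → ℤ := fun i => ((b ++ [0]).getD (Fin.rev i : ℕ) 0 : ℕ)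

lemma sum_getD (c : List ℕ) : ∑ i : Fin c.length, ((c.getD (i : ℕ) 0 : ℕ) : ℤ) = c.sum := by
  induction c with
  | nil => simp
  | cons y w ih =>
    have h : ∑ i : Fin (w.length + 1), (((y :: w).getD (i : ℕ) 0 : ℕ) : ℤ) =
        ((y :: w).sum : ℕ) := by
      rw [Fin.sum_univ_succ]
      simp only [Fin.val_zero, List.getD_cons_zero, Fin.val_succ, List.getD_cons_succ]
      rw [ih]
      simp
    exact h

lemma scsum_getD (m y : ℕ) (c : List ℕ) :
    ∑ i : Fin c.length, sc m (((c.getD (i : ℕ) 0 : ℕ) : ℤ) - y) = scsum m y c := by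
  induction c with
  | nil => simp [scsum]
  | cons x w ih =>
    have h : ∑ i : Fin (w.length + 1), sc m ((((x :: w).getD (i : ℕ) 0 : ℕ) : ℤ) - y) =
        scsum m y (x :: w) := by
      rw [Fin.sum_univ_succ]
      simp only [Fin.val_zero, List.getD_cons_zero, Fin.val_succ, List.getD_cons_succ]
      rw [ih, scsum]
    exact h

lemma Dr_getD (m : ℕ) (c : List ℕ) :
    ∑ i : Fin c.length, ∑ j : Fin c.length, (if j < i then
      sc m (((c.getD (i : ℕ) 0 : ℕ) : ℤ) - ((c.getD (j : ℕ) 0 : ℕ) : ℤ)) else 0) = Dr m c := by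
  induction c with
  | nil => simp [Dr]
  | cons y w ih =>
    have h : ∑ i : Fin (w.length + 1), ∑ j : Fin (w.length + 1), (if j < i then
        sc m ((((y :: w).getD (i : ℕ) 0 : ℕ) : ℤ) - (((y :: w).getD (j : ℕ) 0 : ℕ) : ℤ)) else 0) =
        Dr m (y :: w) := by
      rw [Fin.sum_univ_succ]
      simp only [Fin.sum_univ_succ, Fin.val_zero, List.getD_cons_zero, Fin.val_succ,
        List.getD_cons_succ, Fin.succ_lt_succ_iff, Fin.succ_pos, if_true, if_false,
        Fin.not_lt_zero, Finset.sum_const_zero, zero_add, Finset.sum_add_distrib]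
      rw [ih, scsum_getD, Dr]
    exact h

lemma areaF_ef {n : ℕ} (b : List ℕ) (hb : b.length + 1 = n) : areaF (ef n b) = b.sum := by
  have h := sum_getD (b ++ [0])
  subst hb
  rw [areaF, ← Equiv.sum_comp Fin.revPerm]
  simp only [Fin.revPerm_apply, ef, Fin.rev_rev]
  have e : (b ++ [0]).length = b.length + 1 := by simp
  have h3 : ∀ (N : ℕ) (hN : (b ++ [0]).length = N),
      ∑ i : Fin N, (((b ++ [0]).getD (i : ℕ) 0 : ℕ) : ℤ) = (b ++ [0]).sum := by
    rintro N rfl
    exact h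
  rw [h3 _ e]
  simp

lemma dinvF_ef {n : ℕ} (m : ℕ) (b : List ℕ) (hb : b.length + 1 = n) :
    dinvF m (ef n b) = Dr m (b ++ [0]) := by
  have h := Dr_getD m (b ++ [0])
  subst hb
  have e : (b ++ [0]).length = b.length + 1 := by simp
  have h3 : ∀ (N : ℕ) (hN : (b ++ [0]).length = N),
      ∑ i : Fin N, ∑ j : Fin N, (if j < i then
      sc m ((((b ++ [0]).getD (i : ℕ) 0 : ℕ) : ℤ) - (((b ++ [0]).getD (j : ℕ) 0 : ℕ) : ℤ)) else 0)
      = Dr m (b ++ [0]) := by
    rintro N rfl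
    exact h
  rw [← h3 _ e, dinvF]
  rw [← Equiv.sum_comp Fin.revPerm]
  apply Finset.sum_congr rfl
  intro i _
  rw [← Equiv.sum_comp Fin.revPerm]
  apply Finset.sum_congr rfl
  intro j _
  simp only [Fin.revPerm_apply, ef, Fin.rev_rev, Fin.rev_lt_rev]

lemma Val_getD {m p : ℕ} {b : List ℕ} : Val m p b ↔ p ≤ (b ++ [0]).getD 0 0 + m ∧
    ∀ k < b.length, (b ++ [0]).getD k 0 ≤ (b ++ [0]).getD (k + 1) 0 + m := by
  induction b generalizing p with
  | nil => simp [Val_nil]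
  | cons x b ih =>
    rw [Val_cons, ih]
    simp only [List.cons_append, List.getD_cons_zero, List.getD_cons_succ, List.length_cons]
    constructor
    · rintro ⟨h1, h2, h3⟩
      refine ⟨h1, ?_⟩
      intro k hk
      rcases k with _ | k
      · simpa using h2
      · simpa using h3 k (by omega)
    · rintro ⟨h1, h2⟩
      refine ⟨h1, ?_, ?_⟩
      · simpa using h2 0 (by omega)
      · intro k hk
        simpa using h2 (k + 1) (by omega)

lemma getD_last (b : List ℕ) : (b ++ [0]).getD b.length 0 = 0 := by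
  simp

lemma ef_mem {m l : ℕ} {b : List ℕ} (hb : b ∈ WL m l) : ef (l + 1) b ∈ WF m (l + 1) := by
  rw [mem_WL] at hb
  obtain ⟨h1, h2⟩ := hb
  rw [Val_getD] at h2
  refine ⟨?_, ?_, ?_⟩
  · intro i hi
    simp only [ef, Fin.val_rev, hi]
    rw [zero_add, Nat.add_sub_cancel, ← h1, getD_last]
    rfl
  · intro i
    exact Int.natCast_nonneg _
  · intro i j hij
    have hj := j.2
    have h3 := h2.2 (l - (j : ℕ)) (by omega)
    simp only [ef, Fin.val_rev]
    have e1 : l + 1 - ((j : ℕ) + 1) = l - j := by omega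
    have e2 : l + 1 - ((i : ℕ) + 1) = l - j + 1 := by omega
    rw [e1, e2]
    exact_mod_cast h3

lemma ef_inj {l : ℕ} {b b' : List ℕ} (h1 : b.length = l) (h2 : b'.length = l)
    (h : ef (l + 1) b = ef (l + 1) b') : b = b' := by
  apply List.ext_getElem (by omega)
  intro i hi hi'
  have h3 := congrFun h (Fin.rev ⟨i, by omega⟩)
  simp only [ef, Fin.rev_rev] at h3
  have h4 : (b ++ [0]).getD i 0 = (b' ++ [0]).getD i 0 := by exact_mod_cast h3
  rw [List.getD_append _ _ _ _ hi, List.getD_append _ _ _ _ hi',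
    List.getD_eq_getElem _ _ hi, List.getD_eq_getElem _ _ hi'] at h4
  exact h4

lemma ef_surj {m l : ℕ} {γ : Fin (l + 1) → ℤ} (h : γ ∈ WF m (l + 1)) :
    ∃ b ∈ WL m l, ef (l + 1) b = γ := by
  obtain ⟨h0, h1, h2⟩ := h
  let b : List ℕ := List.ofFn (fun i : Fin l => (γ (Fin.rev i.castSucc)).toNat)
  have hlen : b.length = l := by simp [b]
  have hget : ∀ i : Fin (l + 1), ((b ++ [0]).getD (i : ℕ) 0 : ℤ) = γ (Fin.rev i) := by
    intro i
    by_cases hi : (i : ℕ) < l
    · rw [List.getD_append _ _ _ _ (by rw [hlen]; exact hi),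
        List.getD_eq_getElem _ _ (by rw [hlen]; exact hi)]
      simp only [b, List.getElem_ofFn]
      rw [Int.toNat_of_nonneg (h1 _)]
      rfl
    · have hi2 : (i : ℕ) = l := by omega
      have e : (b ++ [0]).getD (i : ℕ) 0 = 0 := by
        rw [hi2, ← hlen]
        exact getD_last b
      rw [e]
      symm
      apply h0
      rw [Fin.val_rev, hi2]
      omega
  have hef : ef (l + 1) b = γ := by
    funext i
    rw [ef, hget, Fin.rev_rev]
  refine ⟨b, ?_, hef⟩
  rw [mem_WL]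
  refine ⟨hlen, ?_⟩
  rw [Val_getD]
  refine ⟨Nat.zero_le _, ?_⟩
  intro k hk
  rw [hlen] at hk
  have h3 := h2 (Fin.rev ⟨k + 1, by omega⟩) (Fin.rev ⟨k, by omega⟩) (by
    simp only [Fin.val_rev]; omega)
  rw [← hget, ← hget] at h3
  exact_mod_cast h3

lemma ef_TF {m l : ℕ} {b : List ℕ} (hb : b ∈ WL m (l + 1)) :
    ef (l + 2) b ∈ TF m (l + 2) ↔ b ∈ TL m (l + 1) := by
  have hlen := (mem_WL.1 hb).1
  rw [TL, Finset.mem_filter, TF, Set.mem_ofPred_eq]
  have h1 : (∀ i : Fin (l + 2), (i : ℕ) = 1 → ef (l + 2) b i = 0) ↔ b.getLast? = some 0 := by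
    have hne : b ≠ [] := by rintro rfl; simp at hlen
    have h3 : b.getD l 0 = b.getLast hne := by
      rw [List.getD_eq_getElem _ _ (by omega), List.getLast_eq_getElem]
      congr 1
      omega
    have h4 : ef (l + 2) b ⟨1, by omega⟩ = (b.getLast hne : ℤ) := by
      simp only [ef, Fin.val_rev]
      have e : l + 2 - (1 + 1) = l := by omega
      rw [e, List.getD_append _ _ _ _ (by omega), h3]
    rw [List.getLast?_eq_some_getLast hne]
    simp only [Option.some.injEq]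
    constructor
    · intro h
      have := h ⟨1, by omega⟩ rfl
      rw [h4] at this
      exact_mod_cast this
    · intro h i hi
      have e : i = ⟨1, by omega⟩ := Fin.ext hi
      rw [e, h4, h]
      rfl
  rw [h1]
  constructor
  · rintro ⟨_, h⟩; exact ⟨hb, h⟩
  · rintro ⟨_, h⟩; exact ⟨ef_mem hb, h⟩

theorem main (m n : ℕ) (hn : 2 ≤ n) :
    (WF m n).Finite ∧ (∀ w ∈ WF m n, 0 ≤ areaF w ∧ 0 ≤ dinvF m w) ∧
    ∃ (I : Set (Fin n → ℤ)) (f : (Fin n → ℤ) → (Fin n → ℤ)),
      I ⊆ WF m n ∧ Set.BijOn f (WF m n \ TF m n) (WF m n \ I) ∧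
      (∀ w ∈ WF m n \ TF m n, areaF (f w) = areaF w - 1 ∧ dinvF m (f w) = dinvF m w + 1) ∧
      genF m (TF m n) (X 0) (X 1) = genF m I (X 1) (X 0) := by
  classical
  obtain ⟨l, rfl⟩ : ∃ l, n = l + 2 := ⟨n - 2, by omega⟩
  let WW : Finset (Fin (l + 2) → ℤ) := (WL m (l + 1)).image (ef (l + 2))
  let TT : Finset (Fin (l + 2) → ℤ) := (TL m (l + 1)).image (ef (l + 2))
  have hWW : (WW : Set (Fin (l + 2) → ℤ)) = WF m (l + 2) := by
    ext γ
    rw [Finset.mem_coe, Finset.mem_image]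
    constructor
    · rintro ⟨b, hb, rfl⟩; exact ef_mem hb
    · intro h; exact ef_surj h
  have hTT : (TT : Set (Fin (l + 2) → ℤ)) = TF m (l + 2) := by
    ext γ
    rw [Finset.mem_coe, Finset.mem_image]
    constructor
    · rintro ⟨b, hb, rfl⟩
      exact (ef_TF (Finset.mem_filter.1 hb).1).2 hb
    · intro h
      obtain ⟨b, hb, rfl⟩ := ef_surj h.1
      exact ⟨b, (ef_TF hb).1 h, rfl⟩
  have hsub : TT ⊆ WW := Finset.image_subset_image (Finset.filter_subset _ _)
  have hnn : ∀ w ∈ WF m (l + 2), 0 ≤ areaF w ∧ 0 ≤ dinvF m w := by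
    intro w hw
    obtain ⟨b, hb, rfl⟩ := ef_surj hw
    have hlen := (mem_WL.1 hb).1
    rw [areaF_ef b (by omega), dinvF_ef m b (by omega)]
    exact ⟨Int.natCast_nonneg _, Dr_nonneg _ _⟩
  have hinj : Set.InjOn (ef (l + 2)) (WL m (l + 1)) := by
    intro b hb b' hb' h
    exact ef_inj (mem_WL.1 (Finset.mem_coe.1 hb)).1 (mem_WL.1 (Finset.mem_coe.1 hb')).1 h
  have hinj2 : Set.InjOn (ef (l + 2)) (TL m (l + 1)) :=
    hinj.mono (by exact_mod_cast Finset.filter_subset _ _)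
  let a : (Fin (l + 2) → ℤ) → ℕ := fun w => (areaF w).toNat
  let d : (Fin (l + 2) → ℤ) → ℕ := fun w => (dinvF m w).toNat
  have had : ∀ b ∈ WL m (l + 1), a (ef (l + 2) b) = b.sum ∧ d (ef (l + 2) b) = dn m b := by
    intro b hb
    have hlen := (mem_WL.1 hb).1
    simp only [a, d]
    rw [areaF_ef b (by omega), dinvF_ef m b (by omega)]
    exact ⟨Int.toNat_natCast _, rfl⟩
  have hPW : ∀ x y, PS WW a d x y = PS (WL m (l + 1)) List.sum (dn m) x y := by
    intro x y
    rw [PS, PS, Finset.sum_image hinj]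
    apply Finset.sum_congr rfl
    intro b hb
    rw [(had b hb).1, (had b hb).2]
  have hPT : ∀ x y, PS TT a d x y = PS (TL m (l + 1)) List.sum (dn m) x y := by
    intro x y
    rw [PS, PS, Finset.sum_image hinj2]
    apply Finset.sum_congr rfl
    intro b hb
    rw [(had b (Finset.mem_filter.1 hb).1).1, (had b (Finset.mem_filter.1 hb).1).2]
  have hid := list_identity m l
  rw [← hPW, ← hPT, ← hPT] at hid
  obtain ⟨I, f, hI, hbij, hf, hgen⟩ := exists_of_identity WW TT hsub a d hid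
  have hgenF : ∀ (s : Finset (Fin (l + 2) → ℤ)) (x y : MvPolynomial (Fin 2) ℤ),
      genF m (s : Set (Fin (l + 2) → ℤ)) x y = PS s a d x y := by
    intro s x y
    rw [genF, PS]
    exact finsum_mem_coe_finset _ _
  refine ⟨?_, hnn, (I : Set (Fin (l + 2) → ℤ)), f, ?_, ?_, ?_, ?_⟩
  · rw [← hWW]; exact Finset.finite_toSet _
  · rw [← hWW]; exact_mod_cast hI
  · rw [← hWW, ← hTT]
    rw [Finset.coe_sdiff, Finset.coe_sdiff] at hbij
    exact hbij
  · intro w hw
    rw [← hWW, ← hTT, ← Finset.coe_sdiff, Finset.mem_coe] at hw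
    have h1 := hf w hw
    have h2 : f w ∈ WW := by
      have := hbij.mapsTo (Finset.mem_coe.2 hw)
      exact (Finset.mem_sdiff.1 (Finset.mem_coe.1 this)).1
    have h3 := hnn w (by rw [← hWW]; exact_mod_cast (Finset.mem_sdiff.1 hw).1)
    have h4 := hnn (f w) (by rw [← hWW]; exact_mod_cast h2)
    simp only [a, d] at h1
    omega
  · rw [← hTT, hgenF, hgenF]
    exact hgen

end Pool.Agent.TH421.Cat
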