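import Pool.Agent.TH421.Cat.TraceWT

/-! The functional `F` and the summation over all compositions. -/

set_option autoImplicit false

namespace Pool.Agent.TH421.Cat

open MvPolynomial Filter

variable {k : Type*} [Field k]

/-- one step of the recursion -/
noncomputable def St (e : ℕ) (κ : ℕ → MvPolynomial ℕ k) :
    MvPolynomial ℕ k →ₗ[k] MvPolynomial ℕ k where
  toFun g := (Xi g).sum fun c gc => if e ≤ c then κ (c - e) * gc else 0
  map_add' f g := by
    rw [map_add, Polynomial.sum_add_index]
    · intro a; simp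
    · intro a x y
      split_ifs
      · rw [mul_add]
      · rw [add_zero]
  map_smul' a g := by
    rw [map_smul, Polynomial.sum_smul_index', RingHom.id_apply, Polynomial.smul_sum]
    · congr 1
      funext c gc
      rw [smul_ite, smul_zero, mul_smul_comm]
    · intro a; simp

lemma St_mono (e : ℕ) (κ : ℕ → MvPolynomial ℕ k) (c : ℕ) (g : MvPolynomial ℕ k) :
    St e κ (X 0 ^ c * sh g) = if e ≤ c then κ (c - e) * g else 0 := by
  show ((Xi (X 0 ^ c * sh g)).sum fun c gc => if e ≤ c then κ (c - e) * gc else 0) = _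
  rw [Xi_mono, Polynomial.sum_monomial_index]
  simp

lemma pair_St (t : k) (l e : ℕ) (f g h : MvPolynomial ℕ k) :
    pair t (l + 1) (X 0 ^ e * sh f) (g * sh h) = pair t l f (St e (rc (dl t) l) g * h) := by
  induction g using P_induction with
  | add g g' h1 h2 => rw [add_mul, map_add, map_add, add_mul, map_add, h1, h2]
  | mono c g =>
    rw [mul_assoc, ← map_mul, pair_mono, St_mono]
    split_ifs
    · rw [mul_assoc]
    · rw [zero_mul, map_zero]

lemma St_eventually (m : ℕ) (ρ : ℕ → MvPolynomial ℕ k) (g : MvPolynomial ℕ k) :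
    ∀ᶠ a in atTop, St (m + a) ρ g = 0 := by
  induction g using P_induction with
  | add g g' h1 h2 =>
    filter_upwards [h1, h2] with a h3 h4
    rw [map_add, h3, h4, add_zero]
  | mono c g =>
    filter_upwards [eventually_gt_atTop c] with a ha
    rw [St_mono, if_neg (by omega)]

/-- a sum over a long range can be shortened -/
lemma eventually_sum {M : Type*} [AddCommMonoid M] (F : ℕ → M)
    (h : ∀ᶠ a in atTop, F a = 0) : ∀ᶠ N in atTop, ∀ N', N ≤ N' →
      ∑ a ∈ Finset.range N', F a = ∑ a ∈ Finset.range N, F a := by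
  rw [eventually_atTop] at h ⊢
  obtain ⟨N0, h⟩ := h
  refine ⟨N0, fun N hN N' hN' => ?_⟩
  symm
  apply Finset.sum_subset
  · intro x hx
    simp only [Finset.mem_range] at hx ⊢; omega
  · intro x _ hx
    simp only [Finset.mem_range] at hx
    exact h x (by omega)

lemma St_sum (t : k) (m l : ℕ) (w : ℕ → MvPolynomial ℕ k) (g : MvPolynomial ℕ k) :
    ∀ᶠ N in atTop, ∑ a ∈ Finset.range N, St (m + a) (rc (dl t) l) g * w a =
      St m (fun e => PowerSeries.coeff e (Phi (dl t) l * PowerSeries.mk w)) g := by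
  induction g using P_induction with
  | add g g' h1 h2 =>
    filter_upwards [h1, h2] with a h3 h4
    rw [map_add, ← h3, ← h4, ← Finset.sum_add_distrib]
    apply Finset.sum_congr rfl
    intro x _
    rw [map_add, add_mul]
  | mono c g =>
    filter_upwards [eventually_gt_atTop c] with N hN
    simp only [St_mono]
    by_cases hm : m ≤ c
    · rw [if_pos hm, PowerSeries.coeff_mul, Finset.sum_mul]
      have e1 : ∑ x ∈ Finset.range N, (if m + x ≤ c then rc (dl t) l (c - (m + x)) * g else 0) * w x
          = ∑ x ∈ Finset.range (c - m + 1), (rc (dl t) l (c - m - x)) * w x * g := by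
        symm
        apply Finset.sum_subset_zero_on_sdiff
        · intro x hx
          simp only [Finset.mem_range] at hx ⊢; omega
        · intro x hx
          simp only [Finset.mem_sdiff, Finset.mem_range] at hx
          rw [if_neg (by omega), zero_mul]
        · intro x hx
          simp only [Finset.mem_range] at hx
          have : c - (m + x) = c - m - x := by omega
          rw [if_pos (by omega), this]
          ring
      rw [e1, ← Finset.Nat.sum_antidiagonal_swap]
      have e2 := Finset.Nat.sum_antidiagonal_eq_sum_range_succ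
        (fun i j => rc (dl t) l j * w i * g) (c - m)
      rw [← e2]
      apply Finset.sum_congr rfl
      intro x _
      rw [PowerSeries.coeff_mk, rc]
      rfl
    · rw [if_neg hm]
      apply Finset.sum_eq_zero
      intro x _
      rw [if_neg (by omega), zero_mul]

/-- the truncated generating sum -/
noncomputable def GS (q t : k) (m n B : ℕ) (w : List ℕ → MvPolynomial ℕ k)
    (g : MvPolynomial ℕ k) : k :=
  ∑ A ∈ Finset.range (B + 1), q ^ A *
    ∑ a ∈ S n A, pair t (n + 1) (prodX (n + 1) ^ m * mon a) (g * sh (w a))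

lemma pair_cons (t : k) (n m a : ℕ) (a' : List ℕ) (g w u : MvPolynomial ℕ k) :
    pair t (n + 2) (prodX (n + 2) ^ m * mon (a :: a')) (g * sh (w * sh u)) =
      pair t (n + 1) (prodX (n + 1) ^ m * mon a')
        (St (m + a) (rc (dl t) (n + 1)) g * w * sh u) := by
  have e : (prodX (n + 2) ^ m * mon (a :: a') : MvPolynomial ℕ k) =
      X 0 ^ (m + a) * sh (prodX (n + 1) ^ m * mon a') := by
    rw [prodX_succ', mon_cons, map_mul, map_pow, mul_pow, pow_add]; ring
  rw [e, pair_St, mul_assoc]

lemma sum_diag (φ : ℕ → ℕ → k) (B : ℕ) :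
    ∑ A ∈ Finset.range (B + 1), ∑ p ∈ Finset.HasAntidiagonal.antidiagonal A, φ p.1 p.2 =
      ∑ a ∈ Finset.range (B + 1), ∑ j ∈ Finset.range (B - a + 1), φ a j := by
  have e : ∀ A, ∑ p ∈ Finset.HasAntidiagonal.antidiagonal A, φ p.1 p.2 =
      ∑ i ∈ Finset.range (A + 1), φ i (A - i) := fun A =>
    Finset.Nat.sum_antidiagonal_eq_sum_range_succ φ A
  rw [Finset.sum_congr rfl (fun A _ => e A), Finset.sum_range_diag_flip]
  apply Finset.sum_congr rfl
  intro a ha
  rw [Finset.mem_range] at ha
  have : B + 1 - a = B - a + 1 := by omega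
  rw [this]

lemma GS_cons (q t : k) (m n : ℕ) (w : ℕ → MvPolynomial ℕ k) (u : List ℕ → MvPolynomial ℕ k)
    (hu : ∀ a (a' : List ℕ), a'.length = n → u (a :: a') = w a * sh (vv t a'))
    (g : MvPolynomial ℕ k) (B : ℕ) :
    GS q t m (n + 1) B u g = ∑ a ∈ Finset.range (B + 1), q ^ a *
      GS q t m n (B - a) (vv t) (St (m + a) (rc (dl t) (n + 1)) g * w a) := by
  let φ : ℕ → ℕ → k := fun a j => q ^ a * (q ^ j *
    ∑ a' ∈ S n j, pair t (n + 1) (prodX (n + 1) ^ m * mon a')
      (St (m + a) (rc (dl t) (n + 1)) g * w a * sh (vv t a')))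
  have e1 : ∀ A, q ^ A * ∑ a ∈ S (n + 1) A, pair t (n + 1 + 1)
      (prodX (n + 1 + 1) ^ m * mon a) (g * sh (u a)) =
      ∑ p ∈ Finset.HasAntidiagonal.antidiagonal A, φ p.1 p.2 := by
    intro A
    rw [sum_S_cons, Finset.mul_sum]
    apply Finset.sum_congr rfl
    intro p hp
    rw [Finset.HasAntidiagonal.mem_antidiagonal] at hp
    have e3 : ∑ a' ∈ S n p.2, pair t (n + 1 + 1)
        (prodX (n + 1 + 1) ^ m * mon (p.1 :: a')) (g * sh (u (p.1 :: a'))) =
        ∑ a' ∈ S n p.2, pair t (n + 1) (prodX (n + 1) ^ m * mon a')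
          (St (m + p.1) (rc (dl t) (n + 1)) g * w p.1 * sh (vv t a')) := by
      apply Finset.sum_congr rfl
      intro a' ha'
      have h := pair_cons t n m p.1 a' g (w p.1) (vv t a')
      rw [← h, hu _ _ (mem_S.1 ha').1]
    rw [e3, ← hp, pow_add, mul_assoc]
  have e2 : GS q t m (n + 1) B u g = ∑ A ∈ Finset.range (B + 1),
      ∑ p ∈ Finset.HasAntidiagonal.antidiagonal A, φ p.1 p.2 :=
    Finset.sum_congr rfl (fun A _ => e1 A)
  rw [e2, sum_diag]
  apply Finset.sum_congr rfl
  intro a _
  rw [GS, Finset.mul_sum]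

/-- the step lemma -/
lemma step_lemma (q t : k) (m n : ℕ) (L : MvPolynomial ℕ k →ₗ[k] k)
    (hL : ∀ g, ∀ᶠ B in atTop, GS q t m n B (vv t) g = L g)
    (w : ℕ → MvPolynomial ℕ k) (u : List ℕ → MvPolynomial ℕ k)
    (hu : ∀ a (a' : List ℕ), a'.length = n → u (a :: a') = w a * sh (vv t a'))
    (g : MvPolynomial ℕ k) :
    ∀ᶠ B in atTop, GS q t m (n + 1) B u g =
      L (St m (fun e => PowerSeries.coeff e
        (Phi (dl t) (n + 1) * PowerSeries.mk (fun a => q ^ a • w a))) g) := by
  have h1 := GS_cons q t m n w u hu g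
  -- choose a bound
  have h2 := St_eventually m (rc (dl t) (n + 1)) g
  have h3 := St_sum t m (n + 1) (fun a => q ^ a • w a) g
  have h4 : ∀ᶠ N in atTop, (∀ a, N ≤ a → St (m + a) (rc (dl t) (n + 1)) g = 0) := by
    rw [eventually_atTop] at h2 ⊢
    obtain ⟨N, hN⟩ := h2
    exact ⟨N, fun N' hN' a ha => hN a (by omega)⟩
  obtain ⟨N, h5, h6⟩ := (h3.and h4).exists
  have h7 : ∀ᶠ B in atTop, ∀ a ∈ Finset.range N, GS q t m n (B - a) (vv t)
      (St (m + a) (rc (dl t) (n + 1)) g * w a) =
      L (St (m + a) (rc (dl t) (n + 1)) g * w a) := by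
    rw [Filter.eventually_all_finset]
    intro a _
    exact (tendsto_sub_atTop_nat a).eventually (hL _)
  filter_upwards [h7, eventually_ge_atTop N] with B h8 h9
  rw [h1, ← h5, map_sum]
  have e3 : ∑ a ∈ Finset.range (B + 1), q ^ a *
      GS q t m n (B - a) (vv t) (St (m + a) (rc (dl t) (n + 1)) g * w a) =
      ∑ a ∈ Finset.range N, q ^ a *
      GS q t m n (B - a) (vv t) (St (m + a) (rc (dl t) (n + 1)) g * w a) := by
    symm
    apply Finset.sum_subset
    · intro x hx
      simp only [Finset.mem_range] at hx ⊢; omega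
    · intro x _ hx
      simp only [Finset.mem_range] at hx
      rw [h6 x (by omega), GS]
      simp
  rw [e3]
  apply Finset.sum_congr rfl
  intro a ha
  rw [h8 a ha, mul_smul_comm, map_smul, smul_eq_mul]

end Pool.Agent.TH421.Cat
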