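import Pool.Agent.TH421.Cat.Ops

/-! Nonsymmetric Hall-Littlewood type polynomials `G μ`. -/

set_option autoImplicit false

namespace Pool.Agent.TH421.Cat

open MvPolynomial

variable {k : Type*} [Field k]

/-- `X 0 * X 1 * ... * X (n-1)` -/
noncomputable def prodX (n : ℕ) : MvPolynomial ℕ k := ∏ i ∈ Finset.range n, X i

lemma prodX_succ (n : ℕ) : prodX (k := k) (n + 1) = prodX n * X n := by
  rw [prodX, Finset.prod_range_succ, prodX]

lemma prodX_succ' (n : ℕ) : prodX (k := k) (n + 1) = X 0 * sh (prodX n) := by
  rw [prodX, Finset.prod_range_succ', mul_comm, prodX, map_prod]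
  simp

@[simp] lemma prodX_zero : prodX (k := k) 0 = 1 := by simp [prodX]

lemma sw_prodX {i n : ℕ} (h : i + 1 < n) : sw (k := k) i (prodX n) = prodX n := by
  rw [prodX, map_prod]
  apply Finset.prod_nbij' (fun j => Equiv.swap i (i + 1) j) (fun j => Equiv.swap i (i + 1) j)
  · intro j hj
    simp only [Finset.mem_range] at hj ⊢
    rw [Equiv.swap_apply_def]
    split_ifs <;> omega
  · intro j hj
    simp only [Finset.mem_range] at hj ⊢
    rw [Equiv.swap_apply_def]
    split_ifs <;> omega
  · intro j _; simp
  · intro j _; simp
  · intro j _; simp [sw]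

/-- set the variable `X n` to zero -/
noncomputable def ev (n : ℕ) : MvPolynomial ℕ k →ₐ[k] MvPolynomial ℕ k :=
  aeval (fun j => if j = n then 0 else X j)

@[simp] lemma ev_X_self (n : ℕ) : ev (k := k) n (X n) = 0 := by simp [ev]
lemma ev_X_of_ne {n j : ℕ} (h : j ≠ n) : ev (k := k) n (X j) = X j := by simp [ev, h]
@[simp] lemma ev_C (n : ℕ) (a : k) : ev n (C a) = C a := by
  rw [← algebraMap_eq, AlgHom.commutes]

/-- `X 0 ↦ 0`, `X (j+1) ↦ X j` for `j < p`, `X j ↦ X j` for `j > p` -/
noncomputable def cyc (p : ℕ) : MvPolynomial ℕ k →ₐ[k] MvPolynomial ℕ k :=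
  aeval (fun j => if j = 0 then 0 else if j ≤ p then X (j - 1) else X j)

/-- set the variables `X j`, `n ≤ j`, to zero -/
noncomputable def proj (n : ℕ) : MvPolynomial ℕ k →ₐ[k] MvPolynomial ℕ k :=
  aeval (fun j => if j < n then X j else 0)

lemma sw_aeval_comm {i : ℕ} {g : ℕ → MvPolynomial ℕ k}
    (h1 : sw i (g i) = g (i + 1)) (h2 : sw i (g (i + 1)) = g i)
    (h3 : ∀ j, j ≠ i → j ≠ i + 1 → sw i (g j) = g j) (f : MvPolynomial ℕ k) :
    sw i (aeval g f) = aeval g (sw i f) := by
  have : (sw (k := k) i).comp (aeval g) = (aeval g).comp (sw i) := by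
    apply MvPolynomial.algHom_ext
    intro j
    simp only [AlgHom.comp_apply, aeval_X]
    by_cases hj : j = i
    · subst hj; rw [sw_X_left, aeval_X, h1]
    · by_cases hj' : j = i + 1
      · subst hj'; rw [sw_X_right, aeval_X, h2]
      · rw [sw_X_of_ne hj hj', aeval_X, h3 j hj hj']
  exact DFunLike.congr_fun this f

variable (t : k)

lemma Tb_aeval_comm {i : ℕ} {g : ℕ → MvPolynomial ℕ k}
    (h1 : g i = X i) (h2 : g (i + 1) = X (i + 1))
    (h3 : ∀ j, j ≠ i → j ≠ i + 1 → sw i (g j) = g j) (f : MvPolynomial ℕ k) :
    Tb t i (aeval g f) = aeval g (Tb t i f) := by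
  apply Tb_eq
  have h := congrArg (aeval g) (Tb_spec t i f)
  simp only [map_mul, map_sub, map_add, aeval_X, h1, h2, map_one, algHom_C] at h
  rw [sw_aeval_comm (by rw [h1, h2, sw_X_left]) (by rw [h1, h2, sw_X_right]) h3]
  exact h

lemma Tb_ev {i n : ℕ} (h : i + 1 < n) (f : MvPolynomial ℕ k) :
    Tb t i (ev n f) = ev n (Tb t i f) := by
  apply Tb_aeval_comm
  · simp; omega
  · simp; omega
  · intro j h1 h2
    split_ifs
    · simp
    · rw [sw_X_of_ne h1 h2]

lemma Tb_proj {i n : ℕ} (h : i + 1 < n) (f : MvPolynomial ℕ k) :
    Tb t i (proj n f) = proj n (Tb t i f) := by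
  apply Tb_aeval_comm
  · simp; omega
  · simp; omega
  · intro j h1 h2
    split_ifs
    · rw [sw_X_of_ne h1 h2]
    · simp

lemma Tup_ev {p n : ℕ} (h : p < n) (f : MvPolynomial ℕ k) :
    Tup t p (ev n f) = ev n (Tup t p f) := by
  induction p with
  | zero => rfl
  | succ p ih => rw [Tup_succ, ih (by omega), Tb_ev t h, Tup_succ]

lemma Tup_proj {p n : ℕ} (h : p < n) (f : MvPolynomial ℕ k) :
    Tup t p (proj n f) = proj n (Tup t p f) := by
  induction p with
  | zero => rfl
  | succ p ih => rw [Tup_succ, ih (by omega), Tb_proj t h, Tup_succ]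

lemma ev_Tb (i : ℕ) (f : MvPolynomial ℕ k) : ev (i + 1) (Tb t i f) = ev (i + 1) (sw i f) := by
  have h := congrArg (ev (i + 1)) (Tb_spec t i f)
  simp only [map_mul, map_sub, map_add, ev_X_self, ev_X_of_ne (show i ≠ i + 1 by omega), map_one,
    ev_C, mul_zero, zero_mul, sub_zero, zero_add] at h
  exact mul_left_cancel₀ (X_ne_zero i) h

lemma ev_Tup (p : ℕ) (f : MvPolynomial ℕ k) : ev p (Tup t p f) = cyc p f := by
  induction p generalizing f with
  | zero =>
    rw [Tup_zero]
    simp only [ev, cyc]
    congr 1
    congr 1
    funext j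
    rcases j with _ | j <;> simp
  | succ p ih =>
    rw [Tup_succ, ev_Tb]
    have h1 : ∀ g : MvPolynomial ℕ k, ev (p + 1) (sw p g) =
        aeval (fun j => if j = p + 1 then X p else X j) (ev p g) := by
      intro g
      have : (ev (k := k) (p + 1)).comp (sw p) =
          (aeval (fun j => if j = p + 1 then (X p : MvPolynomial ℕ k) else X j)).comp (ev p) := by
        apply MvPolynomial.algHom_ext
        intro j
        simp only [AlgHom.comp_apply]
        by_cases hj : j = p
        · subst hj; simp
        · by_cases hj' : j = p + 1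
          · subst hj'; rw [sw_X_right, ev_X_of_ne (by omega), ev_X_of_ne (by omega), aeval_X]
            simp
          · rw [sw_X_of_ne hj hj', ev_X_of_ne hj', ev_X_of_ne hj, aeval_X, if_neg hj']
      exact DFunLike.congr_fun this g
    rw [h1, ih]
    have : (aeval (fun j => if j = p + 1 then (X p : MvPolynomial ℕ k) else X j)).comp
        (cyc (k := k) p) = cyc (p + 1) := by
      apply MvPolynomial.algHom_ext
      intro j
      simp only [AlgHom.comp_apply, cyc, aeval_X]
      split_ifs with h1 h2 h3 h4
      · simp
      · rw [aeval_X, if_neg (by omega)]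
      · omega
      · rw [aeval_X, if_pos (by omega)]
        congr 1
        omega
      · rw [aeval_X, if_neg (by omega)]
    exact DFunLike.congr_fun this f

lemma cyc_sh {p : ℕ} {f : MvPolynomial ℕ k} (h : proj p f = f) : cyc p (sh f) = f := by
  have : ((cyc (k := k) p).comp sh).comp (proj p) = proj p := by
    apply MvPolynomial.algHom_ext
    intro j
    simp only [AlgHom.comp_apply, proj, aeval_X]
    split_ifs with h1
    · simp [cyc]; omega
    · simp
  have h2 := DFunLike.congr_fun this f
  simp only [AlgHom.comp_apply] at h2
  rw [h] at h2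
  exact h2

lemma ev_sh (n : ℕ) (f : MvPolynomial ℕ k) : ev (n + 1) (sh f) = sh (ev n f) := by
  have : (ev (k := k) (n + 1)).comp sh = sh.comp (ev n) := by
    apply MvPolynomial.algHom_ext
    intro j
    simp only [AlgHom.comp_apply, sh_X, ev, aeval_X]
    by_cases h : j = n
    · simp [h]
    · simp [h]
  exact DFunLike.congr_fun this f

lemma proj_sh (n : ℕ) (f : MvPolynomial ℕ k) : proj (n + 1) (sh f) = sh (proj n f) := by
  have : (proj (k := k) (n + 1)).comp sh = sh.comp (proj n) := by
    apply MvPolynomial.algHom_ext
    intro j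
    simp only [AlgHom.comp_apply, sh_X, proj, aeval_X]
    by_cases h : j < n
    · simp [h]
    · simp [h]
  exact DFunLike.congr_fun this f

lemma proj_X_of_lt {n j : ℕ} (h : j < n) : proj (k := k) n (X j) = X j := by simp [proj, h]

lemma proj_prodX (n : ℕ) : proj (k := k) n (prodX n) = prodX n := by
  rw [prodX, map_prod]
  apply Finset.prod_congr rfl
  intro j hj
  exact proj_X_of_lt (Finset.mem_range.1 hj)

/-! the polynomials `G` -/

/-- subtract one from all entries -/
def predL (μ : List ℕ) : List ℕ := μ.map Nat.pred

/-- add one to all entries -/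
def succL (μ : List ℕ) : List ℕ := μ.map Nat.succ

lemma predL_succL (μ : List ℕ) : predL (succL μ) = μ := by
  induction μ with
  | nil => rfl
  | cons a μ ih => simp only [predL, succL, List.map_cons] at ih ⊢; rw [ih]; rfl

lemma succL_predL {μ : List ℕ} (h : 0 ∉ μ) : succL (predL μ) = μ := by
  induction μ with
  | nil => rfl
  | cons a μ ih =>
    simp only [List.mem_cons, not_or] at h
    simp only [predL, succL, List.map_cons] at ih ⊢
    rw [ih h.2]
    congr 1
    have := h.1
    simp only [Nat.pred_eq_sub_one, Nat.succ_eq_add_one]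
    omega

@[simp] lemma length_predL (μ : List ℕ) : (predL μ).length = μ.length := by simp [predL]
@[simp] lemma length_succL (μ : List ℕ) : (succL μ).length = μ.length := by simp [succL]

lemma sum_succL (μ : List ℕ) : (succL μ).sum = μ.sum + μ.length := by
  induction μ with
  | nil => rfl
  | cons a μ ih =>
    simp only [succL, List.map_cons, List.sum_cons, List.length_cons] at ih ⊢
    omega

lemma sum_predL {μ : List ℕ} (h : 0 ∉ μ) : (predL μ).sum + μ.length = μ.sum := by
  have := sum_succL (predL μ)
  rw [succL_predL h, length_predL] at this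
  omega

@[simp] lemma zero_notMem_succL (μ : List ℕ) : 0 ∉ succL μ := by simp [succL]

/-- `G μ` -/
noncomputable def G (μ : List ℕ) : MvPolynomial ℕ k :=
  if h : 0 ∈ μ then Tup t (μ.idxOf 0) (sh (G (μ.erase 0)))
  else if h' : μ = [] then 1
  else prodX μ.length * G (predL μ)
termination_by μ.length + μ.sum
decreasing_by
  · have h1 := List.length_erase_of_mem h
    have h2 : (μ.erase 0).sum ≤ μ.sum := by
      have := List.sum_erase h
      omega
    have h3 : 0 < μ.length := List.length_pos_of_mem h
    omega
  · have h2 := sum_predL h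
    have h3 : 0 < μ.length := List.length_pos_iff.2 h'
    rw [length_predL]
    omega

@[simp] lemma G_nil : G t [] = 1 := by
  rw [G]; simp

lemma G_split (α β : List ℕ) (h : 0 ∉ α) :
    G t (α ++ 0 :: β) = Tup t α.length (sh (G t (α ++ β))) := by
  rw [G, dif_pos (by simp), List.idxOf_append_of_notMem h, List.erase_append_right _ h]
  simp

lemma G_zero_cons (β : List ℕ) : G t (0 :: β) = sh (G t β) := by
  have := G_split t [] β (by simp)
  simpa using this

lemma G_succL (μ : List ℕ) : G t (succL μ) = prodX μ.length * G t μ := by
  by_cases h : μ = []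
  · subst h; simp [succL]
  · rw [G, dif_neg (by simp), dif_neg (by simpa [succL] using h), predL_succL, length_succL]

lemma exists_succL {μ : List ℕ} (h : 0 ∉ μ) : ∃ μ' : List ℕ, μ = succL μ' :=
  ⟨predL μ, (succL_predL h).symm⟩

/-- split at the first zero -/
lemma exists_split {μ : List ℕ} (h : 0 ∈ μ) : ∃ α β : List ℕ, 0 ∉ α ∧ μ = α ++ 0 :: β := by
  induction μ with
  | nil => simp at h
  | cons a μ ih =>
    by_cases ha : a = 0
    · subst ha; exact ⟨[], μ, by simp, rfl⟩
    · have : 0 ∈ μ := by
        rcases List.mem_cons.1 h with h | h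
        · exact absurd h.symm ha
        · exact h
      obtain ⟨α, β, h1, h2⟩ := ih this
      refine ⟨a :: α, β, ?_, by rw [h2]; rfl⟩
      simp only [List.mem_cons, not_or]
      exact ⟨fun h => ha h.symm, h1⟩

lemma G_proj (μ : List ℕ) : proj μ.length (G t μ) = G t μ := by
  induction h : μ.length + μ.sum using Nat.strong_induction_on generalizing μ with
  | _ n ih =>
    by_cases h0 : 0 ∈ μ
    · obtain ⟨α, β, hα, rfl⟩ := exists_split h0
      rw [G_split t α β hα]
      have e : (α ++ 0 :: β).length = (α ++ β).length + 1 := by
        simp only [List.length_append, List.length_cons]; omega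
      rw [e, ← Tup_proj t (by simp only [List.length_append]; omega), proj_sh,
        ih _ (by
          subst h
          simp only [List.length_append, List.length_cons, List.sum_append, List.sum_cons]
          omega) (α ++ β) rfl]
    · obtain ⟨μ', rfl⟩ := exists_succL h0
      by_cases h1 : μ' = []
      · subst h1; simp [succL]
      · have : 0 < μ'.length := List.length_pos_iff.2 h1
        rw [G_succL, map_mul, length_succL, proj_prodX,
          ih _ (by subst h; rw [sum_succL, length_succL]; omega) μ' rfl]

lemma succL_append (a b : List ℕ) : succL (a ++ b) = succL a ++ succL b := by simp [succL]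
lemma succL_cons (a : ℕ) (b : List ℕ) : succL (a :: b) = (a + 1) :: succL b := by simp [succL]

/-- the basic relation -/
lemma Tb_G (pre post : List ℕ) (x y : ℕ) (hxy : x ≤ y) :
    Tb t pre.length (G t (pre ++ x :: y :: post)) = G t (pre ++ y :: x :: post) := by
  induction h : (pre ++ x :: y :: post).length + (pre ++ x :: y :: post).sum
    using Nat.strong_induction_on generalizing pre post x y with
  | _ n ih =>
    by_cases hp : 0 ∈ pre
    · obtain ⟨α, β, hα, rfl⟩ := exists_split hp
      have e1 : α ++ 0 :: β ++ x :: y :: post = α ++ 0 :: (β ++ x :: y :: post) := by simp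
      have e2 : α ++ 0 :: β ++ y :: x :: post = α ++ 0 :: (β ++ y :: x :: post) := by simp
      have e3 : (α ++ 0 :: β).length = (α ++ β).length + 1 := by
        simp only [List.length_append, List.length_cons]; omega
      rw [e1, e2, G_split t _ _ hα, G_split t _ _ hα, e3, Tup_high t (by simp), Tb_sh]
      have := ih _ (by
        subst h
        simp only [List.length_append, List.length_cons, List.sum_append, List.sum_cons]
        omega) (α ++ β) post x y hxy rfl
      rw [List.append_assoc, List.append_assoc] at this
      rw [this]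
    · by_cases hx : x = 0
      · subst hx
        by_cases hy : y = 0
        · subst hy
          have e1 : G t (pre ++ 0 :: 0 :: post) =
              Tup t pre.length (Tup t (pre.length + 1) (sh (sh (G t (pre ++ post))))) := by
            rw [G_split t _ _ hp, G_split t _ _ hp, sh_Tup, Tup_succ',
              Tb_symm t (sw_zero_sh_sh _)]
          rw [e1]
          generalize hu : (sh (sh (G t (pre ++ post)))) = u
          have e2 : Tb t 0 u = u := by rw [← hu]; exact Tb_symm t (sw_zero_sh_sh _)
          calc Tb t pre.length (Tup t pre.length (Tup t (pre.length + 1) u))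
              = Tup t (pre.length + 1) (Tup t (pre.length + 1) u) := rfl
            _ = Tup t (pre.length + 1) (TupS t pre.length u) := by
                rw [Tup_succ' t pre.length u, e2]
            _ = Tup t pre.length (Tup t (pre.length + 1) u) := (Tup_Tup t le_rfl u).symm
        · have hp' : 0 ∉ pre ++ [y] := by
            simp only [List.mem_append, List.mem_singleton, not_or]
            exact ⟨hp, fun h => hy h.symm⟩
          have e1 : G t (pre ++ y :: 0 :: post) = G t ((pre ++ [y]) ++ 0 :: post) := by simp
          rw [G_split t _ _ hp, e1, G_split t _ _ hp']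
          simp only [List.append_assoc, List.cons_append, List.nil_append, List.length_append,
            List.length_cons, List.length_nil, zero_add]
          rfl
      · have hy : y ≠ 0 := by omega
        by_cases hq : 0 ∈ post
        · obtain ⟨α, β, hα, rfl⟩ := exists_split hq
          have e1 : pre ++ x :: y :: (α ++ 0 :: β) = (pre ++ x :: y :: α) ++ 0 :: β := by simp
          have e2 : pre ++ y :: x :: (α ++ 0 :: β) = (pre ++ y :: x :: α) ++ 0 :: β := by simp
          have h1 : 0 ∉ pre ++ x :: y :: α := by
            simp only [List.mem_append, List.mem_cons, not_or]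
            exact ⟨hp, fun h => hx h.symm, fun h => hy h.symm, hα⟩
          have h2 : 0 ∉ pre ++ y :: x :: α := by
            simp only [List.mem_append, List.mem_cons, not_or]
            exact ⟨hp, fun h => hy h.symm, fun h => hx h.symm, hα⟩
          have e3 : (pre ++ x :: y :: α).length = (pre ++ y :: x :: α).length := by simp
          rw [e1, e2, G_split t _ _ h1, G_split t _ _ h2, ← e3, Tup_low t (by
            simp only [List.length_append, List.length_cons]; omega), Tb_sh]
          have := ih _ (by
            subst h
            simp only [List.length_append, List.length_cons, List.sum_append, List.sum_cons]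
            omega) pre (α ++ β) x y hxy rfl
          have e4 : pre ++ x :: y :: α ++ β = pre ++ x :: y :: (α ++ β) := by simp
          have e5 : pre ++ y :: x :: α ++ β = pre ++ y :: x :: (α ++ β) := by simp
          rw [e4, this, e5]
        · obtain ⟨pre', rfl⟩ := exists_succL hp
          obtain ⟨post', rfl⟩ := exists_succL hq
          obtain ⟨x', rfl⟩ : ∃ x', x = x' + 1 := ⟨x - 1, by omega⟩
          obtain ⟨y', rfl⟩ : ∃ y', y = y' + 1 := ⟨y - 1, by omega⟩
          have e1 : succL pre' ++ (x' + 1) :: (y' + 1) :: succL post' =
            succL (pre' ++ x' :: y' :: post') := by simp [succL]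
          have e2 : succL pre' ++ (y' + 1) :: (x' + 1) :: succL post' =
            succL (pre' ++ y' :: x' :: post') := by simp [succL]
          rw [e1, e2, G_succL, G_succL, length_succL,
            Tb_mul_symm t (sw_prodX (by simp)), ih _ (by
              subst h
              rw [e1, sum_succL, length_succL]
              simp only [List.length_append, List.length_cons]
              omega) pre' post' x' y' (by omega) rfl]
          congr 2
          simp

/-- moving a small entry to the right -/
lemma Tup_G (c : ℕ) (α β : List ℕ) (h : ∀ x ∈ α, c ≤ x) :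
    Tup t α.length (G t (c :: α ++ β)) = G t (α ++ c :: β) := by
  induction α using List.reverseRecOn generalizing β with
  | nil => rfl
  | append_singleton α x ih =>
    have h1 : ∀ y ∈ α, c ≤ y := fun y hy => h y (by simp [hy])
    have e1 : c :: (α ++ [x]) ++ β = c :: α ++ (x :: β) := by simp
    have e2 : α ++ [x] ++ c :: β = α ++ x :: c :: β := by simp
    rw [e1, e2, List.length_append, List.length_singleton, Tup_succ, ih (x :: β) h1,
      Tb_G t _ _ _ _ (h x (by simp))]

lemma sw_sh_prodX {i n : ℕ} (h : i + 1 < n) : sw (k := k) (i + 1) (sh (prodX n)) = sh (prodX n) := by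
  rw [sw_sh, sw_prodX h]

/-- a smallest entry in front splits off -/
lemma G_min_cons (b : ℕ) (ν : List ℕ) (h : ∀ x ∈ ν, b ≤ x) :
    G t (b :: ν) = X 0 ^ b * sh (G t ν) := by
  induction b generalizing ν with
  | zero => rw [G_zero_cons]; simp
  | succ b ih =>
    have h0 : 0 ∉ ν := fun h' => by have := h 0 h'; omega
    obtain ⟨ν', rfl⟩ := exists_succL h0
    rw [← succL_cons, G_succL, ih ν' (fun x hx => by
      have := h (x + 1) (by simp only [succL, List.mem_map]; exact ⟨x, hx, rfl⟩)
      omega), G_succL, List.length_cons, prodX_succ', map_mul]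
    ring

lemma sw_Xpow {i j n : ℕ} (h1 : j ≠ i) (h2 : j ≠ i + 1) :
    sw (k := k) i (X j ^ n) = X j ^ n := by
  rw [map_pow, sw_X_of_ne h1 h2]

lemma TupS_X0_mul (p : ℕ) (f : MvPolynomial ℕ k) :
    TupS t p (X 0 * f) = X 0 * TupS t p f := by
  induction p with
  | zero => rfl
  | succ p ih =>
    rw [TupS_succ, ih, Tb_mul_symm t (sw_X_of_ne (by omega) (by omega)), TupS_succ]

/-- number of entries `≤ b` -/
def cnt (b : ℕ) (ν : List ℕ) : ℕ := ν.countP (fun x => decide (x ≤ b))

lemma cnt_cons (b x : ℕ) (ν : List ℕ) : cnt b (x :: ν) = cnt b ν + if x ≤ b then 1 else 0 := by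
  simp only [cnt, List.countP_cons, decide_eq_true_eq]

lemma cnt_append (b : ℕ) (μ ν : List ℕ) : cnt b (μ ++ ν) = cnt b μ + cnt b ν := by
  simp only [cnt, List.countP_append]

lemma cnt_succL (b : ℕ) (ν : List ℕ) : cnt (b + 1) (succL ν) = cnt b ν := by
  induction ν with
  | nil => rfl
  | cons x ν ih =>
    rw [succL_cons, cnt_cons, cnt_cons, ih]
    congr 1
    split_ifs <;> omega

/-- the affine rotation -/
lemma rot_G (b : ℕ) (ν : List ℕ) :
    Tup t ν.length (X 0 * G t (b :: ν)) = t ^ cnt b ν • G t (ν ++ [b + 1]) := by
  induction h : (b :: ν).length + (b :: ν).sum using Nat.strong_induction_on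
    generalizing b ν with
  | _ n ih =>
    by_cases hA : ∀ x ∈ ν, b < x
    · have hc : cnt b ν = 0 := by
        rw [cnt, List.countP_eq_zero]
        intro x hx
        have := hA x hx
        simp; omega
      rw [hc, pow_zero, one_smul, G_min_cons t b ν (fun x hx => (hA x hx).le), ← mul_assoc,
        ← pow_succ', ← G_min_cons t (b + 1) ν (fun x hx => hA x hx)]
      have := Tup_G t (b + 1) ν [] (fun x hx => hA x hx)
      simpa using this
    · push Not at hA
      obtain ⟨x, hx, hxb⟩ := hA
      by_cases h0 : 0 ∈ b :: ν
      · have h0' : 0 ∈ ν := by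
          rcases List.mem_cons.1 h0 with h' | h'
          · have : x = 0 := by omega
            rwa [← this]
          · exact h'
        obtain ⟨α, β, hα, rfl⟩ := exists_split h0'
        have e1 : G t (b :: (α ++ 0 :: β)) =
            Tup t (α.length + 1) (sh (G t (b :: (α ++ β)))) := by
          by_cases hb : b = 0
          · subst hb
            rw [G_zero_cons, G_split t _ _ hα, sh_Tup, Tup_succ', G_zero_cons,
              Tb_symm t (sw_zero_sh_sh _)]
          · have : 0 ∉ b :: α := by
              simp only [List.mem_cons, not_or]; exact ⟨fun h => hb h.symm, hα⟩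
            have := G_split t (b :: α) β this
            simpa using this
        have hlen : (α ++ 0 :: β).length = (α ++ β).length + 1 := by
          simp only [List.length_append, List.length_cons]; omega
        have IH := ih _ (by
          subst h
          simp only [List.length_append, List.length_cons, List.sum_append, List.sum_cons]
          omega) b (α ++ β) rfl
        rw [e1, hlen, Tup_succ' t α.length, ← TupS_X0_mul, ← Tup_Tup t (by simp), Tup_succ',
          Tb_X_mul, Tb_quad]
        have e2 : ((1 - t) • Tb t 0 (sh (G t (b :: (α ++ β)))) + t • sh (G t (b :: (α ++ β))) +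
            (t - 1) • Tb t 0 (sh (G t (b :: (α ++ β))))) = t • sh (G t (b :: (α ++ β))) := by
          rw [add_right_comm, ← add_smul]
          simp
        rw [e2, mul_smul_comm, ← sh_X, ← map_mul, map_smul, ← sh_Tup, IH, map_smul, map_smul,
          map_smul, smul_smul, ← pow_succ']
        have e3 : α ++ 0 :: β ++ [b + 1] = α ++ 0 :: (β ++ [b + 1]) := by simp
        have e4 : cnt b (α ++ 0 :: β) = cnt b (α ++ β) + 1 := by
          rw [cnt_append, cnt_append, cnt_cons, if_pos (Nat.zero_le _)]
          ring
        rw [e3, G_split t _ _ hα, ← List.append_assoc, e4]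
      · obtain ⟨ν', rfl⟩ := exists_succL (μ := ν) (fun h => h0 (by simp [h]))
        obtain ⟨b', rfl⟩ : ∃ b', b = b' + 1 :=
          ⟨b - 1, by
            have : b ≠ 0 := fun h => h0 (by simp [h])
            omega⟩
        have IH := ih _ (by
          subst h
          rw [← succL_cons, sum_succL, length_succL]
          simp only [List.length_cons]
          omega) b' ν' rfl
        rw [← succL_cons, G_succL, length_succL, List.length_cons, cnt_succL, mul_left_comm,
          Tup_mul_symm t (fun i hi => sw_prodX (by omega)), IH]
        have e1 : succL ν' ++ [b' + 1 + 1] = succL (ν' ++ [b' + 1]) := by simp [succL]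
        rw [e1, G_succL, mul_smul_comm, List.length_append, List.length_singleton]

/-- setting the last variable to zero -/
lemma ev_G (μ : List ℕ) (c : ℕ) :
    ev μ.length (G t (μ ++ [c])) = if c = 0 then G t μ else 0 := by
  induction h : (μ ++ [c]).length + (μ ++ [c]).sum using Nat.strong_induction_on
    generalizing μ c with
  | _ n ih =>
    by_cases h0 : 0 ∈ μ
    · obtain ⟨α, β, hα, rfl⟩ := exists_split h0
      have e1 : α ++ 0 :: β ++ [c] = α ++ 0 :: (β ++ [c]) := by simp
      have hlen : (α ++ 0 :: β).length = (α ++ β).length + 1 := by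
        simp only [List.length_append, List.length_cons]; omega
      have IH := ih _ (by
        subst h
        simp only [List.length_append, List.length_cons, List.sum_append, List.sum_cons]
        omega) (α ++ β) c rfl
      rw [e1, G_split t _ _ hα, hlen, ← Tup_ev t (by simp only [List.length_append]; omega), ev_sh,
        ← List.append_assoc, IH]
      split_ifs
      · rw [G_split t _ _ hα]
      · simp
    · by_cases hc : c = 0
      · subst hc
        rw [if_pos rfl, G_split t _ _ h0, ev_Tup, List.append_nil, cyc_sh (G_proj t μ)]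
      · rw [if_neg hc]
        obtain ⟨μ', rfl⟩ := exists_succL h0
        obtain ⟨c', rfl⟩ : ∃ c', c = c' + 1 := ⟨c - 1, by omega⟩
        have e1 : succL μ' ++ [c' + 1] = succL (μ' ++ [c']) := by simp [succL]
        rw [e1, G_succL, map_mul, List.length_append, List.length_singleton, prodX_succ,
          map_mul, length_succL, ev_X_self]
        simp

end Pool.Agent.TH421.Cat
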