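import Pool.Agent.TH421.Cat.Func

/-! The main identity. -/

set_option autoImplicit false

namespace Pool.Agent.TH421.Cat

open MvPolynomial Filter

variable {k : Type*} [Field k]

/-- kernel series -/
noncomputable def kser (q t : k) (n : ℕ) : PowerSeries (MvPolynomial ℕ k) :=
  Phi (dl t * gs q) (n + 1) * PowerSeries.map (sh (k := k)).toRingHom
    (Phi (1 - PowerSeries.C (q * t) * PowerSeries.X) n)

lemma kser_symm (q t : k) (n : ℕ) : kser q t n = kser t q n := by
  have : dl t * gs q = dl q * gs t := by rw [dl, dl]; ring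
  rw [kser, kser, this, mul_comm q t]

lemma fac_rescale (q : k) (c : PowerSeries k) (j : ℕ) :
    fac (PowerSeries.rescale q c) j = PowerSeries.rescale (C q) (fac c j) := by
  ext1 n
  rw [coeff_fac, PowerSeries.coeff_rescale, PowerSeries.coeff_rescale, coeff_fac, map_mul,
    map_pow]
  ring

lemma Phi_rescale (q : k) (c : PowerSeries k) (n : ℕ) :
    Phi (PowerSeries.rescale q c) n = PowerSeries.rescale (C q) (Phi c n) := by
  rw [Phi, Phi, map_prod]
  exact Finset.prod_congr rfl (fun j _ => fac_rescale q c j)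

lemma rc_rescale (q : k) (c : PowerSeries k) (n e : ℕ) :
    rc (PowerSeries.rescale q c) n e = q ^ e • rc c n e := by
  rw [rc, Phi_rescale, PowerSeries.coeff_rescale, rc, smul_eq_C_mul, map_pow]

lemma rescale_geo (q : k) : PowerSeries.rescale q geo = gs q := by
  ext n
  rw [PowerSeries.coeff_rescale]
  simp [geo, gs]

lemma rescale_dr (q t : k) : PowerSeries.rescale q (dr t) =
    (1 - PowerSeries.C (q * t) * PowerSeries.X) * gs q := by
  rw [dr, map_mul, rescale_geo]
  congr 1
  ext n
  rw [PowerSeries.coeff_rescale, map_sub, map_sub, PowerSeries.coeff_C_mul,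
    PowerSeries.coeff_C_mul, PowerSeries.coeff_one, PowerSeries.coeff_X]
  rcases n with _ | _ | n
  · simp
  · simp
  · simp

/-- coefficients of the recursion for `vv` -/
noncomputable def wW (t : k) (n a : ℕ) : MvPolynomial ℕ k :=
  ∑ p ∈ Finset.HasAntidiagonal.antidiagonal a, X 0 ^ p.1 * sh (rc (dr t) n p.2)

lemma series_W (q t : k) (n : ℕ) : PowerSeries.mk (fun a => q ^ a • wW t n a) =
    fac (gs q) 0 * PowerSeries.map (sh (k := k)).toRingHom
      (Phi ((1 - PowerSeries.C (q * t) * PowerSeries.X) * gs q) n) := by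
  ext1 a
  rw [PowerSeries.coeff_mk, wW, PowerSeries.coeff_mul, Finset.smul_sum]
  apply Finset.sum_congr rfl
  intro p hp
  rw [Finset.HasAntidiagonal.mem_antidiagonal] at hp
  rw [coeff_fac, PowerSeries.coeff_map, ← rescale_dr]
  have h : PowerSeries.coeff p.2 (Phi (PowerSeries.rescale q (dr t)) n) =
      q ^ p.2 • rc (dr t) n p.2 := rc_rescale q (dr t) n p.2
  rw [h]
  simp only [AlgHom.toRingHom_eq_coe, RingHom.coe_coe, map_smul, gs, PowerSeries.coeff_mk]
  rw [smul_eq_C_mul, smul_eq_C_mul, ← hp, pow_add, map_mul]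
  ring

lemma series_T (q t : k) (n : ℕ) :
    PowerSeries.mk (fun a => q ^ a • (sh (rc (dr t) n a) : MvPolynomial ℕ k)) =
    PowerSeries.map (sh (k := k)).toRingHom
      (Phi ((1 - PowerSeries.C (q * t) * PowerSeries.X) * gs q) n) := by
  ext1 a
  rw [PowerSeries.coeff_mk, PowerSeries.coeff_map, ← rescale_dr]
  have h : PowerSeries.coeff a (Phi (PowerSeries.rescale q (dr t)) n) =
      q ^ a • rc (dr t) n a := rc_rescale q (dr t) n a
  rw [h]
  simp only [AlgHom.toRingHom_eq_coe, RingHom.coe_coe, map_smul]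

lemma kser_W (q t : k) (n : ℕ) :
    Phi (dl t) (n + 1) * PowerSeries.mk (fun a => q ^ a • wW t n a) = kser q t n := by
  rw [series_W, kser, Phi_mul (dl t) (gs q), Phi_succ (gs q), Phi_mul _ (gs q), map_mul]
  ring

/-- the factor `1 - q X 0 z` -/
noncomputable def fq (q : k) : PowerSeries (MvPolynomial ℕ k) :=
  fac (1 - PowerSeries.C q * PowerSeries.X) 0

lemma fq_mul (q : k) : fq q * fac (gs q) 0 = 1 := by
  rw [fq, ← fac_mul, mul_comm, gs_mul, fac_one]

lemma fq_eq (q : k) : fq q = 1 - PowerSeries.C (C q) * (PowerSeries.C (X 0) * PowerSeries.X) := by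
  rw [fq, fac, map_sub, map_sub, map_one, map_one, map_mul, map_mul, PowerSeries.map_C,
    PowerSeries.map_X, PowerSeries.rescale_X]
  congr 2
  ext1 n
  rw [PowerSeries.coeff_rescale]
  rcases n with _ | n <;> simp [PowerSeries.coeff_C]

lemma kser_T (q t : k) (n : ℕ) :
    Phi (dl t) (n + 1) * PowerSeries.mk (fun a => q ^ a • (sh (rc (dr t) n a) : MvPolynomial ℕ k))
      = fq q * kser q t n := by
  rw [series_T, kser, Phi_mul (dl t) (gs q), Phi_succ (gs q), Phi_mul _ (gs q), map_mul]
  linear_combination (- Phi (dl t) (n + 1) * PowerSeries.map (sh (k := k)).toRingHom (Phi (gs q) n)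
    * PowerSeries.map (sh (k := k)).toRingHom
      (Phi (1 - PowerSeries.C (q * t) * PowerSeries.X) n)) * fq_mul q

/-- kernel coefficients -/
noncomputable def kap (q t : k) : ℕ → ℕ → MvPolynomial ℕ k
  | 0, e => if e = 0 then 1 else 0
  | n + 1, e => PowerSeries.coeff e (kser q t n)

lemma kap_symm (q t : k) (n : ℕ) : kap q t n = kap t q n := by
  rcases n with _ | n
  · rfl
  · funext e
    rw [kap, kser_symm, kap]

/-- the functional -/
noncomputable def FF (q t : k) (m : ℕ) : ℕ → MvPolynomial ℕ k →ₗ[k] k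
  | 0 => { toFun := fun g => constantCoeff g
           map_add' := by intros; simp
           map_smul' := by intros; simp [smul_eq_C_mul] }
  | n + 1 => (FF q t m n).comp (St m (kap q t n))

lemma FF_succ (q t : k) (m n : ℕ) (g : MvPolynomial ℕ k) :
    FF q t m (n + 1) g = FF q t m n (St m (kap q t n) g) := rfl

lemma FF_symm (q t : k) (m n : ℕ) : FF q t m n = FF t q m n := by
  induction n with
  | zero => rfl
  | succ n ih =>
    apply LinearMap.ext
    intro g
    rw [FF_succ, FF_succ, ih, kap_symm]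

theorem GS_W (q t : k) (m n : ℕ) : ∀ g, ∀ᶠ B in atTop,
    GS q t m n B (vv t) g = FF q t m (n + 1) g := by
  induction n with
  | zero =>
    intro g
    filter_upwards with B
    rw [GS, Finset.sum_range_succ']
    have h1 : ∀ A, q ^ (A + 1) * ∑ a ∈ S 0 (A + 1),
        pair t (0 + 1) (prodX (0 + 1) ^ m * mon a) (g * sh (vv t a)) = 0 := by
      intro A
      rw [S, if_neg (by omega)]
      simp
    rw [Finset.sum_congr rfl (fun A _ => h1 A), Finset.sum_const_zero, zero_add, pow_zero,
      one_mul, S, if_pos rfl, Finset.sum_singleton, vv_nil]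
    have h2 : (prodX (0 + 1) ^ m * mon [] : MvPolynomial ℕ k) = X 0 ^ m * sh 1 := by
      rw [prodX_succ']; simp
    rw [h2, pair_St, pair_zero, FF_succ]
    have h3 : rc (dl t) 0 = kap q t 0 := by
      funext e
      rw [rc_zero, kap]
    rw [h3, mul_one, map_one, one_mul]
    rfl
  | succ n ih =>
    intro g
    have h := step_lemma q t m n (FF q t m (n + 1)) ih (wW t n) (vv t) (by
      intro a a' ha'
      rw [vv_cons, ha', wW]) g
    rw [kser_W] at h
    exact h

theorem GS_T (q t : k) (m n : ℕ) (g : MvPolynomial ℕ k) : ∀ᶠ B in atTop,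
    GS q t m (n + 1) B (fun a => ev 0 (vv t a)) g =
      FF q t m (n + 1) (St m (fun e => PowerSeries.coeff e (fq q * kser q t n)) g) := by
  have h := step_lemma q t m n (FF q t m (n + 1)) (GS_W q t m n)
    (fun a => sh (rc (dr t) n a)) (fun a => ev 0 (vv t a)) (by
      intro a a' ha'
      rw [vv_cons, ha', map_mul, ev_zero_sh, map_sum]
      congr 1
      rw [Finset.sum_eq_single_of_mem (0, a)]
      · rw [map_mul, ev_zero_sh]; simp
      · rw [Finset.HasAntidiagonal.mem_antidiagonal]; simp
      · intro p hp hne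
        rw [Finset.HasAntidiagonal.mem_antidiagonal] at hp
        have h0 : p.1 ≠ 0 := by
          intro h0
          apply hne
          ext
          · exact h0
          · simp; omega
        rw [map_mul, map_pow, ev_X_self, zero_pow h0, zero_mul]) g
  rw [kser_T] at h
  exact h

lemma St_lin (a b : k) (m : ℕ) (κ κ' κ'' : ℕ → MvPolynomial ℕ k)
    (h : ∀ e, a • κ e - b • κ' e = (a - b) • κ'' e)
    (g : MvPolynomial ℕ k) : a • St m κ g - b • St m κ' g = (a - b) • St m κ'' g := by
  induction g using P_induction with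
  | add g g' h1 h2 => rw [map_add, map_add, map_add, smul_add (a - b), ← h1, ← h2]; module
  | mono c g =>
    rw [St_mono, St_mono, St_mono]
    split_ifs
    · rw [← smul_mul_assoc (a - b), ← h, sub_mul, smul_mul_assoc, smul_mul_assoc]
    · simp

lemma fq_lin (q t : k) (κ : PowerSeries (MvPolynomial ℕ k)) (e : ℕ) :
    t • PowerSeries.coeff e (fq q * κ) - q • PowerSeries.coeff e (fq t * κ) =
      (t - q) • PowerSeries.coeff e κ := by
  have h : PowerSeries.C (C t) * (fq q * κ) - PowerSeries.C (C q) * (fq t * κ) =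
      PowerSeries.C (C (t - q)) * κ := by
    rw [fq_eq, fq_eq, map_sub, map_sub]
    ring
  have h2 := congrArg (PowerSeries.coeff e) h
  rw [map_sub, PowerSeries.coeff_C_mul, PowerSeries.coeff_C_mul, PowerSeries.coeff_C_mul] at h2
  rw [smul_eq_C_mul, smul_eq_C_mul, smul_eq_C_mul]
  exact h2

/-- truncated generating function, all words -/
noncomputable def CW (q t : k) (m n B : ℕ) : k :=
  ∑ A ∈ Finset.range (B + 1), q ^ A * ∑ b ∈ S n A, Cf t (lift m b) (0 :: b)

/-- truncated generating function, words with a second zero -/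
noncomputable def CT (q t : k) (m n B : ℕ) : k :=
  ∑ A ∈ Finset.range (B + 1), q ^ A *
    ∑ c ∈ S n A, Cf t (addL m c ++ [m, m]) (0 :: c ++ [0])

theorem main_identity (q t : k) (hq : q ≠ 0) (ht : t ≠ 0) (m n : ℕ) :
    ∀ᶠ B in atTop, (t - q) * CW q t m (n + 1) B = t * CT q t m n B - q * CT t q m n B := by
  let g : MvPolynomial ℕ k := hk (n + 2) (m * (n + 2))
  have h1 := GS_W q t m (n + 1) g
  have h2 := GS_T q t m n g
  have h3 := GS_T t q m n g
  filter_upwards [h1, h2, h3] with B h1 h2 h3
  have e1 : GS q t m (n + 1) B (vv t) g = CW q t m (n + 1) B := by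
    rw [GS, CW]
    apply Finset.sum_congr rfl
    intro A _
    rw [← trace_W ht (n + 1) m A]
  have e2 : ∀ q t : k, t ≠ 0 → GS q t m (n + 1) B (fun a => ev 0 (vv t a)) g = CT q t m n B := by
    intro q t ht
    rw [GS, CT]
    apply Finset.sum_congr rfl
    intro A _
    rw [← trace_T ht n m A]
  have h4 := St_lin t q m (fun e => PowerSeries.coeff e (fq q * kser q t n))
    (fun e => PowerSeries.coeff e (fq t * kser q t n)) (kap q t (n + 1))
    (fun e => fq_lin q t (kser q t n) e) g
  have h5 := congrArg (FF q t m (n + 1)) h4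
  rw [map_sub, map_smul, map_smul, map_smul, smul_eq_mul, smul_eq_mul, smul_eq_mul,
    ← FF_succ] at h5
  rw [← e1, ← e2 q t ht, ← e2 t q hq, h1, h2, h3, FF_symm t q, kser_symm t q]
  exact h5.symm

end Pool.Agent.TH421.Cat
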