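import Pool.Agent.TH421.Cat.Word
import Pool.Agent.TH421.Cat.Count

/-! The identity for lists. -/

set_option autoImplicit false

namespace Pool.Agent.TH421.Cat

open MvPolynomial Filter

lemma Val_nil (m p : ℕ) : Val m p [] ↔ p ≤ m := by
  simp [Val, addL]

lemma Val_cons (m p x : ℕ) (b : List ℕ) : Val m p (x :: b) ↔ p ≤ x + m ∧ Val m x b := by
  rw [Val, List.cons_append, addL_cons, List.forall₂_cons, Val]

lemma Val_bound (m p : ℕ) (b : List ℕ) (h : Val m p b) :
    p ≤ m * (b.length + 1) ∧ b.sum ≤ m * b.length * b.length := by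
  induction b generalizing p with
  | nil => rw [Val_nil] at h; simpa using h
  | cons x b ih =>
    rw [Val_cons] at h
    obtain ⟨h1, h2⟩ := ih x h.2
    simp only [List.length_cons, List.sum_cons]
    constructor
    · nlinarith [h.1]
    · nlinarith [h.1]

instance (m p : ℕ) (b : List ℕ) : Decidable (Val m p b) := by
  unfold Val; infer_instance

/-- the finite set of (reversed, truncated) words -/
def WL (m l : ℕ) : Finset (List ℕ) :=
  ((Finset.range (m * l * l + 1)).biUnion (S l)).filter (fun b => Val m 0 b)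

lemma mem_WL {m l : ℕ} {b : List ℕ} : b ∈ WL m l ↔ b.length = l ∧ Val m 0 b := by
  rw [WL, Finset.mem_filter, Finset.mem_biUnion]
  constructor
  · rintro ⟨⟨A, hA, hb⟩, hv⟩
    exact ⟨(mem_S.1 hb).1, hv⟩
  · rintro ⟨h1, h2⟩
    refine ⟨⟨b.sum, ?_, mem_S.2 ⟨h1, rfl⟩⟩, h2⟩
    have := (Val_bound m 0 b h2).2
    rw [h1] at this
    rw [Finset.mem_range]
    omega

/-- truncated words ending with zero -/
def TL (m l : ℕ) : Finset (List ℕ) := (WL m l).filter (fun b => b.getLast? = some 0)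

/-- the second statistic -/
def dn (m : ℕ) (b : List ℕ) : ℕ := (Dr m (b ++ [0])).toNat

lemma sum_biUnion_S {M : Type*} [AddCommMonoid M] (l N : ℕ) (F : List ℕ → M) :
    ∑ A ∈ Finset.range N, ∑ b ∈ S l A, F b = ∑ b ∈ (Finset.range N).biUnion (S l), F b := by
  rw [Finset.sum_biUnion]
  intro A _ A' _ hne
  rw [Function.onFun, Finset.disjoint_left]
  intro b h1 h2
  exact hne ((mem_S.1 h1).2.symm.trans (mem_S.1 h2).2)

variable {k : Type*} [Field k]

lemma CW_eq (q : k) {t : k} (ht : t ≠ 0) (m l B : ℕ) (hB : m * l * l ≤ B) :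
    CW q t m l B = ∑ b ∈ WL m l, q ^ b.sum * t ^ dn m b := by
  have h1 : ∀ A, q ^ A * ∑ b ∈ S l A, Cf t (lift m b) (0 :: b) =
      ∑ b ∈ S l A, (if Val m 0 b then q ^ b.sum * t ^ dn m b else 0) := by
    intro A
    rw [Finset.mul_sum]
    apply Finset.sum_congr rfl
    intro b hb
    rw [mem_S] at hb
    split_ifs with h
    · rw [Cf_lift_pos ht h, hb.2, dn]
    · rw [Cf_lift_neg h, mul_zero]
  rw [CW, Finset.sum_congr rfl (fun A _ => h1 A), sum_biUnion_S, ← Finset.sum_filter]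
  apply Finset.sum_congr _ (fun _ _ => rfl)
  ext b
  rw [mem_WL, Finset.mem_filter, Finset.mem_biUnion]
  constructor
  · rintro ⟨⟨A, hA, hb⟩, hv⟩
    exact ⟨(mem_S.1 hb).1, hv⟩
  · rintro ⟨h1, h2⟩
    refine ⟨⟨b.sum, ?_, mem_S.2 ⟨h1, rfl⟩⟩, h2⟩
    have := (Val_bound m 0 b h2).2
    rw [h1] at this
    rw [Finset.mem_range]
    omega

lemma CT_eq (q : k) {t : k} (ht : t ≠ 0) (m n B : ℕ) (hB : m * (n + 1) * (n + 1) ≤ B) :
    CT q t m n B = ∑ b ∈ TL m (n + 1), q ^ b.sum * t ^ dn m b := by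
  have h1 : ∀ A, q ^ A * ∑ c ∈ S n A, Cf t (addL m c ++ [m, m]) (0 :: c ++ [0]) =
      ∑ c ∈ S n A, (if Val m 0 (c ++ [0]) then q ^ (c ++ [0]).sum * t ^ dn m (c ++ [0]) else 0) := by
    intro A
    rw [Finset.mul_sum]
    apply Finset.sum_congr rfl
    intro c hc
    rw [mem_S] at hc
    have e1 : addL m c ++ [m, m] = lift m (c ++ [0]) := by simp [lift, addL]
    rw [e1, List.cons_append]
    split_ifs with h
    · rw [Cf_lift_pos ht h, dn]
      simp [hc.2]
    · rw [Cf_lift_neg h, mul_zero]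
  rw [CT, Finset.sum_congr rfl (fun A _ => h1 A), sum_biUnion_S, ← Finset.sum_filter]
  apply Finset.sum_nbij (fun c => c ++ [0])
  · intro c hc
    rw [Finset.mem_filter, Finset.mem_biUnion] at hc
    obtain ⟨⟨A, hA, hc⟩, hv⟩ := hc
    rw [TL, Finset.mem_filter, mem_WL]
    refine ⟨⟨?_, hv⟩, by simp⟩
    simp [(mem_S.1 hc).1]
  · intro c _ c' _ h
    exact List.append_cancel_right h
  · intro b hb
    rw [Finset.mem_coe, TL, Finset.mem_filter, mem_WL] at hb
    obtain ⟨⟨h1, h2⟩, h3⟩ := hb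
    obtain ⟨c, rfl⟩ : ∃ c, b = c ++ [0] := by
      rw [List.getLast?_eq_some_iff] at h3
      exact h3
    refine ⟨c, ?_, rfl⟩
    rw [Finset.mem_coe, Finset.mem_filter, Finset.mem_biUnion]
    refine ⟨⟨c.sum, ?_, mem_S.2 ⟨by simpa using h1, rfl⟩⟩, h2⟩
    have := (Val_bound m 0 _ h2).2
    rw [h1] at this
    rw [Finset.mem_range]
    simp at this
    omega
  · intro c _; rfl

/-- the polynomial identity for lists -/
theorem list_identity (m n : ℕ) :
    (X 1 - X 0) * PS (WL m (n + 1)) List.sum (dn m) (X 0) (X 1) =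
      X 1 * PS (TL m (n + 1)) List.sum (dn m) (X 0) (X 1) -
      X 0 * PS (TL m (n + 1)) List.sum (dn m) (X 1) (X 0) := by
  let R := MvPolynomial (Fin 2) ℤ
  let φ : R →+* FractionRing R := algebraMap R (FractionRing R)
  have hφ : Function.Injective φ := IsFractionRing.injective R (FractionRing R)
  have hq : φ (X 0) ≠ 0 := fun h => X_ne_zero (R := ℤ) (0 : Fin 2) (hφ (by rw [h, map_zero]))
  have ht : φ (X 1) ≠ 0 := fun h => X_ne_zero (R := ℤ) (1 : Fin 2) (hφ (by rw [h, map_zero]))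
  have h := main_identity (φ (X 0)) (φ (X 1)) hq ht m n
  obtain ⟨B, h1, h2⟩ := (h.and (eventually_ge_atTop (m * (n + 1) * (n + 1)))).exists
  rw [CW_eq _ ht _ _ _ h2, CT_eq _ ht _ _ _ h2, CT_eq _ hq _ _ _ h2] at h1
  apply hφ
  simp only [PS, map_mul, map_sub, map_sum, map_pow]
  exact h1

end Pool.Agent.TH421.Cat
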