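import Mathlib

/-! Demazure-Lusztig operators on polynomials in countably many variables. -/

set_option autoImplicit false

namespace Pool.Agent.TH421.Cat

open MvPolynomial

variable {k : Type*} [Field k]

/-- exchange the variables `X i` and `X (i+1)` -/
noncomputable def sw (i : ℕ) : MvPolynomial ℕ k →ₐ[k] MvPolynomial ℕ k :=
  rename (Equiv.swap i (i + 1))

/-- shift the variables up by one -/
noncomputable def sh : MvPolynomial ℕ k →ₐ[k] MvPolynomial ℕ k := rename Nat.succ

@[simp] lemma sw_X_left (i : ℕ) : sw (k := k) i (X i) = X (i + 1) := by simp [sw]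

@[simp] lemma sw_X_right (i : ℕ) : sw (k := k) i (X (i + 1)) = X i := by simp [sw]

lemma sw_X_of_ne {i j : ℕ} (h1 : j ≠ i) (h2 : j ≠ i + 1) : sw (k := k) i (X j) = X j := by
  simp [sw, Equiv.swap_apply_of_ne_of_ne h1 h2]

@[simp] lemma sw_C (i : ℕ) (a : k) : sw i (C a) = C a := by simp [sw]

@[simp] lemma sh_X (i : ℕ) : sh (k := k) (X i) = X (i + 1) := by simp [sh]

@[simp] lemma sh_C (a : k) : sh (C a) = C a := by simp [sh]

lemma sw_sw (i : ℕ) (f : MvPolynomial ℕ k) : sw i (sw i f) = f := by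
  simp only [sw, rename_rename]
  have : (⇑(Equiv.swap i (i + 1)) ∘ ⇑(Equiv.swap i (i + 1))) = id := by
    funext x; simp
  rw [this, rename_id_apply]

lemma sw_comm {i j : ℕ} (h : i + 2 ≤ j) (f : MvPolynomial ℕ k) :
    sw i (sw j f) = sw j (sw i f) := by
  simp only [sw, rename_rename]
  congr 1
  congr 1
  funext x
  simp only [Function.comp_apply, Equiv.swap_apply_def]
  split_ifs <;> omega

lemma sw_braid (i : ℕ) (f : MvPolynomial ℕ k) :
    sw i (sw (i + 1) (sw i f)) = sw (i + 1) (sw i (sw (i + 1) f)) := by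
  simp only [sw, rename_rename]
  congr 1
  congr 1
  funext x
  simp only [Function.comp_apply, Equiv.swap_apply_def]
  split_ifs <;> omega

lemma sw_sh (i : ℕ) (f : MvPolynomial ℕ k) : sw (i + 1) (sh f) = sh (sw i f) := by
  simp only [sw, sh, rename_rename]
  congr 1
  congr 1
  funext x
  simp only [Function.comp_apply, Equiv.swap_apply_def]
  split_ifs <;> omega

lemma sw_zero_sh_sh (f : MvPolynomial ℕ k) : sw 0 (sh (sh f)) = sh (sh f) := by
  simp only [sw, sh, rename_rename]
  congr 1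

lemma X_sub_ne (i : ℕ) : (X i - X (i + 1) : MvPolynomial ℕ k) ≠ 0 := by
  rw [sub_ne_zero]
  intro h
  have := MvPolynomial.X_injective h
  omega

lemma X_sub_ne' {i j : ℕ} (h : i ≠ j) : (X i - X j : MvPolynomial ℕ k) ≠ 0 := by
  rw [sub_ne_zero]
  intro h'
  exact h (MvPolynomial.X_injective h')

lemma exists_dd (i : ℕ) (f : MvPolynomial ℕ k) : ∃ g, f - sw i f = (X i - X (i + 1)) * g := by
  induction f using MvPolynomial.induction_on with
  | C a => exact ⟨0, by simp⟩
  | add p q hp hq =>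
    obtain ⟨g, hg⟩ := hp
    obtain ⟨h, hh⟩ := hq
    exact ⟨g + h, by rw [map_add]; linear_combination hg + hh⟩
  | mul_X p j hp =>
    obtain ⟨g, hg⟩ := hp
    have : ∃ e : MvPolynomial ℕ k, X j - sw i (X j) = (X i - X (i + 1)) * e := by
      by_cases h1 : j = i
      · subst h1; exact ⟨1, by simp⟩
      · by_cases h2 : j = i + 1
        · subst h2; exact ⟨-1, by simp⟩
        · exact ⟨0, by rw [sw_X_of_ne h1 h2]; ring⟩
    obtain ⟨e, he⟩ := this
    exact ⟨g * X j + sw i p * e, by rw [map_mul]; linear_combination X j * hg + sw i p * he⟩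

/-- divided difference -/
noncomputable def dd (i : ℕ) (f : MvPolynomial ℕ k) : MvPolynomial ℕ k :=
  Classical.choose (exists_dd i f)

lemma dd_spec (i : ℕ) (f : MvPolynomial ℕ k) : f - sw i f = (X i - X (i + 1)) * dd i f :=
  Classical.choose_spec (exists_dd i f)

lemma dd_eq {i : ℕ} {f g : MvPolynomial ℕ k} (h : f - sw i f = (X i - X (i + 1)) * g) :
    dd i f = g := by
  have := dd_spec i f
  rw [h] at this
  exact (mul_left_cancel₀ (X_sub_ne i) this).symm

/-- the operator `T̄_i` -/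
noncomputable def Tb (t : k) (i : ℕ) : MvPolynomial ℕ k →ₗ[k] MvPolynomial ℕ k where
  toFun f := f - (X i - C t * X (i + 1)) * dd i f
  map_add' f g := by
    have : dd i (f + g) = dd i f + dd i g := by
      apply dd_eq
      rw [map_add]
      linear_combination dd_spec i f + dd_spec i g
    rw [this]; ring
  map_smul' c f := by
    have : dd i (c • f) = c • dd i f := by
      apply dd_eq
      rw [map_smul, mul_smul_comm, ← dd_spec i f, smul_sub]
    rw [this]
    simp only [RingHom.id_apply, mul_smul_comm, smul_sub]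

variable (t : k)

lemma Tb_def (i : ℕ) (f : MvPolynomial ℕ k) :
    Tb t i f = f - (X i - C t * X (i + 1)) * dd i f := rfl

lemma Tb_spec (i : ℕ) (f : MvPolynomial ℕ k) :
    (X i - X (i + 1)) * Tb t i f =
      (C t - 1) * X (i + 1) * f + (X i - C t * X (i + 1)) * sw i f := by
  rw [Tb_def]
  linear_combination (X i - C t * X (i + 1)) * (dd_spec i f)

lemma Tb_eq {i : ℕ} {f g : MvPolynomial ℕ k}
    (h : (X i - X (i + 1)) * g =
      (C t - 1) * X (i + 1) * f + (X i - C t * X (i + 1)) * sw i f) : Tb t i f = g := by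
  have := Tb_spec t i f
  rw [← h] at this
  exact mul_left_cancel₀ (X_sub_ne i) this

lemma Tb_mul_symm {i : ℕ} {p : MvPolynomial ℕ k} (hp : sw i p = p) (f : MvPolynomial ℕ k) :
    Tb t i (p * f) = p * Tb t i f := by
  apply Tb_eq
  rw [map_mul, hp]
  linear_combination p * Tb_spec t i f

lemma Tb_symm {i : ℕ} {p : MvPolynomial ℕ k} (hp : sw i p = p) : Tb t i p = p := by
  apply Tb_eq
  rw [hp]
  ring

lemma Tb_quad (i : ℕ) (f : MvPolynomial ℕ k) :
    Tb t i (Tb t i f) = (1 - t) • Tb t i f + t • f := by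
  apply Tb_eq
  have h1 := Tb_spec t i f
  have h2 := congrArg (sw i) h1
  simp only [map_mul, map_sub, map_add, sw_X_left, sw_X_right, sw_C, sw_sw, map_one] at h2
  rw [smul_eq_C_mul, smul_eq_C_mul, map_sub, map_one]
  apply mul_left_cancel₀ (X_sub_ne i)
  linear_combination ((X i - X (i + 1)) * (1 - C t) - (C t - 1) * X (i + 1)) * h1 +
    (X i - C t * X (i + 1)) * h2

lemma Tb_X_mul (i : ℕ) (f : MvPolynomial ℕ k) :
    Tb t i (X i * f) = X (i + 1) * (Tb t i f + (t - 1) • f) := by
  apply Tb_eq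
  have h1 := Tb_spec t i f
  rw [map_mul, sw_X_left, smul_eq_C_mul, map_sub, map_one]
  linear_combination X (i + 1) * h1

lemma Tb_comm {i j : ℕ} (h : i + 2 ≤ j) (f : MvPolynomial ℕ k) :
    Tb t i (Tb t j f) = Tb t j (Tb t i f) := by
  have h1 := Tb_spec t i (Tb t j f)
  have h2 := Tb_spec t j (Tb t i f)
  have h3 := Tb_spec t j f
  have h4 := Tb_spec t i f
  have h5 := congrArg (sw i) h3
  have h6 := congrArg (sw j) h4
  have e1 : sw (k := k) i (X j) = X j := sw_X_of_ne (by omega) (by omega)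
  have e2 : sw (k := k) i (X (j + 1)) = X (j + 1) := sw_X_of_ne (by omega) (by omega)
  have e3 : sw (k := k) j (X i) = X i := sw_X_of_ne (by omega) (by omega)
  have e4 : sw (k := k) j (X (i + 1)) = X (i + 1) := sw_X_of_ne (by omega) (by omega)
  simp only [map_mul, map_sub, map_add, sw_C, map_one, e1, e2] at h5
  simp only [map_mul, map_sub, map_add, sw_C, map_one, e3, e4] at h6
  rw [sw_comm h] at h5
  apply mul_left_cancel₀ (X_sub_ne i)
  apply mul_left_cancel₀ (X_sub_ne j)
  linear_combination (X j - X (j + 1)) * h1 - (X i - X (i + 1)) * h2 +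
    (C t - 1) * X (i + 1) * h3 - (C t - 1) * X (j + 1) * h4 +
    (X i - C t * X (i + 1)) * h5 - (X j - C t * X (j + 1)) * h6

lemma Tb_braid (i : ℕ) (f : MvPolynomial ℕ k) :
    Tb t i (Tb t (i + 1) (Tb t i f)) = Tb t (i + 1) (Tb t i (Tb t (i + 1) f)) := by
  have x1 : sw (k := k) i (X (i + 1 + 1)) = X (i + 1 + 1) := sw_X_of_ne (by omega) (by omega)
  have x2 : sw (k := k) (i + 1) (X i) = X i := sw_X_of_ne (by omega) (by omega)
  have e1 := Tb_spec t i (Tb t (i + 1) (Tb t i f))
  have e2 := Tb_spec t (i + 1) (Tb t i f)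
  have e3 := congrArg (sw i) e2
  have e4 := Tb_spec t i f
  have e5 := congrArg (sw i) e4
  have e6 := congrArg (sw (i + 1)) e4
  have e7 := congrArg (sw i) e6
  have f1 := Tb_spec t (i + 1) (Tb t i (Tb t (i + 1) f))
  have f2 := Tb_spec t i (Tb t (i + 1) f)
  have f3 := congrArg (sw (i + 1)) f2
  have f4 := Tb_spec t (i + 1) f
  have f5 := congrArg (sw (i + 1)) f4
  have f6 := congrArg (sw i) f4
  have f7 := congrArg (sw (i + 1)) f6
  simp only [map_mul, map_sub, map_add, sw_C, map_one, sw_X_left, sw_X_right, x1, x2, sw_sw]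
    at e3 e5 e6 e7 f3 f5 f6 f7
  rw [sw_braid] at e7
  generalize hu : Tb t i f = u at *
  generalize hu' : Tb t (i + 1) f = u' at *
  generalize hv : Tb t (i + 1) u = v at *
  generalize hv' : Tb t i u' = v' at *
  generalize hw : Tb t i v = w at *
  generalize hw' : Tb t (i + 1) v' = w' at *
  have hac : (X i - X (i + 1 + 1) : MvPolynomial ℕ k) ≠ 0 := X_sub_ne' (by omega)
  apply mul_left_cancel₀ (X_sub_ne (k := k) i)
  apply mul_left_cancel₀ (X_sub_ne (k := k) i)
  apply mul_left_cancel₀ (X_sub_ne (k := k) (i + 1))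
  apply mul_left_cancel₀ (X_sub_ne (k := k) (i + 1))
  apply mul_left_cancel₀ hac
  generalize (X i : MvPolynomial ℕ k) = a at *
  generalize (X (i + 1) : MvPolynomial ℕ k) = b at *
  generalize (X (i + 1 + 1) : MvPolynomial ℕ k) = c at *
  generalize (C t : MvPolynomial ℕ k) = T at *
  linear_combination (a - b) * (b - c) ^ 2 * (a - c) * e1 +
    (a - b) * (b - c) * (a - c) * (T - 1) * b * e2 +
    (a - b) * (b - c) ^ 2 * (a - T * b) * e3 +
    (b - c) * (a - c) * (T - 1) * b * (T - 1) * c * e4 -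
    (b - c) ^ 2 * (a - T * b) * (T - 1) * c * e5 +
    (a - b) * (b - c) * (T - 1) * b * (b - T * c) * e6 +
    (a - b) * (b - c) * (a - T * b) * (a - T * c) * e7 -
    ((a - b) ^ 2 * (b - c) * (a - c) * f1 +
    (a - b) * (b - c) * (a - c) * (T - 1) * c * f2 +
    (a - b) ^ 2 * (b - c) * (b - T * c) * f3 +
    (a - b) * (a - c) * (T - 1) * c * (T - 1) * b * f4 -
    (a - b) ^ 2 * (b - T * c) * (T - 1) * c * f5 +
    (a - b) * (b - c) * (T - 1) * c * (a - T * b) * f6 +
    (a - b) * (b - c) * (b - T * c) * (a - T * c) * f7)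

lemma Tb_sh (i : ℕ) (f : MvPolynomial ℕ k) : Tb t (i + 1) (sh f) = sh (Tb t i f) := by
  apply Tb_eq
  have h := congrArg sh (Tb_spec t i f)
  simp only [map_mul, map_sub, map_add, sh_X, sh_C, map_one] at h
  rw [sw_sh]
  linear_combination h

/-- the operator `T̄_{p-1} ∘ ... ∘ T̄_0` -/
noncomputable def Tup : ℕ → MvPolynomial ℕ k →ₗ[k] MvPolynomial ℕ k
  | 0 => LinearMap.id
  | p + 1 => Tb t p ∘ₗ Tup p

/-- the operator `T̄_p ∘ ... ∘ T̄_1` -/
noncomputable def TupS : ℕ → MvPolynomial ℕ k →ₗ[k] MvPolynomial ℕ k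
  | 0 => LinearMap.id
  | p + 1 => Tb t (p + 1) ∘ₗ TupS p

@[simp] lemma Tup_zero (f : MvPolynomial ℕ k) : Tup t 0 f = f := rfl
@[simp] lemma TupS_zero (f : MvPolynomial ℕ k) : TupS t 0 f = f := rfl
lemma Tup_succ (p : ℕ) (f : MvPolynomial ℕ k) : Tup t (p + 1) f = Tb t p (Tup t p f) := rfl
lemma TupS_succ (p : ℕ) (f : MvPolynomial ℕ k) :
    TupS t (p + 1) f = Tb t (p + 1) (TupS t p f) := rfl

lemma Tup_succ' (p : ℕ) (f : MvPolynomial ℕ k) : Tup t (p + 1) f = TupS t p (Tb t 0 f) := by
  induction p with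
  | zero => rfl
  | succ p ih => rw [Tup_succ, ih, TupS_succ]

lemma sh_Tup (p : ℕ) (f : MvPolynomial ℕ k) : sh (Tup t p f) = TupS t p (sh f) := by
  induction p with
  | zero => rfl
  | succ p ih => rw [Tup_succ, ← Tb_sh, ih, TupS_succ]

lemma Tup_high {i p : ℕ} (h : p + 1 ≤ i) (f : MvPolynomial ℕ k) :
    Tb t i (Tup t p f) = Tup t p (Tb t i f) := by
  induction p with
  | zero => rfl
  | succ p ih =>
    rw [Tup_succ, ← Tb_comm t (by omega), ih (by omega), Tup_succ]

lemma Tup_low {i p : ℕ} (h : i + 1 < p) (f : MvPolynomial ℕ k) :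
    Tb t i (Tup t p f) = Tup t p (Tb t (i + 1) f) := by
  induction p with
  | zero => omega
  | succ p ih =>
    rcases Nat.lt_or_ge (i + 1) p with h1 | h1
    · rw [Tup_succ, Tb_comm t (by omega), ih h1, Tup_succ]
    · obtain rfl : p = i + 1 := by omega
      rw [Tup_succ, Tup_succ, Tb_braid, Tup_high t (by omega), Tup_succ, Tup_succ]

lemma Tup_Tup {j p : ℕ} (h : j ≤ p) (f : MvPolynomial ℕ k) :
    Tup t j (Tup t (p + 1) f) = Tup t (p + 1) (TupS t j f) := by
  induction j with
  | zero => rfl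
  | succ j ih => rw [Tup_succ, ih (by omega), Tup_low t (by omega), TupS_succ]

lemma Tup_mul_symm {p : ℕ} {g : MvPolynomial ℕ k} (hg : ∀ i, i < p → sw i g = g)
    (f : MvPolynomial ℕ k) : Tup t p (g * f) = g * Tup t p f := by
  induction p with
  | zero => rfl
  | succ p ih =>
    rw [Tup_succ, ih (fun i hi => hg i (by omega)), Tb_mul_symm t (hg p (by omega)), Tup_succ]

lemma Tb_inj {t : k} (ht : t ≠ 0) (i : ℕ) : Function.Injective (Tb t i) := by
  intro f g h
  have h1 := Tb_quad t i f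
  have h2 := Tb_quad t i g
  rw [h] at h1
  rw [h1] at h2
  have h3 : t • f = t • g := by
    have := add_left_cancel h2
    exact this
  exact smul_right_injective _ ht h3

lemma Tup_inj {t : k} (ht : t ≠ 0) (p : ℕ) : Function.Injective (Tup t p) := by
  induction p with
  | zero => exact fun _ _ h => h
  | succ p ih => exact fun _ _ h => ih (Tb_inj ht p h)

end Pool.Agent.TH421.Cat
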