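import Pool.Agent.TH421.Cat.Pieri

/-! The constant coefficient pairing. -/

set_option autoImplicit false

namespace Pool.Agent.TH421.Cat

open MvPolynomial

variable {k : Type*} [Field k]

/-- a polynomial as a polynomial in `X 0` whose coefficients are polynomials in the shifted
variables -/
noncomputable def Xi : MvPolynomial ℕ k →ₐ[k] Polynomial (MvPolynomial ℕ k) :=
  aeval (fun j => Nat.casesOn j Polynomial.X (fun j => Polynomial.C (X j)))

@[simp] lemma Xi_X_zero : Xi (k := k) (X 0) = Polynomial.X := by simp [Xi]
@[simp] lemma Xi_X_succ (j : ℕ) : Xi (k := k) (X (j + 1)) = Polynomial.C (X j) := by simp [Xi]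

@[simp] lemma Xi_C (a : k) : Xi (C a) = Polynomial.C (C a) := by
  rw [Xi, aeval_C]
  rfl

@[simp] lemma Xi_sh (f : MvPolynomial ℕ k) : Xi (sh f) = Polynomial.C f := by
  induction f using MvPolynomial.induction_on with
  | C a => simp
  | add p q hp hq => rw [map_add, map_add, hp, hq, map_add]
  | mul_X p j hp => rw [map_mul, map_mul, hp, sh_X, Xi_X_succ, ← map_mul]

lemma Xi_mono (a : ℕ) (f : MvPolynomial ℕ k) :
    Xi (X 0 ^ a * sh f) = Polynomial.monomial a f := by
  rw [map_mul, map_pow, Xi_X_zero, Xi_sh, mul_comm, Polynomial.C_mul_X_pow_eq_monomial]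

lemma Xi_recon' (f : MvPolynomial ℕ k) :
    Polynomial.eval₂ (sh (k := k)).toRingHom (X 0) (Xi f) = f := by
  induction f using MvPolynomial.induction_on with
  | C a => simp
  | add p q hp hq => rw [map_add, Polynomial.eval₂_add, hp, hq]
  | mul_X p j hp =>
    rw [map_mul, Polynomial.eval₂_mul, hp]
    rcases j with _ | j <;> simp

lemma Xi_recon (f : MvPolynomial ℕ k) :
    ((Xi f).sum fun a fa => X 0 ^ a * sh fa) = f := by
  conv_rhs => rw [← Xi_recon' f, Polynomial.eval₂_eq_sum]
  simp only [mul_comm]
  rfl

/-- expansion into terms `X 0 ^ a * sh g` -/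
lemma P_induction {motive : MvPolynomial ℕ k → Prop} (f : MvPolynomial ℕ k)
    (add : ∀ f g, motive f → motive g → motive (f + g))
    (mono : ∀ a g, motive (X 0 ^ a * sh g)) : motive f := by
  rw [← Xi_recon f, Polynomial.sum_def]
  have h0 : motive 0 := by simpa using mono 0 0
  apply Finset.sum_induction _ motive add h0
  intro a _
  exact mono a _

/-- recursion step for the pairing -/
noncomputable def aux (B : MvPolynomial ℕ k →ₗ[k] MvPolynomial ℕ k →ₗ[k] k)
    (ρ : ℕ → MvPolynomial ℕ k) : MvPolynomial ℕ k →ₗ[k] MvPolynomial ℕ k →ₗ[k] k :=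
  LinearMap.mk₂ k (fun f g => (Xi f).sum fun a fa => (Xi g).sum fun b gb =>
      if a ≤ b then B fa (ρ (b - a) * gb) else 0)
    (by
      intro f f' g
      rw [map_add, Polynomial.sum_add_index]
      · intro a
        simp [Polynomial.sum_def]
      · intro a x y
        rw [← Polynomial.sum_add]
        congr 1
        funext b gb
        split_ifs <;> simp)
    (by
      intro c f g
      rw [map_smul, Polynomial.sum_smul_index']
      · rw [Polynomial.smul_sum]
        congr 1
        funext a fa
        rw [Polynomial.smul_sum]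
        congr 1
        funext b gb
        split_ifs <;> simp
      · intro a
        simp [Polynomial.sum_def])
    (by
      intro f g g'
      rw [← Polynomial.sum_add]
      congr 1
      funext a fa
      rw [map_add, Polynomial.sum_add_index]
      · intro b
        simp
      · intro b x y
        split_ifs <;> simp [mul_add])
    (by
      intro c f g
      rw [Polynomial.smul_sum]
      congr 1
      funext a fa
      rw [map_smul, Polynomial.sum_smul_index']
      · rw [Polynomial.smul_sum]
        congr 1
        funext b gb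
        split_ifs <;> simp
      · intro b
        simp)

lemma aux_mono (B : MvPolynomial ℕ k →ₗ[k] MvPolynomial ℕ k →ₗ[k] k)
    (ρ : ℕ → MvPolynomial ℕ k) (a b : ℕ) (f g : MvPolynomial ℕ k) :
    aux B ρ (X 0 ^ a * sh f) (X 0 ^ b * sh g) = if a ≤ b then B f (ρ (b - a) * g) else 0 := by
  rw [aux, LinearMap.mk₂_apply, Xi_mono, Xi_mono, Polynomial.sum_monomial_index,
    Polynomial.sum_monomial_index]
  · simp
  · rw [Polynomial.sum_monomial_index] <;> simp

/-- two bilinear forms agreeing on basic terms agree -/
lemma bilin_ext {B B' : MvPolynomial ℕ k →ₗ[k] MvPolynomial ℕ k →ₗ[k] k}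
    (h : ∀ a b f g, B (X 0 ^ a * sh f) (X 0 ^ b * sh g) = B' (X 0 ^ a * sh f) (X 0 ^ b * sh g)) :
    B = B' := by
  apply LinearMap.ext
  intro f
  apply LinearMap.ext
  intro g
  induction f using P_induction with
  | add f f' h1 h2 => rw [map_add, map_add, LinearMap.add_apply, LinearMap.add_apply, h1, h2]
  | mono a f =>
    induction g using P_induction with
    | add g g' h1 h2 => rw [map_add, map_add, h1, h2]
    | mono b g => exact h a b f g

end Pool.Agent.TH421.Cat
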