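import Pool.Agent.TH421.Cat.Series

/-! The Pieri rule. -/

set_option autoImplicit false

namespace Pool.Agent.TH421.Cat

open MvPolynomial

variable {k : Type*} [Field k] {t : k}

lemma MM_cnt (ν : List ℕ) (b : ℕ) : MM ν b + ν.length = MM ν (b + 1) + cnt b ν := by
  induction ν with
  | nil => simp [cnt]
  | cons x ν ih =>
    rw [MM_cons, MM_cons, cnt_cons, List.length_cons]
    split_ifs <;> push_cast <;> omega

lemma ex_snoc_zero {ν μ : List ℕ} (hl : ν.length = μ.length) :
    ex (ν ++ [0]) (μ ++ [0]) = ex ν μ := by
  rw [ex_snoc hl]; simp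

lemma ex_snoc_succ {ν μ : List ℕ} (hl : ν.length = μ.length) (b : ℕ) :
    ex (ν ++ [b + 1]) (μ ++ [0]) = ex (b :: ν) (0 :: μ) + cnt b ν := by
  rw [ex_snoc hl, ex_cons]
  have := MM_cnt ν b
  simp
  omega

lemma forall_snoc {ν μ : List ℕ} (hl : ν.length = μ.length) (c : ℕ) :
    List.Forall₂ (· ≤ ·) (μ ++ [0]) (ν ++ [c]) ↔ List.Forall₂ (· ≤ ·) μ ν := by
  induction ν generalizing μ with
  | nil =>
    rcases μ with _ | ⟨u, μ⟩
    · simp
    · simp at hl
  | cons v ν ih =>
    rcases μ with _ | ⟨u, μ⟩
    · simp at hl
    · simp only [List.length_cons, Nat.add_right_cancel_iff] at hl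
      rw [List.cons_append, List.cons_append, List.forall₂_cons, List.forall₂_cons, ih hl]

lemma Cf_snoc_zero (ht : t ≠ 0) {ν μ : List ℕ} (hl : ν.length = μ.length) :
    Cf t (ν ++ [0]) (μ ++ [0]) = Cf t ν μ := by
  by_cases h : List.Forall₂ (· ≤ ·) μ ν
  · rw [Cf_pos ht h, Cf_pos ht ((forall_snoc hl 0).2 h), ex_snoc_zero hl]
  · rw [Cf_neg h, Cf_neg (fun h' => h ((forall_snoc hl 0).1 h'))]

lemma Cf_snoc_succ (ht : t ≠ 0) {ν μ : List ℕ} (hl : ν.length = μ.length) (b : ℕ) :
    Cf t (ν ++ [b + 1]) (μ ++ [0]) = t ^ cnt b ν * Cf t (b :: ν) (0 :: μ) := by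
  by_cases h : List.Forall₂ (· ≤ ·) μ ν
  · rw [Cf_pos ht ((forall_snoc hl _).2 h), ex_snoc_succ hl,
      Cf_pos ht (List.Forall₂.cons (Nat.zero_le _) h), zpow_add₀ ht, zpow_natCast, mul_comm]
  · rw [Cf_neg (fun h' => h ((forall_snoc hl _).1 h')), Cf_cons, Cf_neg h]
    simp

lemma sum_antidiag_zero {M : Type*} [AddCommMonoid M] (n : ℕ) (F : ℕ × ℕ → M) :
    ∑ p ∈ Finset.HasAntidiagonal.antidiagonal (n + 1), F p =
      F (0, n + 1) + ∑ p ∈ Finset.HasAntidiagonal.antidiagonal n, F (p.1 + 1, p.2) :=
  Finset.Nat.sum_antidiagonal_succ

/-- the Pieri rule -/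
theorem pieri (ht : t ≠ 0) (l j : ℕ) : ∀ μ : List ℕ, μ.length = l →
    hk l j * G t μ = ∑ ν ∈ S l (μ.sum + j), Cf t ν μ • G t ν := by
  induction l generalizing j with
  | zero =>
    intro μ hμ
    rw [List.length_eq_zero_iff] at hμ
    subst hμ
    rw [hk_zero, G_nil, S]
    split_ifs with h1 h2 h2
    · simp
    · simp at h2; omega
    · simp at h2; omega
    · simp
  | succ l ihl =>
    induction j with
    | zero =>
      intro μ hμ
      rw [hk_zero_right, one_mul, add_zero]
      have hm : μ ∈ S (l + 1) μ.sum := mem_S.2 ⟨hμ, rfl⟩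
      rw [Finset.sum_eq_single_of_mem μ hm, Cf_self hm hm, if_pos rfl, one_smul]
      intro ν hν hne
      rw [Cf_self hν hm, if_neg hne, zero_smul]
    | succ j ihj =>
      -- first the case of a leading zero
      have front : ∀ μ : List ℕ, μ.length = l →
          hk (l + 1) (j + 1) * G t (0 :: μ) =
            ∑ ν ∈ S (l + 1) ((0 :: μ).sum + (j + 1)), Cf t ν (0 :: μ) • G t ν := by
        intro μ hμ
        apply Tup_inj ht l
        have hR : Tup t l (∑ ν ∈ S (l + 1) ((0 :: μ).sum + (j + 1)), Cf t ν (0 :: μ) • G t ν) =
            ∑ ν ∈ S (l + 1) (μ.sum + j + 1), Cf t ν (μ ++ [0]) • G t ν := by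
          have := Tup_sum_C ht (μ.sum + j + 1) 0 μ [] (fun x _ => Nat.zero_le x)
          rw [List.append_nil, hμ, List.length_append, List.length_singleton, hμ] at this
          rw [← this, List.sum_cons, zero_add, add_assoc]
        rw [hR, hk_succ, add_mul, mul_assoc, ihj (0 :: μ) (by simp [hμ]), G_zero_cons,
          ← map_mul, ihl (j + 1) μ hμ, map_add, Finset.mul_sum, map_sum, map_sum, map_sum,
          sum_S_snoc l (μ.sum + j + 1) (fun ν => Cf t ν (μ ++ [0]) • G t ν), sum_antidiag_zero,
          add_comm]
        congr 1
        · apply Finset.sum_congr rfl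
          intro ν hν
          rw [mem_S] at hν
          rw [map_smul, map_smul, ← G_zero_cons, Cf_snoc_zero ht (by omega)]
          have := Tup_G t 0 ν [] (fun x _ => Nat.zero_le x)
          rw [List.append_nil, hν.1] at this
          rw [this]
        · rw [List.sum_cons, zero_add, sum_S_cons]
          apply Finset.sum_congr rfl
          intro p _
          apply Finset.sum_congr rfl
          intro ν hν
          rw [mem_S] at hν
          rw [mul_smul_comm, map_smul, Cf_snoc_succ ht (by omega), ← hν.1, rot_G, smul_smul,
            mul_comm]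
      intro μ hμ
      induction hs : μ.sum using Nat.strong_induction_on generalizing μ with
      | _ s ihs =>
        subst hs
        by_cases h0 : 0 ∈ μ
        · obtain ⟨α, β, hα, rfl⟩ := exists_split h0
          have h1 := Tup_G t 0 α β (fun x _ => Nat.zero_le x)
          have h2 := front (α ++ β) (by
            simp only [List.length_append, List.length_cons] at hμ ⊢; omega)
          have h3 : α.length ≤ l := by
            simp only [List.length_append, List.length_cons] at hμ; omega
          have h4 := Tup_sum_C ht ((α ++ 0 :: β).sum + (j + 1)) 0 α β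
            (fun x _ => Nat.zero_le x)
          rw [hμ] at h4
          have h6 : ∀ i, i < α.length → sw i (hk (k := k) (l + 1) (j + 1)) = hk (l + 1) (j + 1) :=
            fun i hi => sw_rc geo (by omega) (j + 1)
          rw [← h1, ← Tup_mul_symm t h6, ← h4]
          congr 1
          have h5 : (0 :: (α ++ β)).sum = (α ++ 0 :: β).sum := by simp
          rw [h5] at h2
          exact h2
        · obtain ⟨μ', rfl⟩ := exists_succL h0
          rw [length_succL] at hμ
          have hlt : μ'.sum < (succL μ').sum := by rw [sum_succL]; omega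
          have IH := ihs μ'.sum hlt μ' hμ rfl
          rw [G_succL, mul_left_comm, IH, Finset.mul_sum]
          apply Finset.sum_of_injOn succL
          · intro a _ b _ h
            have := congrArg predL h
            rwa [predL_succL, predL_succL] at this
          · intro ν hν
            rw [Finset.mem_coe, mem_S] at hν ⊢
            rw [length_succL, sum_succL, sum_succL]
            omega
          · intro ν hν hne
            rw [mem_S] at hν
            rw [Cf_neg, zero_smul]
            intro hf
            apply hne
            have h7 : 0 ∉ ν := by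
              intro h8
              have : ∀ {a b : List ℕ}, List.Forall₂ (· ≤ ·) a b → 0 ∈ b → 0 ∈ a := by
                intro a b hab
                induction hab with
                | nil => exact id
                | cons h _ ih =>
                  intro h9
                  rcases List.mem_cons.1 h9 with h9 | h9
                  · rw [← h9] at h
                    rw [List.mem_cons]; left; omega
                  · rw [List.mem_cons]; right; exact ih h9
              exact zero_notMem_succL μ' (this hf h8)
            refine ⟨predL ν, ?_, succL_predL h7⟩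
            rw [Finset.mem_coe, mem_S, length_predL]
            have := sum_predL h7
            rw [sum_succL] at hν
            omega
          · intro ν hν
            rw [mem_S] at hν
            rw [Cf_succL, G_succL, mul_smul_comm, hμ, hν.1]

end Pool.Agent.TH421.Cat
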