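import Pool.Agent.TH421.Cat.Coef

/-! Products of power series and the Pieri rule. -/

set_option autoImplicit false

namespace Pool.Agent.TH421.Cat

open MvPolynomial

variable {k : Type*} [Field k]

/-- the series `c (X j z)` -/
noncomputable def fac (c : PowerSeries k) (j : ℕ) : PowerSeries (MvPolynomial ℕ k) :=
  PowerSeries.rescale (X j) (PowerSeries.map C c)

lemma coeff_fac (c : PowerSeries k) (j n : ℕ) :
    PowerSeries.coeff n (fac c j) = X j ^ n * C (PowerSeries.coeff n c) := by
  rw [fac, PowerSeries.coeff_rescale, PowerSeries.coeff_map]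

lemma fac_mul (c d : PowerSeries k) (j : ℕ) : fac (c * d) j = fac c j * fac d j := by
  rw [fac, map_mul, map_mul, fac, fac]

@[simp] lemma fac_one (j : ℕ) : fac (1 : PowerSeries k) j = 1 := by
  rw [fac, map_one, map_one]

lemma map_sh_fac (c : PowerSeries k) (j : ℕ) :
    PowerSeries.map (sh (k := k)).toRingHom (fac c j) = fac c (j + 1) := by
  ext1 n
  rw [PowerSeries.coeff_map, coeff_fac, coeff_fac]
  simp

lemma map_sw_fac (c : PowerSeries k) (i j : ℕ) :
    PowerSeries.map (sw (k := k) i).toRingHom (fac c j) = fac c (Equiv.swap i (i + 1) j) := by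
  ext1 n
  rw [PowerSeries.coeff_map, coeff_fac, coeff_fac]
  simp [sw]

/-- the series `c (X 0 z) ... c (X (n-1) z)` -/
noncomputable def Phi (c : PowerSeries k) (n : ℕ) : PowerSeries (MvPolynomial ℕ k) :=
  ∏ j ∈ Finset.range n, fac c j

lemma Phi_mul (c d : PowerSeries k) (n : ℕ) : Phi (c * d) n = Phi c n * Phi d n := by
  rw [Phi, Phi, Phi, ← Finset.prod_mul_distrib]
  exact Finset.prod_congr rfl (fun j _ => fac_mul c d j)

@[simp] lemma Phi_one (n : ℕ) : Phi (1 : PowerSeries k) n = 1 := by
  rw [Phi]; simp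

@[simp] lemma Phi_zero (c : PowerSeries k) : Phi c 0 = 1 := by
  rw [Phi]; simp

lemma Phi_succ (c : PowerSeries k) (n : ℕ) :
    Phi c (n + 1) = fac c 0 * PowerSeries.map (sh (k := k)).toRingHom (Phi c n) := by
  rw [Phi, Finset.prod_range_succ', mul_comm, Phi, map_prod]
  congr 1
  exact Finset.prod_congr rfl (fun j _ => (map_sh_fac c j).symm)

lemma sw_Phi (c : PowerSeries k) {i n : ℕ} (h : i + 1 < n) :
    PowerSeries.map (sw (k := k) i).toRingHom (Phi c n) = Phi c n := by
  rw [Phi, map_prod]
  apply Finset.prod_nbij' (fun j => Equiv.swap i (i + 1) j) (fun j => Equiv.swap i (i + 1) j)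
  · intro j hj
    simp only [Finset.mem_range] at hj ⊢
    rw [Equiv.swap_apply_def]
    split_ifs <;> omega
  · intro j hj
    simp only [Finset.mem_range] at hj ⊢
    rw [Equiv.swap_apply_def]
    split_ifs <;> omega
  · intro j _; simp
  · intro j _; simp
  · intro j _; exact map_sw_fac c i j

/-- coefficients of `Phi` -/
noncomputable def rc (c : PowerSeries k) (n e : ℕ) : MvPolynomial ℕ k :=
  PowerSeries.coeff e (Phi c n)

lemma rc_zero (c : PowerSeries k) (e : ℕ) : rc c 0 e = if e = 0 then 1 else 0 := by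
  rw [rc, Phi_zero, PowerSeries.coeff_one]

lemma rc_succ (c : PowerSeries k) (n e : ℕ) : rc c (n + 1) e =
    ∑ p ∈ Finset.HasAntidiagonal.antidiagonal e,
      (X 0 ^ p.1 * C (PowerSeries.coeff p.1 c)) * sh (rc c n p.2) := by
  rw [rc, Phi_succ, PowerSeries.coeff_mul]
  apply Finset.sum_congr rfl
  intro p _
  rw [coeff_fac, PowerSeries.coeff_map, rc]
  rfl

lemma rc_mul (c d : PowerSeries k) (n e : ℕ) : rc (c * d) n e =
    ∑ p ∈ Finset.HasAntidiagonal.antidiagonal e, rc c n p.1 * rc d n p.2 := by
  rw [rc, Phi_mul, PowerSeries.coeff_mul]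
  rfl

lemma rc_one (n e : ℕ) : rc (1 : PowerSeries k) n e = if e = 0 then 1 else 0 := by
  rw [rc, Phi_one, PowerSeries.coeff_one]

lemma sw_rc (c : PowerSeries k) {i n : ℕ} (h : i + 1 < n) (e : ℕ) :
    sw i (rc c n e) = rc c n e := by
  conv_rhs => rw [rc, ← sw_Phi c h, PowerSeries.coeff_map]
  rfl

lemma coeff_zero_Phi (c : PowerSeries k) (h : PowerSeries.coeff 0 c = 1) (n : ℕ) :
    PowerSeries.coeff 0 (Phi c n) = 1 := by
  induction n with
  | zero => rw [Phi_zero]; simp
  | succ n ih =>
    have := rc_succ c n 0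
    rw [rc] at this
    rw [this]
    simp only [Finset.HasAntidiagonal.antidiagonal_zero, Finset.sum_singleton, rc, ih, h]
    simp

/-- the geometric series -/
def geo : PowerSeries k := PowerSeries.mk (fun _ => 1)

lemma geo_mul : (geo : PowerSeries k) * (1 - PowerSeries.X) = 1 :=
  PowerSeries.mk_one_mul_one_sub_eq_one k

/-- complete homogeneous polynomial of degree `j` in `l` variables -/
noncomputable def hk (l j : ℕ) : MvPolynomial ℕ k := rc geo l j

lemma hk_zero (j : ℕ) : hk (k := k) 0 j = if j = 0 then 1 else 0 := rc_zero _ _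

lemma hk_zero_right (l : ℕ) : hk (k := k) l 0 = 1 :=
  coeff_zero_Phi _ (by simp [geo]) l

lemma hk_succ (l j : ℕ) :
    hk (k := k) (l + 1) (j + 1) = X 0 * hk (l + 1) j + sh (hk l (j + 1)) := by
  rw [hk, rc_succ, Finset.Nat.sum_antidiagonal_succ, add_comm, hk, rc_succ, Finset.mul_sum, hk]
  congr 1
  · apply Finset.sum_congr rfl
    intro p _
    simp only [geo, PowerSeries.coeff_mk]
    ring
  · simp [geo]

variable {t : k}

lemma Cf_self {l n : ℕ} {ν μ : List ℕ} (hν : ν ∈ S l n) (hμ : μ ∈ S l n) :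
    Cf t ν μ = if ν = μ then 1 else 0 := by
  induction l generalizing n ν μ with
  | zero =>
    rw [mem_S] at hν hμ
    rw [List.length_eq_zero_iff] at hν hμ
    rw [hν.1, hμ.1]; simp
  | succ l ih =>
    rw [mem_S] at hν hμ
    rcases ν with _ | ⟨v, ν⟩
    · simp at hν
    rcases μ with _ | ⟨u, μ⟩
    · simp at hμ
    simp only [List.length_cons, List.sum_cons, Nat.add_right_cancel_iff] at hν hμ
    rw [Cf_cons]
    by_cases huv : u ≤ v
    · rcases Nat.eq_or_lt_of_le huv with h | h
      · subst h
        have h1 : ν ∈ S l ν.sum := mem_S.2 ⟨hν.1, rfl⟩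
        have h2 : μ ∈ S l ν.sum := mem_S.2 ⟨hμ.1, by omega⟩
        rw [ih h1 h2, if_pos le_rfl]
        by_cases h3 : ν = μ
        · subst h3; simp
        · rw [if_neg h3, if_neg (by simpa using h3), mul_zero]
      · have : Cf t ν μ = 0 := by
          apply Cf_neg
          intro h'
          have : μ.sum ≤ ν.sum := List.Forall₂.sum_le_sum h'
          omega
        rw [this, mul_zero, if_neg (by
          intro h'
          simp only [List.cons.injEq] at h'
          omega)]
    · rw [if_neg huv, zero_mul, if_neg (by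
        intro h'
        simp only [List.cons.injEq] at h'
        omega)]

lemma Cf_succL (ν μ : List ℕ) : Cf t (succL ν) (succL μ) = Cf t ν μ := by
  induction ν generalizing μ with
  | nil =>
    rcases μ with _ | ⟨u, μ⟩
    · rfl
    · rfl
  | cons v ν ih =>
    rcases μ with _ | ⟨u, μ⟩
    · rfl
    · rw [succL_cons, succL_cons, Cf_cons, Cf_cons, ih, MM_succL, MM_succL, MM_succL, MM_succL]
      have e : (MM ν (v + 1) + ↑ν.length - (MM ν u + ↑ν.length) -
        (MM μ (v + 1) + ↑μ.length - (MM μ u + ↑μ.length))) =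
        (MM ν (v + 1) - MM ν u - (MM μ (v + 1) - MM μ u)) := by ring
      rw [e]
      simp only [Nat.add_le_add_iff_right]

/-- append formula for the exponent -/
lemma ex_snoc {ν μ : List ℕ} (hl : ν.length = μ.length) (c d : ℕ) :
    ex (ν ++ [c]) (μ ++ [d]) = ex ν μ + (ν.length + MM ν (c - 1) - (ν.length + MM ν (d - 1)))
      - (MM μ c - MM μ d) + (if c = 0 then - (ν.length : ℤ) else 0)
      - (if d = 0 then - (ν.length : ℤ) else 0) := by
  induction ν generalizing μ with
  | nil =>
    rcases μ with _ | ⟨u, μ⟩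
    · simp [ex]
    · simp at hl
  | cons v ν ih =>
    rcases μ with _ | ⟨u, μ⟩
    · simp at hl
    · simp only [List.length_cons, Nat.add_right_cancel_iff] at hl
      rw [List.cons_append, List.cons_append, ex_cons, ex_cons, ih hl]
      simp only [MM_append, MM_cons, MM_nil, List.length_cons]
      split_ifs <;> push_cast <;> omega

end Pool.Agent.TH421.Cat
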