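import Pool.Agent.TH421.Cat.GPoly

/-! Action of the operators on linear combinations of the `G ν`. -/

set_option autoImplicit false

namespace Pool.Agent.TH421.Cat

open MvPolynomial

variable {k : Type*} [Field k]

/-- lists of length `l` and sum `n` -/
def S : ℕ → ℕ → Finset (List ℕ)
  | 0, n => if n = 0 then {[]} else ∅
  | l + 1, n => (Finset.HasAntidiagonal.antidiagonal n).biUnion
      (fun p => (S l p.2).image (fun ν => p.1 :: ν))

lemma mem_S {l n : ℕ} {ν : List ℕ} : ν ∈ S l n ↔ ν.length = l ∧ ν.sum = n := by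
  induction l generalizing n ν with
  | zero =>
    rw [S]
    split_ifs with h
    · subst h
      simp only [Finset.mem_singleton, List.length_eq_zero_iff]
      constructor
      · rintro rfl; simp
      · exact fun h => h.1
    · simp only [Finset.notMem_empty, List.length_eq_zero_iff, false_iff, not_and]
      rintro rfl
      simpa using fun h' => h h'.symm
  | succ l ih =>
    rw [S]
    simp only [Finset.mem_biUnion, Finset.HasAntidiagonal.mem_antidiagonal, Finset.mem_image]
    constructor
    · rintro ⟨⟨a, b⟩, h1, ν', h2, rfl⟩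
      rw [ih] at h2
      simp only at h1 h2
      simp only [List.length_cons, List.sum_cons]
      omega
    · rintro ⟨h1, h2⟩
      rcases ν with _ | ⟨a, ν'⟩
      · simp at h1
      · refine ⟨(a, ν'.sum), ?_, ν', ?_, rfl⟩
        · simpa using h2
        · rw [ih]; simpa using h1

lemma sum_S_cons {M : Type*} [AddCommMonoid M] (l n : ℕ) (F : List ℕ → M) :
    ∑ ν ∈ S (l + 1) n, F ν =
      ∑ p ∈ Finset.HasAntidiagonal.antidiagonal n, ∑ ν ∈ S l p.2, F (p.1 :: ν) := by
  rw [S, Finset.sum_biUnion]
  · apply Finset.sum_congr rfl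
    intro p _
    rw [Finset.sum_image]
    intro a _ b _ h
    simpa using h
  · intro p hp p' hp' hne
    rw [Function.onFun, Finset.disjoint_left]
    intro ν h1 h2
    simp only [Finset.mem_image] at h1 h2
    obtain ⟨ν1, h1, rfl⟩ := h1
    obtain ⟨ν2, h2, h3⟩ := h2
    apply hne
    have hp := Finset.HasAntidiagonal.mem_antidiagonal.1 (Finset.mem_coe.1 hp)
    have hp' := Finset.HasAntidiagonal.mem_antidiagonal.1 (Finset.mem_coe.1 hp')
    simp only [List.cons.injEq] at h3
    ext
    · exact h3.1.symm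
    · have := h3.1
      omega

lemma sum_S_snoc {M : Type*} [AddCommMonoid M] (l n : ℕ) (F : List ℕ → M) :
    ∑ ν ∈ S (l + 1) n, F ν =
      ∑ p ∈ Finset.HasAntidiagonal.antidiagonal n, ∑ ν ∈ S l p.2, F (ν ++ [p.1]) := by
  rw [← Finset.sum_sigma (Finset.HasAntidiagonal.antidiagonal n) (fun p => S l p.2)
    (fun x => F (x.2 ++ [x.1.1]))]
  symm
  apply Finset.sum_bij (fun (x : Σ _ : ℕ × ℕ, List ℕ) _ => x.2 ++ [x.1.1])
  · rintro ⟨⟨a, b⟩, ν⟩ h
    simp only [Finset.mem_sigma, Finset.HasAntidiagonal.mem_antidiagonal, mem_S] at h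
    rw [mem_S]
    simp only [List.length_append, List.length_cons, List.length_nil, List.sum_append,
      List.sum_cons, List.sum_nil]
    omega
  · rintro ⟨⟨a, b⟩, ν⟩ h ⟨⟨a', b'⟩, ν'⟩ h' he
    simp only [Finset.mem_sigma, Finset.HasAntidiagonal.mem_antidiagonal, mem_S] at h h'
    simp only at he
    have := List.append_inj' he (by simp)
    obtain ⟨h1, h2⟩ := this
    subst h1
    simp only [List.cons.injEq, and_true] at h2
    subst h2
    have : b = b' := by omega
    subst this
    rfl
  · intro ν hν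
    rw [mem_S] at hν
    have hne : ν ≠ [] := by
      rintro rfl; simp at hν
    refine ⟨⟨(ν.getLast hne, ν.dropLast.sum), ν.dropLast⟩, ?_, ?_⟩
    · simp only [Finset.mem_sigma, Finset.HasAntidiagonal.mem_antidiagonal, mem_S]
      have h1 := List.dropLast_append_getLast hne
      have h2 : (ν.dropLast ++ [ν.getLast hne]).sum = n := by rw [h1]; exact hν.2
      simp only [List.sum_append, List.sum_cons, List.sum_nil] at h2
      refine ⟨by omega, ?_, trivial⟩
      rw [List.length_dropLast]; omega
    · exact List.dropLast_append_getLast hne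
  · intro _ _; rfl

/-- exchange the entries number `i` and `i+1` -/
def swl : ℕ → List ℕ → List ℕ
  | 0, x :: y :: l => y :: x :: l
  | i + 1, x :: l => x :: swl i l
  | _, l => l

/-- is entry number `i` greater than entry number `i+1`? -/
def gt : ℕ → List ℕ → Bool
  | 0, x :: y :: _ => decide (y < x)
  | i + 1, _ :: l => gt i l
  | _, _ => false

@[simp] lemma swl_zero (x y : ℕ) (l : List ℕ) : swl 0 (x :: y :: l) = y :: x :: l := rfl
@[simp] lemma swl_succ (i x : ℕ) (l : List ℕ) : swl (i + 1) (x :: l) = x :: swl i l := by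
  simp [swl]
@[simp] lemma gt_zero (x y : ℕ) (l : List ℕ) : gt 0 (x :: y :: l) = decide (y < x) := rfl
@[simp] lemma gt_succ (i x : ℕ) (l : List ℕ) : gt (i + 1) (x :: l) = gt i l := by
  simp [gt]

lemma swl_perm (i : ℕ) (l : List ℕ) : (swl i l).Perm l := by
  induction i generalizing l with
  | zero =>
    rcases l with _ | ⟨x, _ | ⟨y, l⟩⟩
    · exact List.Perm.refl _
    · exact List.Perm.refl _
    · exact List.Perm.swap _ _ _
  | succ i ih =>
    rcases l with _ | ⟨x, l⟩
    · exact List.Perm.refl _
    · rw [swl_succ]; exact (ih l).cons x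

lemma swl_swl (i : ℕ) (l : List ℕ) : swl i (swl i l) = l := by
  induction i generalizing l with
  | zero =>
    rcases l with _ | ⟨x, _ | ⟨y, l⟩⟩ <;> rfl
  | succ i ih =>
    rcases l with _ | ⟨x, l⟩
    · rfl
    · rw [swl_succ, swl_succ, ih]

lemma swl_append (pre post : List ℕ) (x y : ℕ) :
    swl pre.length (pre ++ x :: y :: post) = pre ++ y :: x :: post := by
  induction pre with
  | nil => rfl
  | cons a pre ih => simp [ih]

lemma gt_append (pre post : List ℕ) (x y : ℕ) :
    gt pre.length (pre ++ x :: y :: post) = decide (y < x) := by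
  induction pre with
  | nil => rfl
  | cons a pre ih => simp [ih]

lemma exists_pre_post {i : ℕ} {l : List ℕ} (h : i + 1 < l.length) :
    ∃ (pre post : List ℕ) (x y : ℕ), l = pre ++ x :: y :: post ∧ pre.length = i := by
  induction i generalizing l with
  | zero =>
    rcases l with _ | ⟨x, _ | ⟨y, l⟩⟩
    · simp at h
    · simp at h
    · exact ⟨[], l, x, y, rfl, rfl⟩
  | succ i ih =>
    rcases l with _ | ⟨x, l⟩
    · simp at h
    · obtain ⟨pre, post, a, b, h1, h2⟩ := ih (l := l) (by simpa using h)
      exact ⟨x :: pre, post, a, b, by rw [h1]; rfl, by simp [h2]⟩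

lemma swl_mem_S {i l n : ℕ} {ν : List ℕ} (h : ν ∈ S l n) : swl i ν ∈ S l n := by
  rw [mem_S] at h ⊢
  rw [(swl_perm i ν).length_eq, (swl_perm i ν).sum_eq]
  exact h

variable (t : k)

lemma Tb_G' {i : ℕ} {ν : List ℕ} (h : i + 1 < ν.length) :
    Tb t i (G t ν) = (if gt i ν then t else 1) • G t (swl i ν) +
      (if gt i ν then 1 - t else 0) • G t ν := by
  obtain ⟨pre, post, x, y, rfl, rfl⟩ := exists_pre_post h
  rw [swl_append, gt_append]
  by_cases hxy : x ≤ y
  · rw [Tb_G t pre post x y hxy, if_neg (by simpa using hxy), if_neg (by simpa using hxy)]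
    simp
  · have h1 : y ≤ x := by omega
    have h2 := Tb_G t pre post y x h1
    rw [if_pos (by simpa using hxy), if_pos (by simpa using hxy)]
    conv_lhs => rw [← h2]
    rw [Tb_quad, h2, add_comm]

/-- the action on coefficient functions -/
def TT (i : ℕ) (r : List ℕ → k) (ν : List ℕ) : k :=
  (if gt i (swl i ν) then t else 1) * r (swl i ν) + (if gt i ν then 1 - t else 0) * r ν

lemma TT_sum {i l n : ℕ} (h : i + 1 < l) (r : List ℕ → k) :
    Tb t i (∑ ν ∈ S l n, r ν • G t ν) = ∑ ν ∈ S l n, TT t i r ν • G t ν := by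
  rw [map_sum]
  have h1 : ∀ ν ∈ S l n, Tb t i (r ν • G t ν) =
      (r ν * (if gt i ν then t else 1)) • G t (swl i ν) +
      ((if gt i ν then 1 - t else 0) * r ν) • G t ν := by
    intro ν hν
    rw [mem_S] at hν
    rw [map_smul, Tb_G' t (by omega), smul_add, smul_smul, smul_smul]
    congr 2
    ring
  rw [Finset.sum_congr rfl h1, Finset.sum_add_distrib]
  have h2 : ∑ ν ∈ S l n, (r ν * (if gt i ν then t else 1)) • G t (swl i ν) =
      ∑ ν ∈ S l n, ((if gt i (swl i ν) then t else 1) * r (swl i ν)) • G t ν := by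
    apply Finset.sum_nbij' (swl i) (swl i)
    · intro ν hν; exact swl_mem_S hν
    · intro ν hν; exact swl_mem_S hν
    · intro ν _; exact swl_swl i ν
    · intro ν _; exact swl_swl i ν
    · intro ν _
      rw [swl_swl, mul_comm]
  rw [h2, ← Finset.sum_add_distrib]
  apply Finset.sum_congr rfl
  intro ν _
  rw [TT, add_smul]

end Pool.Agent.TH421.Cat
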