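import Pool.Agent.TH421.Cat.Dual

/-! The trace lemma. -/

set_option autoImplicit false

namespace Pool.Agent.TH421.Cat

open MvPolynomial

variable {k : Type*} [Field k]

/-- add `m` to all entries -/
def addL (m : ℕ) (ν : List ℕ) : List ℕ := ν.map (fun x => x + m)

/-- add `m` to all entries and append an entry `m` -/
def lift (m : ℕ) (ν : List ℕ) : List ℕ := addL m ν ++ [m]

@[simp] lemma addL_zero (ν : List ℕ) : addL 0 ν = ν := by simp [addL]

lemma addL_succ (m : ℕ) (ν : List ℕ) : addL (m + 1) ν = succL (addL m ν) := by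
  simp [addL, succL, add_assoc]

@[simp] lemma length_addL (m : ℕ) (ν : List ℕ) : (addL m ν).length = ν.length := by simp [addL]

lemma addL_cons (m x : ℕ) (ν : List ℕ) : addL m (x :: ν) = (x + m) :: addL m ν := rfl

lemma addL_append (m : ℕ) (μ ν : List ℕ) : addL m (μ ++ ν) = addL m μ ++ addL m ν := by
  simp [addL]

variable (t : k)

lemma sum_pair_step (l N : ℕ) (f : MvPolynomial ℕ k) (r : List ℕ → k) :
    ∑ ν ∈ S l (N + l), r ν * pair t l (prodX l * f) (G t ν) =
      ∑ ν ∈ S l N, r (succL ν) * pair t l f (G t ν) := by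
  symm
  apply Finset.sum_of_injOn succL
  · intro a _ b _ h
    have := congrArg predL h
    rwa [predL_succL, predL_succL] at this
  · intro ν hν
    rw [Finset.mem_coe, mem_S] at hν ⊢
    rw [length_succL, sum_succL]
    omega
  · intro ν hν hne
    rw [mem_S] at hν
    by_cases h0 : 0 ∈ ν
    · rw [pair_prodX_G_zero t hν.1 h0, mul_zero]
    · exfalso
      apply hne
      refine ⟨predL ν, ?_, succL_predL h0⟩
      rw [Finset.mem_coe, mem_S, length_predL]
      have := sum_predL h0
      omega
  · intro ν hν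
    rw [mem_S] at hν
    rw [G_succL, hν.1, pair_prodX]

lemma sum_pair_steps (l m N : ℕ) (f : MvPolynomial ℕ k) (r : List ℕ → k) :
    ∑ ν ∈ S l (N + m * l), r ν * pair t l (prodX l ^ m * f) (G t ν) =
      ∑ ν ∈ S l N, r (addL m ν) * pair t l f (G t ν) := by
  induction m generalizing r with
  | zero => simp
  | succ m ih =>
    have e : N + (m + 1) * l = (N + m * l) + l := by ring
    have e2 : ∀ g : MvPolynomial ℕ k, prodX l ^ (m + 1) * g = prodX l * (prodX l ^ m * g) := by
      intro g; rw [pow_succ']; ring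
    rw [e, e2, sum_pair_step, ih]
    simp only [addL_succ]

lemma sum_pair_lift (n m A : ℕ) (a : List ℕ) (ha : a.length = n) (r : List ℕ → k) :
    ∑ ν ∈ S (n + 1) (A + m * (n + 1)), r ν * pair t (n + 1) (prodX (n + 1) ^ m * mon a) (G t ν) =
      ∑ ν ∈ S n A, r (lift m ν) * pair t n (mon a) (G t ν) := by
  rw [sum_pair_steps, sum_S_snoc, Finset.sum_eq_single_of_mem (0, A)]
  · apply Finset.sum_congr rfl
    intro ν hν
    rw [mem_S] at hν
    have h := ev_G t ν 0
    rw [hν.1, if_pos rfl] at h
    rw [pair_mon_last t n a ha, h, addL_append, lift]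
    simp [addL]
  · rw [Finset.HasAntidiagonal.mem_antidiagonal]; simp
  · intro p hp hne
    rw [Finset.HasAntidiagonal.mem_antidiagonal] at hp
    apply Finset.sum_eq_zero
    intro ν hν
    rw [mem_S] at hν
    have h := ev_G t ν p.1
    rw [hν.1, if_neg (by
      intro h0
      apply hne
      ext
      · exact h0
      · simp; omega)] at h
    rw [pair_mon_last t n a ha, h, map_zero, mul_zero]

variable {t}

/-- the trace lemma -/
theorem trace_lemma (ht : t ≠ 0) (n m A : ℕ)
    (𝒜 : MvPolynomial ℕ k →ₗ[k] MvPolynomial ℕ k) (M : List ℕ → List ℕ → k)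
    (h𝒜 : ∀ b ∈ S n A, 𝒜 (G t b) = ∑ ν ∈ S (n + 1) (A + m * (n + 1)), M ν b • G t ν) :
    ∑ a ∈ S n A, pair t (n + 1) (prodX (n + 1) ^ m * mon a) (𝒜 (vv t a)) =
      ∑ b ∈ S n A, M (lift m b) b := by
  have h1 : ∀ a : List ℕ, ∃ r : List ℕ → k, a ∈ S n A → vv t a = ∑ b ∈ S n A, r b • G t b := by
    intro a
    by_cases ha : a ∈ S n A
    · have h2 := vv_mem_VV ht a
      rw [mem_S] at ha
      rw [ha.1, ha.2] at h2
      obtain ⟨r, hr⟩ := mem_VV_iff.1 h2
      exact ⟨r, fun _ => hr⟩
    · exact ⟨fun _ => 0, fun h => absurd h ha⟩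
  choose η hη using h1
  let MX : Matrix (S n A) (S n A) k := fun a b => pair t n (mon a.1) (G t b.1)
  let Mη : Matrix (S n A) (S n A) k := fun b a => η a.1 b.1
  have h2 : MX * Mη = 1 := by
    ext a a'
    rw [Matrix.mul_apply]
    have h3 : pair t n (mon a.1) (vv t a'.1) = if a'.1 = a.1 then 1 else 0 :=
      pair_vv t n a'.1 a.1 (mem_S.1 a'.2).1 (mem_S.1 a.2).1
    rw [hη a'.1 a'.2, map_sum] at h3
    simp only [map_smul, smul_eq_mul] at h3
    have h4 := Finset.sum_coe_sort (S n A)
      (fun b => η a'.1 b * pair t n (mon a.1) (G t b))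
    rw [h3] at h4
    rw [Matrix.one_apply]
    have h5 : (if a'.1 = a.1 then (1 : k) else 0) = if a = a' then 1 else 0 := by
      by_cases h : a = a'
      · subst h; simp
      · rw [if_neg h, if_neg (fun h' => h (Subtype.ext h'.symm))]
    rw [← h5, ← h4]
    apply Finset.sum_congr rfl
    intro b _
    exact mul_comm _ _
  have h3 : Mη * MX = 1 := mul_eq_one_comm.1 h2
  have h4 : ∀ b ∈ S n A, ∀ b' ∈ S n A, ∑ a ∈ S n A, η a b * pair t n (mon a) (G t b') =
      if b = b' then 1 else 0 := by
    intro b hb b' hb'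
    have h5 := congrFun (congrFun h3 ⟨b, hb⟩) ⟨b', hb'⟩
    rw [Matrix.mul_apply, Matrix.one_apply] at h5
    have h6 := Finset.sum_coe_sort (S n A) (fun a => η a b * pair t n (mon a) (G t b'))
    rw [← h6]
    simp only [Subtype.mk.injEq] at h5
    exact h5
  calc ∑ a ∈ S n A, pair t (n + 1) (prodX (n + 1) ^ m * mon a) (𝒜 (vv t a))
      = ∑ a ∈ S n A, ∑ b ∈ S n A, η a b *
          ∑ b' ∈ S n A, M (lift m b') b * pair t n (mon a) (G t b') := by
        apply Finset.sum_congr rfl
        intro a ha
        conv_lhs => rw [hη a ha, map_sum, map_sum]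
        apply Finset.sum_congr rfl
        intro b hb
        rw [map_smul, map_smul, smul_eq_mul, h𝒜 b hb, map_sum,
          ← sum_pair_lift t n m A a (mem_S.1 ha).1 (fun ν => M ν b)]
        congr 1
        apply Finset.sum_congr rfl
        intro ν _
        rw [map_smul, smul_eq_mul]
    _ = ∑ b ∈ S n A, ∑ b' ∈ S n A, M (lift m b') b *
          ∑ a ∈ S n A, η a b * pair t n (mon a) (G t b') := by
        rw [Finset.sum_comm]
        apply Finset.sum_congr rfl
        intro b _
        simp only [Finset.mul_sum]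
        rw [Finset.sum_comm]
        apply Finset.sum_congr rfl
        intro b' _
        apply Finset.sum_congr rfl
        intro a _
        ring
    _ = ∑ b ∈ S n A, M (lift m b) b := by
        apply Finset.sum_congr rfl
        intro b hb
        rw [Finset.sum_eq_single_of_mem b hb]
        · rw [h4 b hb b hb, if_pos rfl, mul_one]
        · intro b' hb' hne
          rw [h4 b hb b' hb', if_neg (fun h => hne h.symm), mul_zero]

end Pool.Agent.TH421.Cat
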