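import Pool.Agent.TH421.Cat.Trace

/-! The two traces. -/

set_option autoImplicit false

namespace Pool.Agent.TH421.Cat

open MvPolynomial

variable {k : Type*} [Field k] {t : k}

/-- the first trace -/
theorem trace_W (ht : t ≠ 0) (n m A : ℕ) :
    ∑ a ∈ S n A, pair t (n + 1) (prodX (n + 1) ^ m * mon a)
      (hk (n + 1) (m * (n + 1)) * sh (vv t a)) = ∑ b ∈ S n A, Cf t (lift m b) (0 :: b) := by
  apply trace_lemma ht n m A
    ((LinearMap.mulLeft k (hk (n + 1) (m * (n + 1)))).comp (sh (k := k)).toLinearMap)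
    (fun ν b => Cf t ν (0 :: b))
  intro b hb
  rw [mem_S] at hb
  rw [LinearMap.comp_apply, AlgHom.toLinearMap_apply, LinearMap.mulLeft_apply, ← G_zero_cons,
    pieri ht _ _ _ (by simp [hb.1])]
  simp [hb.2]

/-- iterated action on coefficients -/
def TTup (t : k) : ℕ → (List ℕ → k) → (List ℕ → k)
  | 0, r => r
  | p + 1, r => TT t p (TTup t p r)

lemma TTup_zero (r : List ℕ → k) : TTup t 0 r = r := rfl
lemma TTup_succ (p : ℕ) (r : List ℕ → k) : TTup t (p + 1) r = TT t p (TTup t p r) := rfl

lemma Tup_sum_TTup {p l n : ℕ} (h : p < l) (r : List ℕ → k) :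
    Tup t p (∑ ν ∈ S l n, r ν • G t ν) = ∑ ν ∈ S l n, TTup t p r ν • G t ν := by
  induction p with
  | zero => rfl
  | succ p ih => rw [Tup_succ, ih (by omega), TT_sum t h, TTup_succ]

lemma TTup_congr {p l n : ℕ} {r r' : List ℕ → k} (h : ∀ ν ∈ S l n, r ν = r' ν) :
    ∀ ν ∈ S l n, TTup t p r ν = TTup t p r' ν := by
  induction p with
  | zero => exact h
  | succ p ih =>
    intro ν hν
    rw [TTup_succ, TTup_succ, TT, TT, ih ν hν, ih _ (swl_mem_S hν)]

lemma TTup_lin (p : ℕ) (s : Finset (List ℕ)) (φ : List ℕ → k) (r : List ℕ → List ℕ → k)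
    (ν : List ℕ) : TTup t p (fun ν => ∑ b ∈ s, φ b * r b ν) ν =
      ∑ b ∈ s, φ b * TTup t p (r b) ν := by
  induction p generalizing ν with
  | zero => rfl
  | succ p ih =>
    rw [TTup_succ, TT, ih, ih, Finset.mul_sum, Finset.mul_sum, ← Finset.sum_add_distrib]
    apply Finset.sum_congr rfl
    intro b _
    rw [TTup_succ, TT]
    ring

lemma TTup_C (ht : t ≠ 0) (c : ℕ) (α β : List ℕ) (h : ∀ x ∈ α, c ≤ x) {ν : List ℕ}
    (hν : ν.length = (α ++ c :: β).length) :
    TTup t α.length (fun ν => Cf t ν (c :: α ++ β)) ν = Cf t ν (α ++ c :: β) := by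
  induction α using List.reverseRecOn generalizing β ν with
  | nil => rfl
  | append_singleton α x ih =>
    have h1 : ∀ y ∈ α, c ≤ y := fun y hy => h y (by simp [hy])
    have e1 : c :: (α ++ [x]) ++ β = c :: α ++ (x :: β) := by simp
    have e2 : α ++ [x] ++ c :: β = α ++ x :: c :: β := by simp
    have e3 : (α ++ x :: c :: β).length = (α ++ c :: x :: β).length := by simp
    rw [e2, e3] at hν
    have e4 : TTup t (α ++ [x]).length (fun ν => Cf t ν (c :: (α ++ [x]) ++ β)) ν =
        TT t α.length (fun ν => Cf t ν (α ++ c :: x :: β)) ν := by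
      rw [e1, List.length_append, List.length_singleton, TTup_succ, TT, TT,
        ih (x :: β) h1 hν, ih (x :: β) h1 (by rw [(swl_perm _ ν).length_eq]; exact hν)]
    rw [e4, e2, TT_C ht hν (by simp) (by
      rw [gt_append]
      have := h x (by simp)
      simp; omega), swl_append]

lemma swl_lift {i : ℕ} (m : ℕ) {b : List ℕ} (h : i + 1 < b.length) :
    swl i (lift m b) = lift m (swl i b) := by
  obtain ⟨pre, post, x, y, rfl, rfl⟩ := exists_pre_post h
  rw [swl_append, lift, lift, addL_append, addL_append, addL_cons, addL_cons, addL_cons,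
    addL_cons, List.append_assoc, List.append_assoc, ← length_addL m pre, List.cons_append,
    List.cons_append, List.cons_append, List.cons_append, swl_append]

lemma gt_lift {i : ℕ} (m : ℕ) {b : List ℕ} (h : i + 1 < b.length) :
    gt i (lift m b) = gt i b := by
  obtain ⟨pre, post, x, y, rfl, rfl⟩ := exists_pre_post h
  rw [gt_append, lift, addL_append, addL_cons, addL_cons, List.append_assoc,
    ← length_addL m pre, List.cons_append, List.cons_append, gt_append]
  simp

lemma TTup_lift {p : ℕ} (m : ℕ) (ψ : List ℕ → k) {b : List ℕ} (h : p < b.length) :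
    TTup t p (fun b => ψ (lift m b)) b = TTup t p ψ (lift m b) := by
  induction p generalizing b with
  | zero => rfl
  | succ p ih =>
    have hl : p + 1 < (swl p b).length := by rw [(swl_perm _ b).length_eq]; exact h
    rw [TTup_succ, TTup_succ, TT, TT, swl_lift m h, gt_lift m hl, gt_lift m h,
      ih (b := b) (by omega), ih (b := swl p b) (by omega)]

lemma sh_cyc (p : ℕ) {f : MvPolynomial ℕ k} (h : proj (p + 1) f = f) :
    sh (cyc p f) = ev 0 f := by
  have : ((sh (k := k)).comp (cyc p)).comp (proj (p + 1)) = (ev 0).comp (proj (p + 1)) := by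
    apply MvPolynomial.algHom_ext
    intro j
    simp only [AlgHom.comp_apply, proj, aeval_X]
    by_cases h1 : j < p + 1
    · rw [if_pos h1]
      rcases j with _ | j
      · simp [cyc]
      · rw [ev_X_of_ne (by omega), cyc, aeval_X, if_neg (by omega), if_pos (by omega)]
        simp
    · rw [if_neg h1]; simp
  have h2 := DFunLike.congr_fun this f
  simp only [AlgHom.comp_apply] at h2
  rw [h] at h2
  exact h2

lemma ev0_G {n : ℕ} {b : List ℕ} (hb : b.length = n + 1) :
    ev 0 (G t b) = sh (ev n (Tup t n (G t b))) := by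
  rw [ev_Tup, sh_cyc]
  rw [← hb]
  exact G_proj t b

/-- matrix of the second operator -/
noncomputable def MT (t : k) (n A : ℕ) (ν b : List ℕ) : k :=
  ∑ c ∈ S n A, TTup t n (fun x => if b = x then 1 else 0) (c ++ [0]) * Cf t ν (0 :: 0 :: c)

lemma sh_ev0_G {n A : ℕ} {b : List ℕ} (hb : b ∈ S (n + 1) A) :
    sh (ev 0 (G t b)) = ∑ c ∈ S n A,
      TTup t n (fun x => if b = x then 1 else 0) (c ++ [0]) • G t (0 :: 0 :: c) := by
  have h1 : G t b = ∑ ν ∈ S (n + 1) A, (if b = ν then (1 : k) else 0) • G t ν := by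
    simp only [ite_smul, one_smul, zero_smul]
    rw [Finset.sum_ite_eq, if_pos hb]
  rw [ev0_G (mem_S.1 hb).1]
  have h2 : ev n (Tup t n (G t b)) = ∑ c ∈ S n A,
      TTup t n (fun x => if b = x then 1 else 0) (c ++ [0]) • G t c := by
    conv_lhs => rw [h1]
    rw [Tup_sum_TTup (by omega), map_sum, sum_S_snoc, Finset.sum_eq_single_of_mem (0, A)]
    · apply Finset.sum_congr rfl
      intro ν hν
      rw [mem_S] at hν
      have h := ev_G t ν 0
      rw [hν.1, if_pos rfl] at h
      rw [map_smul, h]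
    · rw [Finset.HasAntidiagonal.mem_antidiagonal]; simp
    · intro p hp hne
      rw [Finset.HasAntidiagonal.mem_antidiagonal] at hp
      apply Finset.sum_eq_zero
      intro ν hν
      rw [mem_S] at hν
      have h := ev_G t ν p.1
      rw [hν.1, if_neg (by
        intro h0
        apply hne
        ext
        · exact h0
        · simp; omega)] at h
      rw [map_smul, h, smul_zero]
  rw [h2, map_sum, map_sum]
  apply Finset.sum_congr rfl
  intro c _
  rw [map_smul, map_smul, G_zero_cons, G_zero_cons]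

/-- the second trace -/
theorem trace_T (ht : t ≠ 0) (n m A : ℕ) :
    ∑ a ∈ S (n + 1) A, pair t (n + 2) (prodX (n + 2) ^ m * mon a)
      (hk (n + 2) (m * (n + 2)) * sh (ev 0 (vv t a))) =
      ∑ c ∈ S n A, Cf t (addL m c ++ [m, m]) (0 :: c ++ [0]) := by
  have h1 := trace_lemma ht (n + 1) m A
    ((LinearMap.mulLeft k (hk (n + 2) (m * (n + 2)))).comp
      ((sh (k := k)).toLinearMap.comp (ev (k := k) 0).toLinearMap))
    (MT t n A) (by
      intro b hb
      rw [LinearMap.comp_apply, LinearMap.comp_apply, AlgHom.toLinearMap_apply,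
        AlgHom.toLinearMap_apply, LinearMap.mulLeft_apply, sh_ev0_G hb, Finset.mul_sum]
      simp only [MT, Finset.sum_smul]
      rw [Finset.sum_comm]
      apply Finset.sum_congr rfl
      intro c hc
      rw [mem_S] at hc
      rw [mul_smul_comm, pieri ht _ _ _ (by simp [hc.1]), Finset.smul_sum]
      simp only [List.sum_cons, zero_add, hc.2, smul_smul])
  have e : ∀ f : MvPolynomial ℕ k, ((LinearMap.mulLeft k (hk (n + 2) (m * (n + 2)))).comp
      ((sh (k := k)).toLinearMap.comp (ev (k := k) 0).toLinearMap)) f =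
      hk (n + 2) (m * (n + 2)) * sh (ev 0 f) := fun f => rfl
  simp only [e] at h1
  rw [h1]
  simp only [MT]
  rw [Finset.sum_comm]
  apply Finset.sum_congr rfl
  intro c hc
  have hc' := mem_S.1 hc
  have h2 : c ++ [0] ∈ S (n + 1) A := mem_S.2 ⟨by simp [hc'.1], by simp [hc'.2]⟩
  have h3 := TTup_lin (t := t) n (S (n + 1) A) (fun b => Cf t (lift m b) (0 :: 0 :: c))
    (fun b x => if b = x then 1 else 0) (c ++ [0])
  have h4 : ∑ b ∈ S (n + 1) A, TTup t n (fun x => if b = x then 1 else 0) (c ++ [0]) *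
      Cf t (lift m b) (0 :: 0 :: c) =
      TTup t n (fun b => Cf t (lift m b) (0 :: 0 :: c)) (c ++ [0]) := by
    have h5 : TTup t n (fun b => Cf t (lift m b) (0 :: 0 :: c)) (c ++ [0]) =
        TTup t n (fun ν => ∑ b ∈ S (n + 1) A, Cf t (lift m b) (0 :: 0 :: c) *
          (if b = ν then 1 else 0)) (c ++ [0]) := by
      apply TTup_congr (l := n + 1) (n := A) _ _ h2
      intro ν hν
      simp only [mul_ite, mul_one, mul_zero]
      rw [Finset.sum_ite_eq', if_pos hν]
    rw [h5, h3]
    apply Finset.sum_congr rfl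
    intro b _
    exact mul_comm _ _
  rw [h4, TTup_lift m (fun ν => Cf t ν (0 :: 0 :: c)) (by simp [hc'.1])]
  have h6 : lift m (c ++ [0]) = addL m c ++ [m, m] := by
    simp [lift, addL]
  rw [h6]
  have h7 := TTup_C ht 0 (0 :: c) [] (fun x _ => Nat.zero_le x) (ν := addL m c ++ [m, m])
    (by simp)
  rw [← h7, List.length_cons, hc'.1, TTup_succ, TT]
  have h8 : swl n (addL m c ++ [m, m]) = addL m c ++ [m, m] := by
    have := swl_append (addL m c) [] m m
    rwa [length_addL, hc'.1] at this
  have h9 : gt n (addL m c ++ [m, m]) = false := by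
    have := gt_append (addL m c) [] m m
    rw [length_addL, hc'.1] at this
    rw [this]; simp
  rw [h8, h9]
  simp

end Pool.Agent.TH421.Cat
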