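import Pool.Agent.TH421.Cat.Ident

/-! Evaluation of the coefficients in terms of words. -/

set_option autoImplicit false

namespace Pool.Agent.TH421.Cat

/-- the contribution of a pair of entries -/
def sc (m : ℕ) (x : ℤ) : ℤ :=
  if 1 ≤ x ∧ x ≤ (m : ℤ) + 1 then (m : ℤ) + 1 - x
  else if -(m : ℤ) ≤ x ∧ x ≤ 0 then (m : ℤ) + x
  else 0

lemma sc_nonneg (m : ℕ) (x : ℤ) : 0 ≤ sc m x := by
  rw [sc]; split_ifs <;> omega

/-- sum of the contributions of a new last entry `y` -/
def scsum (m : ℕ) (y : ℕ) : List ℕ → ℤ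
  | [] => 0
  | x :: w => sc m ((x : ℤ) - y) + scsum m y w

/-- the statistic of a reversed word -/
def Dr (m : ℕ) : List ℕ → ℤ
  | [] => 0
  | y :: w => scsum m y w + Dr m w

lemma scsum_nonneg (m y : ℕ) (w : List ℕ) : 0 ≤ scsum m y w := by
  induction w with
  | nil => exact le_rfl
  | cons x w ih => rw [scsum]; have := sc_nonneg m ((x : ℤ) - y); omega

lemma Dr_nonneg (m : ℕ) (w : List ℕ) : 0 ≤ Dr m w := by
  induction w with
  | nil => exact le_rfl
  | cons x w ih => rw [Dr]; have := scsum_nonneg m x w; omega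

lemma MM_scsum (m x : ℕ) (w : List ℕ) :
    MM (addL m w) (x + m + 1) - MM (addL m w) x - MM w (x + m + 1) + MM w x = scsum m x w := by
  induction w with
  | nil => simp [addL, scsum]
  | cons y w ih =>
    rw [addL_cons, MM_cons, MM_cons, MM_cons, MM_cons, scsum, sc]
    split_ifs <;> omega

/-- validity of a reversed word -/
def Val (m : ℕ) (p : ℕ) (b : List ℕ) : Prop :=
  List.Forall₂ (· ≤ ·) (p :: b) (addL m (b ++ [0]))

lemma ex_Val (m p : ℕ) (b : List ℕ) (h : Val m p b) :
    ex (addL m (b ++ [0])) (p :: b) =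
      Dr m (b ++ [0]) - MM (addL m (b ++ [0])) p + MM (p :: b) p := by
  induction b generalizing p with
  | nil =>
    rw [Val] at h
    simp only [List.nil_append, addL, List.map_cons, List.map_nil, zero_add,
      List.forall₂_cons, List.Forall₂.nil, and_true] at h
    simp only [List.nil_append, addL, List.map_cons, List.map_nil, zero_add, ex, MM, Dr, scsum]
    omega
  | cons x b ih =>
    rw [Val, List.cons_append, addL_cons, List.forall₂_cons] at h
    have h1 := ih x h.2
    have h2 := MM_scsum m x (b ++ [0])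
    rw [List.cons_append, addL_cons, ex_cons, h1, Dr, MM_cons (x + m), MM_cons p]
    rw [MM_append b [0] (x + m + 1), MM_append b [0] x] at h2
    rw [MM_cons x b p, MM_cons x b x, MM_cons x b (x + m + 1)]
    simp only [MM_cons, MM_nil] at h2
    have h3 := h.1
    omega

variable {k : Type*} [Field k] {t : k}

lemma Cf_lift_pos (ht : t ≠ 0) {m : ℕ} {b : List ℕ} (h : Val m 0 b) :
    Cf t (lift m b) (0 :: b) = t ^ (Dr m (b ++ [0])).toNat := by
  have e : lift m b = addL m (b ++ [0]) := by rw [lift, addL_append]; simp [addL]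
  rw [e, Cf_pos ht h, ex_Val m 0 b h, MM_z, MM_z, sub_zero, add_zero, ← zpow_natCast,
    Int.toNat_of_nonneg (Dr_nonneg m _)]

lemma Cf_lift_neg {m : ℕ} {b : List ℕ} (h : ¬ Val m 0 b) :
    Cf t (lift m b) (0 :: b) = 0 := by
  have e : lift m b = addL m (b ++ [0]) := by rw [lift, addL_append]; simp [addL]
  rw [e]
  exact Cf_neg h

end Pool.Agent.TH421.Cat
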